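import Mathlib

/-!
# Project FZ (MP_810665_al): representation zeta functions of products of alternating groups

Definitions and the exact statements `S_...` of the pieces.  Proofs: `NOTES.md` in this folder.
-/

set_option linter.unusedVariables false

namespace Pool.Agent.R639.FZ

open Matrix

section Reps

variable {G : Type*} [Group G] {n : ℕ}

/-- complex matrix representations of degree `n` -/
abbrev MRep (G : Type*) [Group G] (n : ℕ) := G →* Matrix (Fin n) (Fin n) ℂ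

/-- `W` is invariant under `ρ` -/
def Inv (ρ : MRep G n) (W : Submodule ℂ (Fin n → ℂ)) : Prop :=
  ∀ g : G, ∀ w ∈ W, (ρ g).mulVec w ∈ W

/-- irreducible matrix representation -/
def Irred (ρ : MRep G n) : Prop :=
  0 < n ∧ ∀ W : Submodule ℂ (Fin n → ℂ), Inv ρ W → W = ⊥ ∨ W = ⊤

/-- isomorphic (conjugate) matrix representations -/
def Iso (ρ σ : MRep G n) : Prop :=
  ∃ P : (Matrix (Fin n) (Fin n) ℂ)ˣ, ∀ g : G,
    σ g = (P : Matrix (Fin n) (Fin n) ℂ) * ρ g * ((P⁻¹ : (Matrix (Fin n) (Fin n) ℂ)ˣ) :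
      Matrix (Fin n) (Fin n) ℂ)

theorem Iso.refl (ρ : MRep G n) : Iso ρ ρ := ⟨1, fun g => by simp⟩

theorem Iso.symm {ρ σ : MRep G n} (h : Iso ρ σ) : Iso σ ρ := by
  obtain ⟨P, hP⟩ := h
  refine ⟨P⁻¹, fun g => ?_⟩
  rw [hP g, inv_inv, mul_assoc, mul_assoc, mul_assoc, Units.inv_mul, mul_one, ← mul_assoc,
    Units.inv_mul, one_mul]

theorem Iso.trans {ρ σ τ : MRep G n} (h : Iso ρ σ) (h' : Iso σ τ) : Iso ρ τ := by
  obtain ⟨P, hP⟩ := h
  obtain ⟨Q, hQ⟩ := h'
  refine ⟨Q * P, fun g => ?_⟩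
  rw [hQ g, hP g, _root_.mul_inv_rev, Units.val_mul, Units.val_mul]
  simp only [mul_assoc]

/-- the continuous irreducible representations of degree `n` of a topological group -/
def CIrr (G : Type*) [Group G] [TopologicalSpace G] (n : ℕ) : Type _ :=
  {ρ : MRep G n // Continuous ρ ∧ Irred ρ}

instance cSetoid (G : Type*) [Group G] [TopologicalSpace G] (n : ℕ) : Setoid (CIrr G n) where
  r := fun ρ σ => Iso ρ.1 σ.1
  iseqv := ⟨fun ρ => Iso.refl ρ.1, fun h => h.symm, fun h h' => h.trans h'⟩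

/-- isomorphism classes of continuous irreducible representations of degree `n` -/
def CClass (G : Type*) [Group G] [TopologicalSpace G] (n : ℕ) : Type _ :=
  Quotient (cSetoid G n)

/-- `r_n(G)` -/
noncomputable def rc (G : Type*) [Group G] [TopologicalSpace G] (n : ℕ) : ℕ :=
  Nat.card (CClass G n)

/-- the irreducible representations of degree `n` of an abstract group -/
def AIrr (G : Type*) [Group G] (n : ℕ) : Type _ := {ρ : MRep G n // Irred ρ}

instance aSetoid (G : Type*) [Group G] (n : ℕ) : Setoid (AIrr G n) where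
  r := fun ρ σ => Iso ρ.1 σ.1
  iseqv := ⟨fun ρ => Iso.refl ρ.1, fun h => h.symm, fun h h' => h.trans h'⟩

/-- isomorphism classes of irreducible representations of degree `n` of an abstract group -/
def AClass (G : Type*) [Group G] (n : ℕ) : Type _ := Quotient (aSetoid G n)

/-- the number of classes in `AClass` -/
noncomputable def ra (G : Type*) [Group G] (n : ℕ) : ℕ := Nat.card (AClass G n)

end Reps

/-- FAb: every open subgroup has finite (topological) abelianisation -/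
def FAb (G : Type*) [Group G] [TopologicalSpace G] [IsTopologicalGroup G] : Prop :=
  ∀ U : Subgroup G, IsOpen (U : Set G) → Finite (TopologicalAbelianization U)

/-! ## representations on general spaces -/

section Gen

variable {G : Type*} [Group G]

/-- irreducible -/
def IrrE {V : Type*} [AddCommGroup V] [Module ℂ V] (ρ : G →* Module.End ℂ V) : Prop :=
  Nontrivial V ∧ ∀ W : Submodule ℂ V, (∀ g : G, ∀ w ∈ W, ρ g w ∈ W) → W = ⊥ ∨ W = ⊤

/-- isomorphic -/
def IsoE {V W : Type*} [AddCommGroup V] [Module ℂ V] [AddCommGroup W] [Module ℂ W]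
    (ρ : G →* Module.End ℂ V) (σ : G →* Module.End ℂ W) : Prop :=
  ∃ e : V ≃ₗ[ℂ] W, ∀ g : G, ∀ v : V, e (ρ g v) = σ g (e v)

/-- the linear representation given by a matrix representation -/
noncomputable def lin {n : ℕ} (ρ : MRep G n) : G →* Module.End ℂ (Fin n → ℂ) :=
  (Matrix.toLinAlgEquiv' (R := ℂ) (n := Fin n)).toAlgHom.toRingHom.toMonoidHom.comp ρ

theorem lin_apply {n : ℕ} (ρ : MRep G n) (g : G) (v : Fin n → ℂ) :
    lin ρ g v = (ρ g).mulVec v := rfl

end Gen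

/-! ## alternating groups -/

/-- the alternating group of degree `N` -/
abbrev A (N : ℕ) := alternatingGroup (Fin N)

section Alt

variable {N : ℕ} {V : Type*} [AddCommGroup V] [Module ℂ V]

/-- vectors fixed by the pointwise stabiliser of `T` -/
def Fx (ρ : A N →* Module.End ℂ V) (T : Finset (Fin N)) : Submodule ℂ V where
  carrier := {v | ∀ g : A N, (∀ i ∈ T, g.1 i = i) → ρ g v = v}
  add_mem' := fun {a b} ha hb g hg => by rw [map_add, ha g hg, hb g hg]
  zero_mem' := fun g _ => map_zero _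
  smul_mem' := fun c v hv g hg => by rw [map_smul, hv g hg]

theorem mem_Fx {ρ : A N →* Module.End ℂ V} {T : Finset (Fin N)} {v : V} :
    v ∈ Fx ρ T ↔ ∀ g : A N, (∀ i ∈ T, g.1 i = i) → ρ g v = v := Iff.rfl

/-- the level of `ρ` is `k`: some stabiliser of `k` points has a nonzero fixed vector,
and `k` is minimal with this property -/
def Lvl (ρ : A N →* Module.End ℂ V) (k : ℕ) : Prop :=
  (∃ T : Finset (Fin N), T.card = k ∧ Fx ρ T ≠ ⊥) ∧
    ∀ T : Finset (Fin N), T.card < k → Fx ρ T = ⊥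

/-- the first `k` points -/
def T0 (N k : ℕ) : Finset (Fin N) := Finset.univ.filter fun i => i.1 < k

/-- `g` acts on the first `k` points as the permutation `σ` -/
def Lifts {N k : ℕ} (g : A N) (σ : Equiv.Perm (Fin k)) : Prop :=
  ∀ (i : Fin k) (x : Fin N), x.1 = i.1 → (g.1 x).1 = (σ i).1

/-- average over the cyclic group generated by an element of order three -/
noncomputable def avg (ρ : A N →* Module.End ℂ V) (c : A N) : Module.End ℂ V :=
  (1 / 3 : ℂ) • (1 + ρ c + ρ (c * c))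

/-- `1 - avg` -/
noncomputable def dev (ρ : A N →* Module.End ℂ V) (c : A N) : Module.End ℂ V := 1 - avg ρ c

/-- average over the pointwise stabiliser of `T` -/
noncomputable def prj (ρ : A N →* Module.End ℂ V) (T : Finset (Fin N)) : Module.End ℂ V := by
  classical exact
  ((Finset.univ.filter fun g : A N => ∀ i ∈ T, g.1 i = i).card : ℂ)⁻¹ •
    ∑ g ∈ Finset.univ.filter (fun g : A N => ∀ i ∈ T, g.1 i = i), ρ g

/-- the points of the standard blocks of size three -/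
def blk (N : ℕ) (i : Fin (N / 3)) (a : Fin 3) : Fin N :=
  ⟨3 * i.1 + a.1, by have := i.2; have := a.2; omega⟩

/-- the three-cycle `(3i, 3i+1, 3i+2)` as a permutation -/
def cycP (N : ℕ) (i : Fin (N / 3)) : Equiv.Perm (Fin N) :=
  Equiv.swap (blk N i 0) (blk N i 1) * Equiv.swap (blk N i 1) (blk N i 2)

theorem cycP_mem (N : ℕ) (i : Fin (N / 3)) : cycP N i ∈ alternatingGroup (Fin N) := by
  have h01 : blk N i 0 ≠ blk N i 1 := by
    intro h
    have := congrArg Fin.val h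
    simp [blk] at this
  have h12 : blk N i 1 ≠ blk N i 2 := by
    intro h
    have := congrArg Fin.val h
    simp [blk] at this
  rw [Equiv.Perm.mem_alternatingGroup, cycP, map_mul, Equiv.Perm.sign_swap h01,
    Equiv.Perm.sign_swap h12]
  rfl

/-- the three-cycle of the `i`-th standard block as an element of the alternating group -/
def cyc (N : ℕ) (i : Fin (N / 3)) : A N := ⟨cycP N i, cycP_mem N i⟩

/-- a primitive third root of unity -/
noncomputable def om : ℂ := Complex.exp (2 * Real.pi * Complex.I / 3)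

/-- the character `χ` of the group generated by the commuting three-cycles `cyc N i` occurs -/
def Occ (ρ : A N →* Module.End ℂ V) (χ : Fin (N / 3) → ZMod 3) : Prop :=
  ∃ v : V, v ≠ 0 ∧ ∀ i, ρ (cyc N i) v = om ^ (χ i).val • v

/-- the projection to the `om ^ a`-eigenspace of `cyc N i` -/
noncomputable def pj (ρ : A N →* Module.End ℂ V) (i : Fin (N / 3)) (a : ZMod 3) :
    Module.End ℂ V :=
  (1 / 3 : ℂ) • (1 + om ^ ((-a).val) • ρ (cyc N i) + om ^ ((-a).val * 2) • ρ (cyc N i * cyc N i))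

end Alt

/-! ## statements of the pieces -/

/-- OCC1: every nonzero vector has a component for an occurring character. -/
def S_OCC1 : Prop := ∀ (N : ℕ) (V : Type) [AddCommGroup V] [Module ℂ V]
  (ρ : A N →* Module.End ℂ V) (v : V), v ≠ 0 →
    ∃ χ : Fin (N / 3) → ZMod 3, Occ ρ χ ∧ ∀ i, pj ρ i (χ i) v ≠ 0

/-- OCC2: the number of occurring characters is at most the dimension. -/
def S_OCC2 : Prop := ∀ (N : ℕ) (V : Type) [AddCommGroup V] [Module ℂ V] [FiniteDimensional ℂ V]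
  (ρ : A N →* Module.End ℂ V) (X : Finset (Fin (N / 3) → ZMod 3)),
    (∀ χ ∈ X, Occ ρ χ) → X.card ≤ Module.finrank ℂ V

/-- MOVE: swapping two blocks, flipping two blocks, and any pair of disjoint three-cycles can
be moved to the first two blocks. -/
def S_MOVE : Prop := ∀ (N : ℕ) (V : Type) [AddCommGroup V] [Module ℂ V]
  (ρ : A N →* Module.End ℂ V) (χ : Fin (N / 3) → ZMod 3) (i j : Fin (N / 3)), Occ ρ χ → i ≠ j →
    (∃ χ' : Fin (N / 3) → ZMod 3, Occ ρ χ' ∧ (∀ l, l ≠ i → l ≠ j → χ' l = χ l) ∧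
      (χ' i = 0 ↔ χ j = 0) ∧ (χ' j = 0 ↔ χ i = 0)) ∧
    Occ ρ (fun l => if l = i ∨ l = j then - χ l else χ l)

/-- FIX: a joint eigenvector whose character has support of maximal size is fixed by the
pointwise stabiliser of the blocks in the support. -/
def S_FIX : Prop := ∀ (N : ℕ) (V : Type) [AddCommGroup V] [Module ℂ V]
  (ρ : A N →* Module.End ℂ V) (χ : Fin (N / 3) → ZMod 3) (v : V),
    (∀ i, ρ (cyc N i) v = om ^ (χ i).val • v) →
    (∀ χ' : Fin (N / 3) → ZMod 3, Occ ρ χ' →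
      (Finset.univ.filter fun i => χ' i ≠ 0).card ≤ (Finset.univ.filter fun i => χ i ≠ 0).card) →
    v ∈ Fx ρ (Finset.univ.filter fun x : Fin N =>
      ∃ i : Fin (N / 3), χ i ≠ 0 ∧ ∃ a : Fin 3, x = blk N i a)

/-- PAIRT: a pair of disjoint three-cycles with nonzero product of deviations gives an occurring
character with at least two nonzero values. -/
def S_PAIRT : Prop := ∀ (N : ℕ) (V : Type) [AddCommGroup V] [Module ℂ V]
  (ρ : A N →* Module.End ℂ V) (c₁ c₂ : A N) (u : V), c₁.1.IsThreeCycle → c₂.1.IsThreeCycle →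
    Equiv.Perm.Disjoint c₁.1 c₂.1 → dev ρ c₁ (dev ρ c₂ u) ≠ 0 →
    ∃ χ : Fin (N / 3) → ZMod 3, Occ ρ χ ∧ 2 ≤ (Finset.univ.filter fun i => χ i ≠ 0).card

/-- DIM: fixed vectors and lower bounds for the dimension. -/
def S_DIM : Prop := ∀ (N : ℕ) (V : Type) [AddCommGroup V] [Module ℂ V] [FiniteDimensional ℂ V]
  (ρ : A N →* Module.End ℂ V), Nontrivial V →
    ∃ w : ℕ, w ≤ N / 3 ∧ (∃ T : Finset (Fin N), T.card = 3 * w ∧ Fx ρ T ≠ ⊥) ∧
      2 ^ w ≤ 2 * Module.finrank ℂ V ∧ (N / 3).choose w ≤ Module.finrank ℂ V ∧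
      ((∃ (c₁ c₂ : A N) (u : V), c₁.1.IsThreeCycle ∧ c₂.1.IsThreeCycle ∧
        Equiv.Perm.Disjoint c₁.1 c₂.1 ∧ dev ρ c₁ (dev ρ c₂ u) ≠ 0) → 2 ≤ w)

/-- UNIV: on `Fx ρ (T0 N k)` the averaged action of `g` is a universal combination of the action
of the permutations of the first `k` points. -/
def S_UNIV : Prop := ∀ (N k : ℕ), 2 * k + 2 ≤ N → ∀ g : A N,
  ∃ (L : Equiv.Perm (Fin k) → A N) (c : Equiv.Perm (Fin k) → ℂ), (∀ σ, Lifts (L σ) σ) ∧
    ∀ (V : Type) [AddCommGroup V] [Module ℂ V] (ρ : A N →* Module.End ℂ V),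
      (∀ T : Finset (Fin N), T.card < k → Fx ρ T = ⊥) →
      ∀ u ∈ Fx ρ (T0 N k), prj ρ (T0 N k) (ρ g u) = ∑ σ, c σ • ρ (L σ) u

/-- PAIR: at level at least two there are two disjoint three-cycles with nonzero product of
deviations. -/
def S_PAIR : Prop := ∀ (N k : ℕ), 2 * k + 2 ≤ N → 2 ≤ k →
  ∀ (V : Type) [AddCommGroup V] [Module ℂ V] (ρ : A N →* Module.End ℂ V),
    (∀ T : Finset (Fin N), T.card < k → Fx ρ T = ⊥) →
    ∀ u ∈ Fx ρ (T0 N k), u ≠ 0 →
      ∃ c₁ c₂ : A N, c₁.1.IsThreeCycle ∧ c₂.1.IsThreeCycle ∧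
        Equiv.Perm.Disjoint c₁.1 c₂.1 ∧ dev ρ c₁ (dev ρ c₂ u) ≠ 0

/-- GRAPH1: the permutations of the first `k` points act on `Fx ρ (T0 N k)`. -/
def S_GRAPH1 : Prop := ∀ (N k : ℕ), 2 * k + 2 ≤ N →
  ∀ (V : Type) [AddCommGroup V] [Module ℂ V] (ρ : A N →* Module.End ℂ V), IrrE ρ → Lvl ρ k →
    ∃ τ : Equiv.Perm (Fin k) →* Module.End ℂ (Fx ρ (T0 N k)), IrrE τ ∧
      ∀ (g : A N) (σ : Equiv.Perm (Fin k)), Lifts g σ → ∀ u : Fx ρ (T0 N k),
        ((τ σ u : Fx ρ (T0 N k)) : V) = ρ g u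

/-- GRAPH2: the action of the permutations of the first `k` points on `Fx ρ (T0 N k)` determines
an irreducible representation of level `k`. -/
def S_GRAPH2 : Prop := ∀ (N k : ℕ), 2 * k + 2 ≤ N →
  ∀ (V W : Type) [AddCommGroup V] [Module ℂ V] [AddCommGroup W] [Module ℂ W]
    (ρ : A N →* Module.End ℂ V) (ρ' : A N →* Module.End ℂ W), IrrE ρ → IrrE ρ' →
    Lvl ρ k → Lvl ρ' k →
    (∃ e : Fx ρ (T0 N k) ≃ₗ[ℂ] Fx ρ' (T0 N k), ∀ (g : A N) (σ : Equiv.Perm (Fin k)), Lifts g σ →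
      ∀ u u₁ : Fx ρ (T0 N k), (u₁ : V) = ρ g u → ((e u₁ : Fx ρ' (T0 N k)) : W) = ρ' g (e u)) →
    IsoE ρ ρ'

/-- CONJ: the number of pairwise nonisomorphic irreducible representations is at most the
number of conjugacy classes. -/
def S_CONJ : Prop := ∀ (G : Type) [Group G] [Finite G] (J : Type) [Fintype J] (V : J → Type)
  [∀ j, AddCommGroup (V j)] [∀ j, Module ℂ (V j)] [∀ j, FiniteDimensional ℂ (V j)]
  (ρ : ∀ j, G →* Module.End ℂ (V j)), (∀ j, IrrE (ρ j)) →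
    (∀ i j, i ≠ j → ¬ IsoE (ρ i) (ρ j)) → Fintype.card J ≤ Nat.card (ConjClasses G)

/-- CONJN: few conjugacy classes in symmetric and alternating groups. -/
def S_CONJN : Prop := (∀ k : ℕ, Nat.card (ConjClasses (Equiv.Perm (Fin k))) ≤ 2 ^ k) ∧
  ∀ N : ℕ, Nat.card (ConjClasses (A N)) ≤ 2 ^ (N + 1)

/-- CNT: few representations of a given level. -/
def S_CNT : Prop := ∀ (N k : ℕ), 2 * k + 2 ≤ N → ∀ (J : Type) [Fintype J] (V : J → Type)
  [∀ j, AddCommGroup (V j)] [∀ j, Module ℂ (V j)] [∀ j, FiniteDimensional ℂ (V j)]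
  (ρ : ∀ j, A N →* Module.End ℂ (V j)), (∀ j, IrrE (ρ j)) → (∀ j, Lvl (ρ j) k) →
    (∀ i j, i ≠ j → ¬ IsoE (ρ i) (ρ j)) →
      Fintype.card J ≤ Nat.card (ConjClasses (Equiv.Perm (Fin k)))

/-- STD: the standard representation. -/
def S_STD : Prop := ∀ N : ℕ, 5 ≤ N → ∃ ρ : MRep (A N) (N - 1), Irred ρ ∧
  ∃ T : Finset (Fin N), T.card = 1 ∧ Fx (lin ρ) T ≠ ⊥

/-- NUM: numerical lower bound. -/
def S_NUM : Prop := ∃ n₀ : ℕ, ∀ N ≥ n₀, ∀ w m : ℕ, 2 ≤ w → w ≤ N / 3 →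
  (N / 3).choose w ≤ m → 2 ^ w ≤ 2 * m → N ^ 3 ≤ m ^ 2

/-- ALT: degrees of the irreducible representations of alternating groups. -/
def S_ALT : Prop := ∃ n₀ : ℕ, ∀ N ≥ n₀, ra (A N) 1 = 1 ∧ ra (A N) (N - 1) = 1 ∧
  (∀ m : ℕ, 1 < m → m ≠ N - 1 → m ^ 2 < N ^ 3 → ra (A N) m = 0) ∧
  ∀ m : ℕ, 2 ≤ m → ra (A N) m ≤ m ^ 15

/-- the degrees `d j` are the sizes of the blocks of the group algebra -/
def HasDeg (G : Type) [Group G] {ι : Type} (d : ι → ℕ) : Prop :=
  (∀ j, 0 < d j) ∧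
    Nonempty (MonoidAlgebra ℂ G ≃ₐ[ℂ] (∀ j : ι, Matrix (Fin (d j)) (Fin (d j)) ℂ))

/-- WED: existence of the blocks (Mathlib). -/
def S_WED : Prop := ∀ (G : Type) [Group G] [Finite G], ∃ (t : ℕ) (d : Fin t → ℕ), HasDeg G d

/-- BLK: the irreducible representations correspond to the blocks. -/
def S_BLK : Prop := ∀ (G : Type) [Group G] [Finite G] (ι : Type) [Fintype ι] (d : ι → ℕ),
  HasDeg G d → ∀ m : ℕ, Finite (AClass G m) ∧ ra G m = Nat.card {j : ι // d j = m}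

/-- TEN: blocks of a direct product. -/
def S_TEN : Prop := ∀ (G H : Type) [Group G] [Group H] [Finite G] [Finite H]
  (ι κ : Type) [Fintype ι] [Fintype κ] (d : ι → ℕ) (e : κ → ℕ), HasDeg G d → HasDeg H e →
    HasDeg (G × H) (fun p : ι × κ => d p.1 * e p.2)

/-- PRODT: degrees of the irreducible representations of a direct product. -/
def S_PRODT : Prop := ∀ (G H : Type) [Group G] [Group H] [Finite G] [Finite H] (m : ℕ), 0 < m →
  ra (G × H) m = ∑ p ∈ m.divisorsAntidiagonal, ra G p.1 * ra H p.2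

/-- TRIV: if the irreducible representations of degree at most `m` are trivial, then so are all
representations of degree `m`. -/
def S_TRIV : Prop := ∀ (G : Type) [Group G] [Finite G] (m : ℕ),
  (∀ k : ℕ, k ≤ m → ∀ ρ : MRep G k, Irred ρ → ∀ g, ρ g = 1) → ∀ (ρ : MRep G m) (g : G), ρ g = 1

/-- LIM: reduction of an infinite product to a finite subproduct. -/
def S_LIM : Prop := ∀ (ι : Type) (H : ι → Type) [∀ i, Group (H i)] [∀ i, Finite (H i)]
  [∀ i, TopologicalSpace (H i)] [∀ i, DiscreteTopology (H i)] (T : Finset ι) (m : ℕ),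
    (∀ i, i ∉ T → ∀ (ρ : MRep (H i) m) (g : H i), ρ g = 1) →
      Nonempty (CClass (∀ i, H i) m ≃ AClass (∀ i : T, H i) m)

/-- FAB: products of finite perfect groups are FAb. -/
def S_FAB : Prop := ∀ (ι : Type) (H : ι → Type) [∀ i, Group (H i)] [∀ i, Finite (H i)]
  [∀ i, TopologicalSpace (H i)] [∀ i, DiscreteTopology (H i)]
  [∀ i, IsTopologicalGroup (H i)], (∀ i, commutator (H i) = ⊤) → FAb (∀ i, H i)

/-- ARITH: existence of the multiplicities. -/
def S_ARITH : Prop := ∀ (f : ℕ → ArithmeticFunction ℕ) (σ n₀ : ℕ),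
  (∀ n ≥ n₀, f n 1 = 1 ∧ f n n = 1 ∧ (∀ m : ℕ, 1 < m → m ≠ n → m ^ 2 < n ^ 3 → f n m = 0) ∧
    ∀ m : ℕ, 2 ≤ m → f n m ≤ m ^ σ) →
  ∃ (K n₁ : ℕ) (a : ℕ → ℕ) (F z : ArithmeticFunction ℕ), Even K ∧ n₀ ≤ n₁ ∧ 2 ≤ n₁ ∧
    (∀ m : ℕ, F m = if n₁ ≤ m then m ^ K else 0) ∧ z = 1 + F * z ∧ (∀ n ≥ n₁, 0 < a n) ∧
    ∀ M m : ℕ, m ≤ M → (∏ n ∈ Finset.Icc n₁ M, f n ^ a n) m = z m

/-- ANA: the analytic continuation. -/
def S_ANA : Prop := ∀ (K n₁ : ℕ) (F z : ArithmeticFunction ℕ), Even K → 2 ≤ n₁ →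
  (∀ m : ℕ, F m = if n₁ ≤ m then m ^ K else 0) → z = 1 + F * z →
    (∀ s : ℂ, (K + 3 : ℝ) < s.re → LSeriesSummable (fun n => (z n : ℂ)) s) ∧
    ∃ Z : ℂ → ℂ, (∀ s : ℂ, MeromorphicAt Z s) ∧
      (∀ s : ℂ, (K + 3 : ℝ) < s.re → Z s = LSeries (fun n => (z n : ℂ)) s) ∧
      AnalyticAt ℂ Z (-2) ∧ Z (-2) ≠ 0

/-- FIN: the main theorem. -/
def S_FIN : Prop := ∃ (G : Type) (_ : Group G) (_ : TopologicalSpace G) (_ : IsTopologicalGroup G)
  (_ : CompactSpace G) (_ : T2Space G) (_ : TotallyDisconnectedSpace G),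
    Infinite G ∧ FAb G ∧ (∀ n : ℕ, Finite (CClass G n)) ∧
    ∃ α : ℝ, (∀ s : ℂ, α < s.re → LSeriesSummable (fun n => (rc G n : ℂ)) s) ∧
      ∃ Z : ℂ → ℂ, (∀ s : ℂ, MeromorphicAt Z s) ∧
        (∀ s : ℂ, α < s.re → Z s = LSeries (fun n => (rc G n : ℂ)) s) ∧
        AnalyticAt ℂ Z (-2) ∧ Z (-2) ≠ 0

end Pool.Agent.R639.FZ
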