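import Pool.Agent.R639.FZ.Defs

set_option linter.unusedVariables false
set_option linter.unusedSectionVars false

namespace Pool.Agent.R639.FZ.FX

open Equiv Equiv.Perm

section rep

variable {N : ℕ} {V : Type*} [AddCommGroup V] [Module ℂ V]

theorem om_prim : IsPrimitiveRoot om 3 := by
  have h := Complex.isPrimitiveRoot_exp 3 (by norm_num)
  simpa [om] using h

theorem om_cube : om ^ 3 = 1 := om_prim.pow_eq_one

theorem om_ne_one : om ≠ 1 := om_prim.ne_one (by norm_num)

theorem om_sum : 1 + om + om ^ 2 = 0 := by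
  have h1 : (om - 1) * (1 + om + om ^ 2) = 0 := by
    have := om_cube
    linear_combination this
  rcases mul_eq_zero.1 h1 with h | h
  · exact absurd (sub_eq_zero.1 h) om_ne_one
  · exact h

theorem om_pow_sum (a b : ZMod 3) (h : a ≠ b) :
    1 + om ^ ((-b).val) * om ^ (a.val) + om ^ ((-b).val * 2) * (om ^ (a.val)) ^ 2 = 0 := by
  have h3 := om_cube
  have hs := om_sum
  have h4 : om ^ 4 = om := by linear_combination om * h3
  have h6 : om ^ 6 = 1 := by linear_combination (om ^ 3 + 1) * h3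
  have h8 : om ^ 8 = om ^ 2 := by linear_combination om ^ 2 * h6
  fin_cases a <;> fin_cases b <;> first | exact absurd rfl h | skip
  all_goals
    simp only [ZMod.val]
  · show 1 + om ^ (2) * om ^ (0) + om ^ (2 * 2) * (om ^ (0)) ^ 2 = 0
    linear_combination hs + h4
  · show 1 + om ^ (1) * om ^ (0) + om ^ (1 * 2) * (om ^ (0)) ^ 2 = 0
    linear_combination hs
  · show 1 + om ^ (0) * om ^ (1) + om ^ (0 * 2) * (om ^ (1)) ^ 2 = 0
    linear_combination hs
  · show 1 + om ^ (1) * om ^ (1) + om ^ (1 * 2) * (om ^ (1)) ^ 2 = 0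
    linear_combination hs + h4
  · show 1 + om ^ (0) * om ^ (2) + om ^ (0 * 2) * (om ^ (2)) ^ 2 = 0
    linear_combination hs + h4
  · show 1 + om ^ (2) * om ^ (2) + om ^ (2 * 2) * (om ^ (2)) ^ 2 = 0
    linear_combination hs + h4 + h8

theorem rho_mul (ρ : A N →* Module.End ℂ V) (g h : A N) (v : V) : ρ (g * h) v = ρ g (ρ h v) := by
  rw [map_mul]; rfl

theorem avg_apply (ρ : A N →* Module.End ℂ V) (c : A N) (v : V) :
    avg ρ c v = (1 / 3 : ℂ) • (v + ρ c v + ρ (c * c) v) := by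
  simp [avg]

theorem dev_apply (ρ : A N →* Module.End ℂ V) (c : A N) (v : V) :
    dev ρ c v = v - avg ρ c v := by
  simp [dev]

theorem rho_avg (ρ : A N →* Module.End ℂ V) (c : A N) (hc : c * c * c = 1) (v : V) :
    ρ c (avg ρ c v) = avg ρ c v := by
  rw [avg_apply, map_smul, map_add, map_add, ← rho_mul, ← rho_mul, ← mul_assoc, hc, map_one]
  congr 1
  simp only [Module.End.one_apply]
  abel

theorem avg_avg (ρ : A N →* Module.End ℂ V) (c : A N) (hc : c * c * c = 1) (v : V) :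
    avg ρ c (avg ρ c v) = avg ρ c v := by
  have h1 := rho_avg ρ c hc v
  rw [avg_apply ρ c (avg ρ c v), rho_mul, h1, h1]
  module

theorem avg_dev (ρ : A N →* Module.End ℂ V) (c : A N) (hc : c * c * c = 1) (v : V) :
    avg ρ c (dev ρ c v) = 0 := by
  rw [dev_apply, map_sub, avg_avg ρ c hc, sub_self]

theorem pj_zero (ρ : A N →* Module.End ℂ V) (i : Fin (N / 3)) : pj ρ i 0 = avg ρ (cyc N i) := by
  simp [pj, avg]

theorem pj_kill (ρ : A N →* Module.End ℂ V) (i : Fin (N / 3)) (a b : ZMod 3) (h : a ≠ b) (v : V)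
    (hv : ρ (cyc N i) v = om ^ a.val • v) : pj ρ i b v = 0 := by
  have h2 : ρ (cyc N i * cyc N i) v = (om ^ a.val) ^ 2 • v := by
    rw [rho_mul, hv, map_smul, hv, smul_smul, pow_two]
  have h3 : pj ρ i b v = (1 / 3 : ℂ) •
      (v + om ^ ((-b).val) • ρ (cyc N i) v + om ^ ((-b).val * 2) • ρ (cyc N i * cyc N i) v) := by
    simp [pj]
  rw [h3, h2, hv, smul_smul, smul_smul]
  have h4 := om_pow_sum a b h
  have h5 : v + (om ^ (-b).val * om ^ a.val) • v + (om ^ ((-b).val * 2) * (om ^ a.val) ^ 2) • v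
      = (1 + om ^ ((-b).val) * om ^ (a.val) + om ^ ((-b).val * 2) * (om ^ (a.val)) ^ 2) • v := by
    rw [add_smul, add_smul, one_smul]
  rw [h5, h4, zero_smul, smul_zero]

theorem rho_avg_conj (ρ : A N →* Module.End ℂ V) (g c : A N) (v : V) :
    ρ g (avg ρ c v) = avg ρ (g * c * g⁻¹) (ρ g v) := by
  rw [avg_apply, avg_apply, map_smul, map_add, map_add, ← rho_mul, ← rho_mul, ← rho_mul, ← rho_mul]
  congr 3
  · group
  · group

theorem rho_dev_conj (ρ : A N →* Module.End ℂ V) (g c : A N) (v : V) :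
    ρ g (dev ρ c v) = dev ρ (g * c * g⁻¹) (ρ g v) := by
  rw [dev_apply, dev_apply, map_sub, rho_avg_conj]

theorem avg_inv (ρ : A N →* Module.End ℂ V) (c : A N) (hc : c * c * c = 1) :
    avg ρ c⁻¹ = avg ρ c := by
  have h1 : c⁻¹ = c * c := by
    rw [eq_comm, eq_inv_iff_mul_eq_one]; exact hc
  have h2 : c⁻¹ * c⁻¹ = c := by
    rw [h1]
    calc c * c * (c * c) = (c * c * c) * c := by simp only [mul_assoc]
      _ = c := by rw [hc, one_mul]
  unfold avg
  rw [h2, h1, add_right_comm]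

theorem dev_inv (ρ : A N →* Module.End ℂ V) (c : A N) (hc : c * c * c = 1) :
    dev ρ c⁻¹ = dev ρ c := by
  unfold dev
  rw [avg_inv ρ c hc]

/-- commuting elements -/
theorem rho_dev_comm (ρ : A N →* Module.End ℂ V) (g c : A N) (h : g * c = c * g) (v : V) :
    ρ g (dev ρ c v) = dev ρ c (ρ g v) := by
  rw [rho_dev_conj, h, mul_inv_cancel_right]

theorem dev_comm (ρ : A N →* Module.End ℂ V) (g c : A N) (h : g * c = c * g) (v : V) :
    avg ρ g (dev ρ c v) = dev ρ c (avg ρ g v) := by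
  rw [avg_apply, avg_apply, rho_mul, rho_mul, rho_dev_comm ρ g c h, rho_dev_comm ρ g c h, map_smul,
    map_add, map_add]

theorem fixed_of_dev (ρ : A N →* Module.End ℂ V) (c : A N) (hc : c * c * c = 1) (v : V)
    (h : dev ρ c v = 0) : ρ c v = v := by
  rw [dev_apply, sub_eq_zero] at h
  rw [h]
  rw [← h]
  conv_rhs => rw [h]
  conv_lhs => rw [h]
  exact rho_avg ρ c hc v

end rep

section perm

variable {N : ℕ}

theorem blk_val (i : Fin (N / 3)) (a : Fin 3) : (blk N i a).1 = 3 * i.1 + a.1 := rfl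

theorem blk_inj {i j : Fin (N / 3)} {a b : Fin 3} (h : blk N i a = blk N j b) : i = j ∧ a = b := by
  have h1 := congrArg Fin.val h
  rw [blk_val, blk_val] at h1
  have := a.2
  have := b.2
  refine ⟨Fin.ext ?_, Fin.ext ?_⟩ <;> omega

theorem cycP_of_ne (i : Fin (N / 3)) (x : Fin N) (h : ∀ a, x ≠ blk N i a) : cycP N i x = x := by
  rw [cycP, Perm.mul_apply, swap_apply_of_ne_of_ne (h 1) (h 2), swap_apply_of_ne_of_ne (h 0) (h 1)]

theorem blk_ne (i : Fin (N / 3)) (a b : Fin 3) (h : a ≠ b) : blk N i a ≠ blk N i b :=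
  fun e => h (blk_inj e).2

theorem cycP_three (i : Fin (N / 3)) : (cycP N i).IsThreeCycle := by
  have h : cycP N i = swap (blk N i 1) (blk N i 0) * swap (blk N i 1) (blk N i 2) := by
    rw [cycP, swap_comm (blk N i 0)]
  rw [h]
  exact isThreeCycle_swap_mul_swap_same (blk_ne i _ _ (by decide)) (blk_ne i _ _ (by decide))
    (blk_ne i _ _ (by decide))

theorem cycP_disj (i j : Fin (N / 3)) (h : i ≠ j) : Perm.Disjoint (cycP N i) (cycP N j) := by
  intro x
  by_cases hx : ∃ a, x = blk N i a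
  · obtain ⟨a, rfl⟩ := hx
    right
    exact cycP_of_ne j _ fun b e => h (blk_inj e).1
  · left
    exact cycP_of_ne i _ fun a e => hx ⟨a, e⟩

theorem three_cube (c : A N) (hc : c.1.IsThreeCycle) : c * c * c = 1 := by
  have h := hc.orderOf
  have h2 := pow_orderOf_eq_one c.1
  rw [h] at h2
  apply Subtype.ext
  show c.1 * c.1 * c.1 = 1
  rw [← h2, pow_succ, pow_succ, pow_one]

theorem cyc_cube (i : Fin (N / 3)) : cyc N i * cyc N i * cyc N i = 1 :=
  three_cube _ (cycP_three i)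

theorem cyc_comm (i j : Fin (N / 3)) : cyc N i * cyc N j = cyc N j * cyc N i := by
  by_cases h : i = j
  · rw [h]
  · exact Subtype.ext (cycP_disj i j h).commute.eq

/-- conjugation by the transposition inverts the three-cycle -/
theorem swap_cycP (i : Fin (N / 3)) :
    swap (blk N i 0) (blk N i 1) * cycP N i * (swap (blk N i 0) (blk N i 1))⁻¹ = (cycP N i)⁻¹ := by
  rw [cycP, mul_inv_rev, swap_inv, swap_inv, ← mul_assoc, swap_mul_self, one_mul]

end perm

end Pool.Agent.R639.FZ.FX
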