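import Pool.Agent.R639.FZ.Defs

namespace Pool.Agent.R639.FZ

open Matrix

namespace ALT

section Lin

variable {G : Type*} [Group G]

theorem irrE_lin {n : ℕ} {ρ : MRep G n} (h : Irred ρ) : IrrE (lin ρ) := by
  obtain ⟨h0, h1⟩ := h
  refine ⟨?_, fun W hW => h1 W fun g w hw => hW g w hw⟩
  have : Nonempty (Fin n) := ⟨⟨0, h0⟩⟩
  exact Function.nontrivial

theorem iso_of_isoE {n : ℕ} {ρ σ : MRep G n} (h : IsoE (lin ρ) (lin σ)) : Iso ρ σ := by
  obtain ⟨e, he⟩ := h
  set P : Matrix (Fin n) (Fin n) ℂ := LinearMap.toMatrix' e.toLinearMap with hP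
  set Q : Matrix (Fin n) (Fin n) ℂ := LinearMap.toMatrix' e.symm.toLinearMap with hQ
  have h1 : P * Q = 1 := by
    rw [hP, hQ, ← LinearMap.toMatrix'_comp]
    have : e.toLinearMap ∘ₗ e.symm.toLinearMap = LinearMap.id := by
      ext v; simp
    rw [this, LinearMap.toMatrix'_id]
  have h2 : Q * P = 1 := by
    rw [hP, hQ, ← LinearMap.toMatrix'_comp]
    have : e.symm.toLinearMap ∘ₗ e.toLinearMap = LinearMap.id := by
      ext v; simp
    rw [this, LinearMap.toMatrix'_id]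
  refine ⟨⟨P, Q, h1, h2⟩, fun g => ?_⟩
  have h3 : P * ρ g = σ g * P := by
    have h4 : e.toLinearMap ∘ₗ Matrix.toLin' (ρ g) = Matrix.toLin' (σ g) ∘ₗ e.toLinearMap := by
      refine LinearMap.ext fun v => ?_
      have := he g v
      rw [lin_apply, lin_apply] at this
      simpa [Matrix.toLin'_apply] using this
    have h5 := congrArg LinearMap.toMatrix' h4
    rw [LinearMap.toMatrix'_comp, LinearMap.toMatrix'_comp, LinearMap.toMatrix'_toLin',
      LinearMap.toMatrix'_toLin'] at h5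
    exact h5
  change σ g = P * ρ g * Q
  rw [h3, mul_assoc, h1, mul_one]

end Lin

section Lev

variable {N : ℕ} {V : Type} [AddCommGroup V] [Module ℂ V]

theorem exists_lvl {ρ : A N →* Module.End ℂ V} {T : Finset (Fin N)} (h : Fx ρ T ≠ ⊥) :
    ∃ k ≤ T.card, Lvl ρ k := by
  classical
  have hex : ∃ k, ∃ T : Finset (Fin N), T.card = k ∧ Fx ρ T ≠ ⊥ := ⟨_, T, rfl, h⟩
  refine ⟨Nat.find hex, Nat.find_min' hex ⟨T, rfl, h⟩, Nat.find_spec hex, ?_⟩
  intro T' hT'
  by_contra hne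
  exact Nat.find_min hex hT' ⟨T', rfl, hne⟩

theorem card_T0 {k : ℕ} (hk : k ≤ N) : (T0 N k).card = k := by
  have : T0 N k = Finset.univ.map (Fin.castLEEmb hk) := by
    ext x
    simp only [T0, Finset.mem_filter, Finset.mem_univ, true_and, Finset.mem_map,
      Fin.castLEEmb_apply]
    constructor
    · intro h
      exact ⟨⟨x.1, h⟩, by ext; simp⟩
    · rintro ⟨y, rfl⟩
      simp
  rw [this, Finset.card_map, Finset.card_univ, Fintype.card_fin]

/-- an even permutation mapping `S` onto `T` -/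
theorem exists_even {S T : Finset (Fin N)} (h : S.card = T.card) (h2 : S.card + 2 ≤ N) :
    ∃ g : A N, ∀ x, x ∈ S ↔ g.1 x ∈ T := by
  classical
  obtain ⟨e⟩ : Nonempty (S ≃ T) := ⟨Finset.equivOfCardEq h⟩
  obtain ⟨e', he'⟩ : ∃ e' : Equiv.Perm (Fin N), ∀ x : S, e' x = e x := by
    refine ⟨e.extendSubtype, fun x => ?_⟩
    exact Equiv.extendSubtype_apply_of_mem e x x.2
  have he'' : ∀ x, x ∈ S ↔ e' x ∈ T := by
    intro x
    constructor
    · intro hx
      rw [he' ⟨x, hx⟩]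
      exact (e ⟨x, hx⟩).2
    · intro hx
      have h3 : (e' ((e.symm ⟨e' x, hx⟩ : S) : Fin N)) = e' x := by
        rw [he' (e.symm ⟨e' x, hx⟩)]
        simp
      have h4 := e'.injective h3
      rw [← h4]
      exact (e.symm ⟨e' x, hx⟩).2
  have hc : 2 ≤ (Sᶜ).card := by
    rw [Finset.card_compl, Fintype.card_fin]; omega
  obtain ⟨a, ha, b, hb, hab⟩ := Finset.one_lt_card.1 (by omega : 1 < (Sᶜ).card)
  rcases Int.units_eq_one_or (Equiv.Perm.sign e') with hs | hs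
  · exact ⟨⟨e', by rw [Equiv.Perm.mem_alternatingGroup]; exact hs⟩, he''⟩
  · refine ⟨⟨e' * Equiv.swap a b, ?_⟩, fun x => ?_⟩
    · rw [Equiv.Perm.mem_alternatingGroup, map_mul, hs, Equiv.Perm.sign_swap hab]; rfl
    · rw [Finset.mem_compl] at ha hb
      change x ∈ S ↔ e' (Equiv.swap a b x) ∈ T
      rw [← he'']
      by_cases hxa : x = a
      · subst hxa
        rw [Equiv.swap_apply_left]
        exact ⟨fun h => absurd h ha, fun h => absurd h hb⟩
      · by_cases hxb : x = b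
        · subst hxb
          rw [Equiv.swap_apply_right]
          exact ⟨fun h => absurd h hb, fun h => absurd h ha⟩
        · rw [Equiv.swap_apply_of_ne_of_ne hxa hxb]

theorem Fx_move {ρ : A N →* Module.End ℂ V} {S T : Finset (Fin N)} {g : A N}
    (hg : ∀ x, x ∈ S ↔ g.1 x ∈ T) {v : V} (hv : v ∈ Fx ρ T) : ρ g⁻¹ v ∈ Fx ρ S := by
  intro h hh
  have h1 : ρ (g * h * g⁻¹) v = v := by
    refine hv _ fun i hi => ?_
    have h2 : g⁻¹.1 i ∈ S := by
      rw [hg]
      have : g.1 (g⁻¹.1 i) = i := by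
        change (g.1 * g.1⁻¹) i = i
        rw [mul_inv_cancel]; rfl
      rw [this]; exact hi
    have h3 : (g * h * g⁻¹ : A N).1 i = g.1 (h.1 (g⁻¹.1 i)) := rfl
    rw [h3, hh _ h2]
    change (g.1 * g.1⁻¹) i = i
    rw [mul_inv_cancel]; rfl
  have h4 : ρ h (ρ g⁻¹ v) = ρ g⁻¹ (ρ (g * h * g⁻¹) v) := by
    rw [← Module.End.mul_apply, ← Module.End.mul_apply, ← map_mul, ← map_mul]
    congr 2
    group
  rw [h4, h1]

theorem exists_T0 {ρ : A N →* Module.End ℂ V} {k : ℕ} (hk : k + 2 ≤ N) (h : Lvl ρ k) :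
    ∃ u ∈ Fx ρ (T0 N k), u ≠ 0 := by
  obtain ⟨⟨T, hT, hne⟩, -⟩ := h
  obtain ⟨v, hv, hv0⟩ := Submodule.exists_mem_ne_zero_of_ne_bot hne
  obtain ⟨g, hg⟩ := exists_even (S := T0 N k) (T := T) (by rw [card_T0 (by omega), hT])
    (by rw [card_T0 (by omega)]; omega)
  refine ⟨ρ g⁻¹ v, Fx_move hg hv, fun h0 => hv0 ?_⟩
  have : ρ g (ρ g⁻¹ v) = v := by
    rw [← Module.End.mul_apply, ← map_mul, mul_inv_cancel, map_one, Module.End.one_apply]
  rw [← this, h0, map_zero]

/-- level zero: trivial action and dimension one -/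
theorem lvl_zero {ρ : A N →* Module.End ℂ V} (hi : IrrE ρ) (h : Lvl ρ 0) :
    (∀ g v, ρ g v = v) ∧ Module.finrank ℂ V = 1 := by
  obtain ⟨⟨T, hT, hne⟩, -⟩ := h
  rw [Finset.card_eq_zero] at hT
  subst hT
  have h1 : Fx ρ ∅ = ⊤ := by
    refine (hi.2 (Fx ρ ∅) ?_).resolve_left hne
    intro g w hw
    rw [hw g (by simp)]
    exact hw
  have h2 : ∀ g v, ρ g v = v := fun g v => by
    have : v ∈ Fx ρ ∅ := by rw [h1]; trivial
    exact this g (by simp)
  refine ⟨h2, ?_⟩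
  have := hi.1
  obtain ⟨v, hv⟩ := exists_ne (0 : V)
  have h3 : Submodule.span ℂ {v} = ⊤ := by
    refine (hi.2 (Submodule.span ℂ {v}) fun g w hw => by rw [h2]; exact hw).resolve_left ?_
    exact fun h => hv (Submodule.span_singleton_eq_bot.1 h)
  rw [← finrank_top, ← h3]
  exact finrank_span_singleton hv

end Lev

section Main

/-- small dimension: level zero or one -/
theorem low (hDIM : S_DIM) (hPAIR : S_PAIR) {N : ℕ} (hN : 8 ≤ N)
    (hNUM : ∀ w m : ℕ, 2 ≤ w → w ≤ N / 3 →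
      (N / 3).choose w ≤ m → 2 ^ w ≤ 2 * m → N ^ 3 ≤ m ^ 2)
    {V : Type} [AddCommGroup V] [Module ℂ V] [FiniteDimensional ℂ V]
    {ρ : A N →* Module.End ℂ V} (hi : IrrE ρ) (hd : Module.finrank ℂ V ^ 2 < N ^ 3) :
    Lvl ρ 0 ∨ Lvl ρ 1 := by
  obtain ⟨w, hw, ⟨T, hT, hne⟩, h2, h3, h4⟩ := hDIM N V ρ hi.1
  by_cases hw2 : 2 ≤ w
  · exact absurd (hNUM w _ hw2 hw h3 h2) (by omega)
  obtain ⟨k, hk, hl⟩ := exists_lvl hne
  have hk3 : k ≤ 3 := by omega
  by_cases hk2 : 2 ≤ k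
  · obtain ⟨u, hu, hu0⟩ := exists_T0 (by omega) hl
    obtain ⟨c₁, c₂, h5, h6, h7, h8⟩ := hPAIR N k (by omega) hk2 V ρ hl.2 u hu hu0
    exact absurd (h4 ⟨c₁, c₂, u, h5, h6, h7, h8⟩) hw2
  · have : k = 0 ∨ k = 1 := by omega
    rcases this with rfl | rfl
    · exact Or.inl hl
    · exact Or.inr hl

theorem lvl_one_iso (hCNT : S_CNT) {N : ℕ} (hN : 8 ≤ N) {n m : ℕ}
    {ρ : MRep (A N) n} {σ : MRep (A N) m} (hρ : IrrE (lin ρ)) (hσ : IrrE (lin σ))
    (h1 : Lvl (lin ρ) 1) (h2 : Lvl (lin σ) 1) : IsoE (lin ρ) (lin σ) := by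
  by_contra hne
  have hne' : ¬ IsoE (lin σ) (lin ρ) := by
    rintro ⟨e, he⟩
    refine hne ⟨e.symm, fun g v => ?_⟩
    apply e.injective
    rw [he, e.apply_symm_apply, e.apply_symm_apply]
  have key : ∀ (d : Bool → ℕ) (R : ∀ b, MRep (A N) (d b)), (∀ b, IrrE (lin (R b))) →
      (∀ b, Lvl (lin (R b)) 1) → (∀ b c, b ≠ c → ¬ IsoE (lin (R b)) (lin (R c))) → False := by
    intro d R h3 h4 h5
    have h6 := hCNT N 1 (by omega) Bool (fun b => (Fin (d b) → ℂ)) (fun b => lin (R b)) h3 h4 h5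
    have h7 : Nat.card (ConjClasses (Equiv.Perm (Fin 1))) ≤ 1 := by
      have : Subsingleton (ConjClasses (Equiv.Perm (Fin 1))) := by
        constructor
        intro a b
        obtain ⟨a, rfl⟩ := ConjClasses.exists_rep a
        obtain ⟨b, rfl⟩ := ConjClasses.exists_rep b
        rw [Subsingleton.elim a b]
      exact Finite.card_le_one_iff_subsingleton.2 this
    rw [Fintype.card_bool] at h6
    omega
  refine key (fun b => match b with | true => n | false => m)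
    (fun b => match b with | true => ρ | false => σ) ?_ ?_ ?_
  · rintro (_ | _)
    · exact hσ
    · exact hρ
  · rintro (_ | _)
    · exact h2
    · exact h1
  · rintro (_ | _) (_ | _) h
    · exact absurd rfl h
    · exact hne'
    · exact hne
    · exact absurd rfl h

theorem finrank_lin {N n : ℕ} (_ρ : MRep (A N) n) :
    Module.finrank ℂ (Fin n → ℂ) = n := by simp

/-- the degree is determined by the isomorphism class -/
theorem deg_eq {G : Type} [Group G] {n m : ℕ} {ρ : MRep G n} {σ : MRep G m}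
    (h : IsoE (lin ρ) (lin σ)) : n = m := by
  obtain ⟨e, -⟩ := h
  have := e.finrank_eq
  simpa using this

/-- a trivial action of degree one -/
theorem triv_of {n : ℕ} {G : Type} [Group G] {ρ : MRep G n} (h : ∀ g v, lin ρ g v = v) (g : G) :
    ρ g = 1 := by
  apply Matrix.toLin'.injective
  refine LinearMap.ext fun v => ?_
  have := h g v
  rw [lin_apply] at this
  rw [Matrix.toLin'_apply, this, Matrix.toLin'_one, LinearMap.id_apply]

theorem irred_one {G : Type} [Group G] (ρ : MRep G 1) : Irred ρ := by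
  refine ⟨one_pos, fun W _ => ?_⟩
  by_cases h : W = ⊥
  · exact Or.inl h
  · right
    obtain ⟨v, hv, hv0⟩ := Submodule.exists_mem_ne_zero_of_ne_bot h
    rw [eq_top_iff]
    intro x _
    have h0 : v 0 ≠ 0 := by
      intro h1
      apply hv0
      ext i
      rw [Subsingleton.elim i 0, h1]; rfl
    have : x = (x 0 / v 0) • v := by
      ext i
      rw [Subsingleton.elim i 0, Pi.smul_apply, smul_eq_mul, div_mul_cancel₀ _ h0]
    rw [this]
    exact W.smul_mem _ hv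

theorem isEmpty_class {G : Type} [Group G] {n : ℕ} (h : ∀ ρ : MRep G n, Irred ρ → False) :
    ra G n = 0 := by
  have : IsEmpty (AClass G n) := by
    constructor
    intro q
    obtain ⟨ρ, rfl⟩ := Quotient.exists_rep q
    exact h ρ.1 ρ.2
  exact Nat.card_of_isEmpty

theorem unique_class {G : Type} [Group G] {n : ℕ} (h0 : ∃ ρ : MRep G n, Irred ρ)
    (h : ∀ ρ σ : MRep G n, Irred ρ → Irred σ → Iso ρ σ) :
    ra G n = 1 := by
  obtain ⟨ρ₀, hρ₀⟩ := h0
  have : Subsingleton (AClass G n) := by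
    constructor
    intro q q'
    obtain ⟨ρ, rfl⟩ := Quotient.exists_rep q
    obtain ⟨σ, rfl⟩ := Quotient.exists_rep q'
    exact Quotient.sound (h ρ.1 σ.1 ρ.2 σ.2)
  have h2 : Nonempty (AClass G n) := ⟨Quotient.mk _ ⟨ρ₀, hρ₀⟩⟩
  exact Nat.card_eq_one_iff_unique.2 ⟨this, h2⟩

theorem bound (hDIM : S_DIM) (hCNT : S_CNT) (hCONJ : S_CONJ) (hCONJN : S_CONJN)
    (hWED : S_WED) (hBLK : S_BLK) (N m : ℕ) (hm : 2 ≤ m) : ra (A N) m ≤ m ^ 15 := by
  classical
  obtain ⟨t, d, hd⟩ := hWED (A N)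
  obtain ⟨hfin, -⟩ := hBLK (A N) (Fin t) d hd m
  let _ : Fintype (AClass (A N) m) := Fintype.ofFinite _
  let ρ : AClass (A N) m → MRep (A N) m := fun j => (Quotient.out j).1
  have hirr : ∀ j, IrrE (lin (ρ j)) := fun j => irrE_lin (Quotient.out j).2
  have hne : ∀ i j, i ≠ j → ¬ IsoE (lin (ρ i)) (lin (ρ j)) := by
    intro i j hij h
    apply hij
    rw [← Quotient.out_eq i, ← Quotient.out_eq j]
    exact Quotient.sound (iso_of_isoE h)
  set W := Nat.log 2 (2 * m) with hW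
  have hWm : 2 ^ W ≤ 2 * m := Nat.pow_log_le_self 2 (by omega)
  have hlev : ∀ j, ∃ k ≤ 3 * W, Lvl (lin (ρ j)) k := by
    intro j
    obtain ⟨w, hw, ⟨T, hT, hneT⟩, h2, h3, h4⟩ := hDIM N (Fin m → ℂ) (lin (ρ j)) (hirr j).1
    obtain ⟨k, hk, hl⟩ := exists_lvl hneT
    rw [Module.finrank_fin_fun] at h2
    have hwW : w ≤ W := Nat.le_log_of_pow_le (by norm_num) h2
    exact ⟨k, by omega, hl⟩
  choose k hk hl using hlev
  have hra : ra (A N) m = Fintype.card (AClass (A N) m) := Nat.card_eq_fintype_card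
  rw [hra]
  by_cases hc : 6 * W + 2 ≤ N
  · have h1 : Fintype.card (AClass (A N) m) = ∑ b ∈ Finset.range (3 * W + 1),
        (Finset.univ.filter fun j => k j = b).card := by
      rw [← Finset.card_univ]
      exact Finset.card_eq_sum_card_fiberwise fun j _ => by
        simp only [Finset.coe_range, Set.mem_Iio]
        have := hk j
        omega
    have h2 : ∀ b ∈ Finset.range (3 * W + 1),
        (Finset.univ.filter fun j => k j = b).card ≤ 2 ^ b := by
      intro b hb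
      rw [Finset.mem_range] at hb
      have h3 := hCNT N b (by omega) {j // k j = b} (fun _ => (Fin m → ℂ))
        (fun j => lin (ρ j.1)) (fun j => hirr j.1) (fun j => by
          have := hl j.1
          rwa [j.2] at this) (fun i j hij => hne i.1 j.1 fun h => hij (Subtype.ext h))
      rw [Fintype.card_subtype] at h3
      exact h3.trans (hCONJN.1 b)
    have h3 : Fintype.card (AClass (A N) m) ≤ 2 ^ (3 * W + 1) := by
      rw [h1]
      refine (Finset.sum_le_sum h2).trans ?_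
      have := Nat.geomSum_lt (m := 2) (n := 3 * W + 1) (s := Finset.range (3 * W + 1)) le_rfl
        (fun x hx => Finset.mem_range.1 hx)
      exact this.le
    have h4 : 2 ^ (3 * W + 1) = 2 * (2 ^ W) ^ 3 := by ring
    have h5 : (2 ^ W) ^ 3 ≤ (2 * m) ^ 3 := Nat.pow_le_pow_left hWm 3
    have h6 : 2 ^ 12 ≤ m ^ 12 := Nat.pow_le_pow_left hm 12
    have h7 : m ^ 15 = m ^ 12 * m ^ 3 := by ring
    have h8 : (2 * m) ^ 3 = 8 * m ^ 3 := by ring
    rw [h7]
    nlinarith [Nat.zero_le (m ^ 3), Nat.mul_le_mul_right (m ^ 3) h6]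
  · have h1 := (hCONJ (A N) (AClass (A N) m) (fun _ => (Fin m → ℂ)) (fun j => lin (ρ j)) hirr
      hne).trans (hCONJN.2 N)
    have h2 : 2 ^ (N + 1) ≤ 2 ^ (6 * W + 2) := Nat.pow_le_pow_right (by norm_num) (by omega)
    have h4 : 2 ^ (6 * W + 2) = 4 * (2 ^ W) ^ 6 := by ring
    have h5 : (2 ^ W) ^ 6 ≤ (2 * m) ^ 6 := Nat.pow_le_pow_left hWm 6
    have h6 : 2 ^ 9 ≤ m ^ 9 := Nat.pow_le_pow_left hm 9
    have h7 : m ^ 15 = m ^ 9 * m ^ 6 := by ring
    have h8 : (2 * m) ^ 6 = 64 * m ^ 6 := by ring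
    rw [h7]
    nlinarith [Nat.zero_le (m ^ 6), Nat.mul_le_mul_right (m ^ 6) h6]

end Main

end ALT

open ALT in
theorem t_ALT (hDIM : S_DIM) (hPAIR : S_PAIR) (hCNT : S_CNT) (hCONJ : S_CONJ)
    (hCONJN : S_CONJN) (hSTD : S_STD) (hNUM : S_NUM) (hWED : S_WED) (hBLK : S_BLK) : S_ALT := by
  obtain ⟨n₀, hn₀⟩ := hNUM
  refine ⟨max n₀ 9, fun N hN => ?_⟩
  have hN9 : 9 ≤ N := le_trans (le_max_right _ _) hN
  have hNn : n₀ ≤ N := le_trans (le_max_left _ _) hN
  have hlow : ∀ (m : ℕ) (ρ : MRep (A N) m), Irred ρ → m ^ 2 < N ^ 3 →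
      Lvl (lin ρ) 0 ∨ Lvl (lin ρ) 1 := by
    intro m ρ hρ hm
    exact low hDIM hPAIR (by omega) (hn₀ N hNn) (irrE_lin hρ) (by
      rw [Module.finrank_fin_fun]; exact hm)
  have hN1 : (N - 1) ^ 2 < N ^ 3 := by
    have h1 : (N - 1) ^ 2 ≤ N ^ 2 := Nat.pow_le_pow_left (by omega) 2
    have h2 : N ^ 2 < N ^ 3 := Nat.pow_lt_pow_right (by omega) (by norm_num)
    omega
  obtain ⟨st, hst, -⟩ := hSTD N (by omega)
  have hst1 : Lvl (lin st) 1 := by
    rcases hlow _ st hst hN1 with h | h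
    · have := (lvl_zero (irrE_lin hst) h).2
      rw [Module.finrank_fin_fun] at this
      omega
    · exact h
  have hdich : ∀ (m : ℕ) (ρ : MRep (A N) m), Irred ρ → m ^ 2 < N ^ 3 →
      (m = 1 ∧ ∀ g, ρ g = 1) ∨ (m = N - 1 ∧ Lvl (lin ρ) 1) := by
    intro m ρ hρ hm
    rcases hlow m ρ hρ hm with h | h
    · obtain ⟨h1, h2⟩ := lvl_zero (irrE_lin hρ) h
      rw [Module.finrank_fin_fun] at h2
      exact Or.inl ⟨h2, fun g => triv_of h1 g⟩
    · exact Or.inr ⟨deg_eq (lvl_one_iso hCNT (by omega) (irrE_lin hρ) (irrE_lin hst) h hst1), h⟩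
  refine ⟨?_, ?_, ?_, fun m hm => bound hDIM hCNT hCONJ hCONJN hWED hBLK N m hm⟩
  · refine unique_class ⟨1, irred_one _⟩ fun ρ σ hρ hσ => ?_
    have h1 : 1 ^ 2 < N ^ 3 := by
      have := Nat.one_lt_pow (n := 3) (by norm_num) (show 1 < N by omega)
      simpa using this
    rcases hdich 1 ρ hρ h1 with h | h
    · rcases hdich 1 σ hσ h1 with h' | h'
      · exact ⟨1, fun g => by rw [h.2 g, h'.2 g]; simp⟩
      · omega
    · omega
  · refine unique_class ⟨st, hst⟩ fun ρ σ hρ hσ => ?_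
    rcases hdich _ ρ hρ hN1 with h | h
    · omega
    · rcases hdich _ σ hσ hN1 with h' | h'
      · omega
      · exact iso_of_isoE (lvl_one_iso hCNT (by omega) (irrE_lin hρ) (irrE_lin hσ) h.2 h'.2)
  · intro m hm hm' hm2
    refine isEmpty_class fun ρ hρ => ?_
    rcases hdich m ρ hρ hm2 with h | h
    · omega
    · exact hm' h.1

end Pool.Agent.R639.FZ
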