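import Pool.Agent.R860.FZ.Zle

/-! # Project FZ, piece ANA: the analytic continuation -/

set_option autoImplicit false

namespace Pool.Agent.R639.FZ

namespace ANA

open ArithmeticFunction Filter Topology
open Pool.Agent.R860.FZ

theorem analytic_zeta {s : ℂ} (h : s ≠ 1) : AnalyticAt ℂ riemannZeta s :=
  DifferentiableOn.analyticAt (s := {1}ᶜ)
    (fun _ hz => (differentiableAt_riemannZeta hz).differentiableWithinAt)
    (isOpen_compl_singleton.mem_nhds h)

theorem mero_zeta (s : ℂ) : MeromorphicAt riemannZeta s := by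
  by_cases h : s = 1
  · subst h
    set g : ℂ → ℂ := Function.update (fun s => (s - 1) * riemannZeta s) 1 1 with hgd
    have hg : AnalyticAt ℂ g 1 := by
      apply Complex.analyticAt_of_differentiable_on_punctured_nhds_of_continuousAt
      · filter_upwards [self_mem_nhdsWithin] with z hz
        have e : g =ᶠ[𝓝 z] fun s => (s - 1) * riemannZeta s := by
          filter_upwards [isOpen_ne.mem_nhds hz] with w hw
          exact Function.update_of_ne hw _ _
        have d : DifferentiableAt ℂ (fun s => (s - 1) * riemannZeta s) z :=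
          DifferentiableAt.mul (by fun_prop) (differentiableAt_riemannZeta hz)
        exact d.congr_of_eventuallyEq e
      · exact continuousAt_update_same.2 riemannZeta_residue_one
    have h1 : MeromorphicAt (fun z => g z / (z - 1)) 1 :=
      hg.meromorphicAt.div (AnalyticAt.meromorphicAt (by fun_prop))
    refine h1.congr ?_
    filter_upwards [self_mem_nhdsWithin] with z hz
    have hz' : z - 1 ≠ 0 := sub_ne_zero.2 hz
    have e : g z = (z - 1) * riemannZeta z := Function.update_of_ne hz _ _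
    rw [e]
    field_simp
  · exact (analytic_zeta h).meromorphicAt

/-- the finite sum -/
noncomputable def fs (K n₁ : ℕ) (s : ℂ) : ℂ := ∑ m ∈ Finset.Ico 1 n₁, (m : ℂ) ^ ((K : ℂ) - s)

theorem fs_analytic (K n₁ : ℕ) (s : ℂ) : AnalyticAt ℂ (fs K n₁) s := by
  have h : Differentiable ℂ (fs K n₁) := by
    unfold fs
    refine Differentiable.fun_sum fun m hm => ?_
    have hm0 : (m : ℂ) ≠ 0 := by
      rw [Finset.mem_Ico] at hm
      have : m ≠ 0 := by omega
      exact_mod_cast this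
    intro s
    exact DifferentiableAt.const_cpow (by fun_prop) (Or.inl hm0)
  exact h.analyticAt s

/-- the denominator -/
noncomputable def Dn (K n₁ : ℕ) (s : ℂ) : ℂ := 1 - riemannZeta (s - K) + fs K n₁ s

theorem Dn_mero (K n₁ : ℕ) (s : ℂ) : MeromorphicAt (Dn K n₁) s := by
  have h1 : MeromorphicAt (fun s : ℂ => riemannZeta (s - K)) s :=
    (mero_zeta (s - K)).comp_analyticAt (g := fun s : ℂ => s - K) (by fun_prop)
  have h2 : MeromorphicAt (fs K n₁) s := (fs_analytic K n₁ s).meromorphicAt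
  have h3 : MeromorphicAt (fun _ : ℂ => (1 : ℂ)) s := MeromorphicAt.const _ _
  exact (h3.sub h1).add h2

theorem Dn_neg_two {K n₁ : ℕ} (hK : Even K) : Dn K n₁ (-2) ≠ 0 := by
  obtain ⟨r, hr⟩ := hK
  have h1 : riemannZeta (-2 - K) = 0 := by
    have := riemannZeta_neg_two_mul_nat_add_one r
    rw [← this]
    congr 1
    rw [hr]
    push_cast
    ring
  have h2 : fs K n₁ (-2) = ((∑ m ∈ Finset.Ico 1 n₁, m ^ (K + 2) : ℕ) : ℂ) := by
    unfold fs
    push_cast
    refine Finset.sum_congr rfl fun m _ => ?_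
    rw [sub_neg_eq_add, ← Complex.cpow_natCast]
    push_cast
    rfl
  unfold Dn
  rw [h1, h2, sub_zero]
  have : ((1 + ∑ m ∈ Finset.Ico 1 n₁, m ^ (K + 2) : ℕ) : ℂ) ≠ 0 := by
    have : (1 + ∑ m ∈ Finset.Ico 1 n₁, m ^ (K + 2) : ℕ) ≠ 0 := by positivity
    exact_mod_cast this
  push_cast at this ⊢
  exact this

theorem Dn_analytic (K n₁ : ℕ) : AnalyticAt ℂ (Dn K n₁) (-2) := by
  have h0 : (-2 : ℂ) - K ≠ 1 := by
    intro h
    have := congrArg Complex.re h
    simp at this
    have h2 : (0 : ℝ) ≤ K := Nat.cast_nonneg K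
    linarith
  have h1 : AnalyticAt ℂ (fun s : ℂ => riemannZeta (s - K)) (-2) :=
    (analytic_zeta h0).comp' (f := fun s : ℂ => s - K) (by fun_prop)
  exact ((analyticAt_const (v := (1 : ℂ))).sub h1).add (fs_analytic K n₁ _)

theorem sF {K n₁ : ℕ} {F : ArithmeticFunction ℕ}
    (hF : ∀ m : ℕ, F m = if n₁ ≤ m then m ^ K else 0) {s : ℂ} (hs : (K + 1 : ℝ) < s.re) :
    LSeriesSummable (fun n => (F n : ℂ)) s := by
  refine LSeriesSummable_of_le_const_mul_rpow hs ⟨1, fun n hn0 => ?_⟩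
  have e : (K : ℝ) + 1 - 1 = ((K : ℕ) : ℝ) := by ring
  rw [Complex.norm_natCast, one_mul, e, Real.rpow_natCast]
  exact_mod_cast F_le hF n

theorem sz {K n₁ : ℕ} (hn : 2 ≤ n₁) {F z : ArithmeticFunction ℕ}
    (hF : ∀ m : ℕ, F m = if n₁ ≤ m then m ^ K else 0) (hz : z = 1 + F * z)
    {s : ℂ} (hs : (K + 3 : ℝ) < s.re) : LSeriesSummable (fun n => (z n : ℂ)) s := by
  refine LSeriesSummable_of_le_const_mul_rpow hs ⟨1, fun n hn0 => ?_⟩
  have e : (K : ℝ) + 3 - 1 = ((K + 2 : ℕ) : ℝ) := by push_cast; ring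
  rw [Complex.norm_natCast, one_mul, e, Real.rpow_natCast]
  exact_mod_cast zle hn hF hz n (Nat.pos_of_ne_zero hn0)

theorem LF {K n₁ : ℕ} {F : ArithmeticFunction ℕ}
    (hF : ∀ m : ℕ, F m = if n₁ ≤ m then m ^ K else 0) {s : ℂ} (hs : (K + 1 : ℝ) < s.re) :
    LSeries (fun n => (F n : ℂ)) s = riemannZeta (s - K) - fs K n₁ s := by
  have hs' : 1 < (s - K).re := by
    simp only [Complex.sub_re, Complex.natCast_re]
    linarith
  have hs0 : s - K ≠ 0 := by
    intro h
    rw [h] at hs'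
    simp at hs'
    linarith
  have h1 : HasSum (LSeries.term 1 (s - K)) (riemannZeta (s - K)) := LSeriesHasSum_one hs'
  have h2 : HasSum (fun n : ℕ => if n ∈ Finset.Ico 1 n₁ then (n : ℂ) ^ ((K : ℂ) - s) else 0)
      (fs K n₁ s) := by
    have h3 : HasSum (fun n : ℕ => if n ∈ Finset.Ico 1 n₁ then (n : ℂ) ^ ((K : ℂ) - s) else 0)
        (∑ b ∈ Finset.Ico 1 n₁, (if b ∈ Finset.Ico 1 n₁ then (b : ℂ) ^ ((K : ℂ) - s) else 0)) :=
      hasSum_sum_of_ne_finset_zero (fun b hb => if_neg hb)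
    have e : ∑ b ∈ Finset.Ico 1 n₁, (if b ∈ Finset.Ico 1 n₁ then (b : ℂ) ^ ((K : ℂ) - s) else 0)
        = fs K n₁ s := Finset.sum_congr rfl fun b hb => if_pos hb
    rwa [e] at h3
  have h4 := h1.sub h2
  rw [LSeries]
  refine (HasSum.tsum_eq (h4.congr_fun ?_))
  intro n
  rcases Nat.eq_zero_or_pos n with h0 | h0
  · subst h0
    simp
  have hn0 : (n : ℂ) ≠ 0 := by
    have : n ≠ 0 := h0.ne'
    exact_mod_cast this
  rw [LSeries.term_of_ne_zero h0.ne', LSeries.term_of_ne_zero h0.ne', hF]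
  have e1 : (n : ℂ) ^ ((K : ℂ) - s) = (n : ℂ) ^ K / (n : ℂ) ^ s := by
    rw [Complex.cpow_sub _ _ hn0, Complex.cpow_natCast]
  have e2 : (1 : ℂ) / (n : ℂ) ^ (s - K) = (n : ℂ) ^ K / (n : ℂ) ^ s := by
    rw [← e1, one_div, ← Complex.cpow_neg, neg_sub]
  by_cases h : n₁ ≤ n
  · rw [if_pos h, if_neg (by rw [Finset.mem_Ico]; omega), sub_zero, Pi.one_apply, e2]
    push_cast
    rfl
  · rw [if_neg h, if_pos (by rw [Finset.mem_Ico]; omega), Pi.one_apply, e1, e2]
    simp

theorem Lz {K n₁ : ℕ} (hn : 2 ≤ n₁) {F z : ArithmeticFunction ℕ}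
    (hF : ∀ m : ℕ, F m = if n₁ ≤ m then m ^ K else 0) (hz : z = 1 + F * z)
    {s : ℂ} (hs : (K + 3 : ℝ) < s.re) :
    LSeries (fun n => (z n : ℂ)) s
      = 1 + LSeries (fun n => (F n : ℂ)) s * LSeries (fun n => (z n : ℂ)) s := by
  have s1 : LSeriesSummable (fun n => (z n : ℂ)) s := sz hn hF hz hs
  have s2 : LSeriesSummable (fun n => (F n : ℂ)) s := sF hF (by linarith)
  have h1 : LSeries (fun n => ((F : ArithmeticFunction ℂ) * (z : ArithmeticFunction ℂ)) n) s
      = LSeries (fun n => (F n : ℂ)) s * LSeries (fun n => (z n : ℂ)) s :=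
    LSeries_mul' (f := (F : ArithmeticFunction ℂ)) (g := (z : ArithmeticFunction ℂ)) s2 s1
  have s3 : LSeriesSummable (fun n => ((F : ArithmeticFunction ℂ) * (z : ArithmeticFunction ℂ)) n)
      s := LSeriesSummable_mul (f := (F : ArithmeticFunction ℂ)) (g := (z : ArithmeticFunction ℂ))
        s2 s1
  have s4 : LSeriesSummable LSeries.delta s := by
    rw [LSeriesSummable]
    refine (summable_of_ne_finset_zero (s := {1}) fun n hn => ?_)
    rw [LSeries.term_delta, if_neg (by simpa using hn)]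
  have e : (fun n => (z n : ℂ)) = LSeries.delta
      + (fun n => ((F : ArithmeticFunction ℂ) * (z : ArithmeticFunction ℂ)) n) := by
    funext n
    rw [Pi.add_apply, ← natCoe_mul, natCoe_apply]
    conv_lhs => rw [hz]
    rw [ArithmeticFunction.add_apply, one_apply, LSeries.delta]
    push_cast
    split_ifs <;> rfl
  conv_lhs => rw [e]
  rw [LSeries_add s4 s3, LSeries_delta, h1]
  rfl

end ANA

theorem t_ANA : S_ANA := by
  intro K n₁ F z hK hn hF hz
  refine ⟨fun s hs => ANA.sz hn hF hz hs, fun s => (ANA.Dn K n₁ s)⁻¹,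
    fun s => (ANA.Dn_mero K n₁ s).inv, fun s hs => ?_,
    (ANA.Dn_analytic K n₁).inv (ANA.Dn_neg_two hK), inv_ne_zero (ANA.Dn_neg_two hK)⟩
  have h1 := ANA.Lz hn hF hz hs
  have h2 := ANA.LF hF (s := s) (by linarith)
  rw [h2] at h1
  symm
  refine eq_inv_of_mul_eq_one_left ?_
  unfold ANA.Dn
  linear_combination h1

end Pool.Agent.R639.FZ
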