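import Pool.Agent.R860.FZ.Zle

/-! # Project FZ, piece ARITH: existence of the multiplicities

The logarithm in the proof is replaced by the number `Ω` of prime factors: `g ↦ g Ω` is a
derivation of the ring of arithmetic functions with values in `ℤ`.
-/

set_option autoImplicit false

namespace Pool.Agent.R639.FZ

namespace ARITH

open Finset
open ArithmeticFunction (cardFactors cardFactors_mul cardFactors_one cardFactors_pos_iff_one_lt
  mul_apply one_apply one_apply_ne natCoe_apply natCoe_one natCoe_mul)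
open Pool.Agent.R860.FZ

abbrev AZ := ArithmeticFunction ℤ
abbrev AN := ArithmeticFunction ℕ

/-! ### recursion -/

/-- solution of `h = G + Φ * h` -/
noncomputable def fx (G Φ : ℕ → ℕ) (n : ℕ) : ℕ :=
  G n + ∑ p ∈ n.divisorsAntidiagonal, if h : p.2 < n then Φ p.1 * fx G Φ p.2 else 0
termination_by n
decreasing_by exact h

theorem fx_zero (G Φ : AN) : fx G Φ 0 = 0 := by
  rw [fx]
  simp

theorem fx_ex (G : AN) {Φ : AN} (h1 : Φ 1 = 0) : ∃ z : AN, z = G + Φ * z := by
  refine ⟨⟨fx G Φ, fx_zero G Φ⟩, ?_⟩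
  ext n
  rw [ArithmeticFunction.add_apply, mul_apply]
  show fx G Φ n = G n + ∑ p ∈ n.divisorsAntidiagonal, Φ p.1 * fx G Φ p.2
  conv_lhs => rw [fx]
  congr 1
  refine sum_congr rfl fun p hp => ?_
  obtain ⟨hpn, hn0⟩ := Nat.mem_divisorsAntidiagonal.1 hp
  split_ifs with h
  · rfl
  · have h2 : p.1 = 1 := by
      have h3 : p.1 ≠ 0 := by
        intro h0
        rw [h0, zero_mul] at hpn
        exact hn0 hpn.symm
      by_contra hne
      have : 2 ≤ p.1 := by omega
      have h4 : n ≤ p.2 := not_lt.1 h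
      have : 2 * n ≤ n := by
        calc 2 * n ≤ p.1 * p.2 := Nat.mul_le_mul this h4
          _ = n := hpn
      omega
    rw [h2, h1, zero_mul]

/-! ### the cast -/

/-- the cast -/
def cst : AN →+* AZ where
  toFun f := (f : AZ)
  map_one' := natCoe_one
  map_mul' _ _ := natCoe_mul
  map_zero' := by ext; simp
  map_add' _ _ := by ext; simp

theorem cst_apply (f : AN) (m : ℕ) : cst f m = (f m : ℤ) := rfl

/-! ### the derivation -/

/-- multiplication by the number of prime factors -/
def D (g : AZ) : AZ := ⟨fun m => g m * (cardFactors m : ℤ), by simp⟩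

theorem D_apply (g : AZ) (m : ℕ) : D g m = g m * (cardFactors m : ℤ) := rfl

theorem mem_anti {m : ℕ} {p : ℕ × ℕ} (hp : p ∈ m.divisorsAntidiagonal) :
    p.1 * p.2 = m ∧ m ≠ 0 ∧ p.1 ≠ 0 ∧ p.2 ≠ 0 ∧ p.1 ≤ m ∧ p.2 ≤ m := by
  obtain ⟨h, h0⟩ := Nat.mem_divisorsAntidiagonal.1 hp
  have h1 : p.1 ≠ 0 := by
    intro e
    rw [e, zero_mul] at h
    exact h0 h.symm
  have h2 : p.2 ≠ 0 := by
    intro e
    rw [e, mul_zero] at h
    exact h0 h.symm
  refine ⟨h, h0, h1, h2, ?_, ?_⟩
  · rw [← h]
    exact Nat.le_mul_of_pos_right _ (Nat.pos_of_ne_zero h2)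
  · rw [← h]
    exact Nat.le_mul_of_pos_left _ (Nat.pos_of_ne_zero h1)

theorem D_mul (g h : AZ) : D (g * h) = D g * h + g * D h := by
  ext m
  rw [ArithmeticFunction.add_apply, D_apply, mul_apply, mul_apply, mul_apply, sum_mul,
    ← sum_add_distrib]
  refine sum_congr rfl fun p hp => ?_
  obtain ⟨hpm, _, h1, h2, _⟩ := mem_anti hp
  rw [D_apply, D_apply, ← hpm, cardFactors_mul h1 h2]
  push_cast
  ring

theorem D_sub (g h : AZ) : D (g - h) = D g - D h := by
  rw [sub_eq_add_neg, sub_eq_add_neg]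
  ext m
  rw [ArithmeticFunction.add_apply, ArithmeticFunction.neg_apply, D_apply,
    ArithmeticFunction.add_apply, ArithmeticFunction.neg_apply, D_apply, D_apply]
  ring

/-- logarithmic derivative -/
def LD (g l : AZ) : Prop := l * g = D g

theorem LD_one : LD 1 0 := by
  unfold LD
  rw [zero_mul]
  ext m
  rw [D_apply, one_apply]
  split_ifs with h
  · subst h
    rw [cardFactors_one]
    rfl
  · rw [zero_mul]
    rfl

theorem LD_mul {g h l k : AZ} (h1 : LD g l) (h2 : LD h k) : LD (g * h) (l + k) := by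
  unfold LD at *
  rw [D_mul, ← h1, ← h2]
  ring

theorem LD_pow {g l : AZ} (h : LD g l) (a : ℕ) : LD (g ^ a) (a • l) := by
  induction a with
  | zero => rw [pow_zero, zero_smul]; exact LD_one
  | succ a ih => rw [pow_succ, succ_nsmul]; exact LD_mul ih h

theorem LD_prod (s : Finset ℕ) (g l : ℕ → AZ) (h : ∀ i ∈ s, LD (g i) (l i)) :
    LD (∏ i ∈ s, g i) (∑ i ∈ s, l i) := by
  classical
  induction s using Finset.induction_on with
  | empty => rw [prod_empty, sum_empty]; exact LD_one
  | insert i s hi ih =>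
    rw [prod_insert hi, sum_insert hi]
    exact LD_mul (h i (mem_insert_self _ _)) (ih fun j hj => h j (mem_insert_of_mem hj))

theorem LD_exists {g : AZ} (h : g 1 = 1) : ∃ l, LD g l := by
  have hu : IsUnit g := ArithmeticFunction.isUnit_iff_isUnit_apply_one.2 (by rw [h]; exact isUnit_one)
  obtain ⟨u, rfl⟩ := hu
  exact ⟨D u * ((u⁻¹ : AZˣ) : AZ), by unfold LD; rw [mul_assoc, Units.inv_mul, mul_one]⟩

/-! ### vanishing below `n` -/

/-- vanishing below `n` -/
def V (n : ℕ) (g : AZ) : Prop := ∀ m, m < n → g m = 0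

theorem V_mul {n : ℕ} {g : AZ} (hg : V n g) (h : AZ) : V n (g * h) := by
  intro m hm
  rw [mul_apply]
  refine sum_eq_zero fun p hp => ?_
  obtain ⟨_, _, _, _, h5, _⟩ := mem_anti hp
  rw [hg p.1 (by omega), zero_mul]

theorem V_at {n : ℕ} (hn : n ≠ 0) {g : AZ} (hg : V n g) (h : AZ) : (g * h) n = g n * h 1 := by
  rw [mul_apply, sum_eq_single (n, 1)]
  · intro p hp hne
    obtain ⟨h1, _, _, _, h5, _⟩ := mem_anti hp
    have : p.1 < n := by
      refine lt_of_le_of_ne h5 fun e => hne ?_
      rw [e] at h1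
      have h2 : p.2 = 1 := Nat.eq_of_mul_eq_mul_left (Nat.pos_of_ne_zero hn) (by rw [h1, mul_one])
      exact Prod.ext e h2
    rw [hg p.1 this, zero_mul]
  · intro h'
    exact absurd (Nat.mem_divisorsAntidiagonal.2 ⟨mul_one n, hn⟩) h'

theorem LD_at_one {g l : AZ} (h : LD g l) (h1 : g 1 = 1) : l 1 = 0 := by
  have e := congrArg (fun q : AZ => q 1) h
  simp only [D_apply, cardFactors_one] at e
  rw [ArithmeticFunction.mul_apply_one, h1] at e
  simpa using e

theorem key {n : ℕ} (hn : 2 ≤ n) {P z lP lz : AZ} (hP : LD P lP) (hz : LD z lz) (hz1 : z 1 = 1)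
    (hV : V n (z - P)) : (z n - P n) * (cardFactors n : ℤ) = lz n - lP n := by
  have sub_ap : ∀ (g h : AZ) (m : ℕ), (g - h) m = g m - h m := by
    intro g h m
    rw [sub_eq_add_neg, ArithmeticFunction.add_apply, ArithmeticFunction.neg_apply]
    ring
  have h1 : D (z - P) = (lz - lP) * z + (z - P) * lP := by
    rw [D_sub]
    unfold LD at hP hz
    rw [← hP, ← hz]
    ring
  have hP1 : P 1 = 1 := by
    have := hV 1 (by omega)
    rw [sub_ap, hz1] at this
    linarith
  have lP1 := LD_at_one hP hP1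
  have hμz : V n ((lz - lP) * z) := by
    intro m hm
    have e := congrArg (fun q : AZ => q m) h1
    simp only [ArithmeticFunction.add_apply] at e
    rw [V_mul hV lP m hm, D_apply, hV m hm, zero_mul, add_zero] at e
    exact e.symm
  have hu : IsUnit z := ArithmeticFunction.isUnit_iff_isUnit_apply_one.2
    (by rw [hz1]; exact isUnit_one)
  obtain ⟨u, hu⟩ := hu
  have hμ : V n (lz - lP) := by
    have e : lz - lP = ((lz - lP) * z) * ((u⁻¹ : AZˣ) : AZ) := by
      rw [← hu, mul_assoc, Units.mul_inv, mul_one]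
    rw [e]
    exact V_mul hμz _
  have e := congrArg (fun q : AZ => q n) h1
  simp only [ArithmeticFunction.add_apply] at e
  rw [V_at (by omega) hV, V_at (by omega) hμ, lP1, hz1, D_apply, mul_one, mul_zero, add_zero,
    sub_ap, sub_ap] at e
  exact e

/-! ### bounds for the logarithmic derivative -/

theorem Om_le {m : ℕ} (hm : 1 ≤ m) : cardFactors m ≤ m := by
  induction m using Nat.strong_induction_on with
  | _ m ih =>
    rcases eq_or_lt_of_le hm with h | h
    · subst h
      rw [cardFactors_one]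
      exact Nat.zero_le _
    · have hp := Nat.minFac_prime h.ne'
      obtain ⟨c, hc⟩ := Nat.minFac_dvd m
      have hc0 : c ≠ 0 := by
        intro e
        rw [e, mul_zero] at hc
        omega
      have h2 := hp.two_le
      have h3 : c < m := by
        have : 2 * c ≤ m.minFac * c := Nat.mul_le_mul_right _ h2
        omega
      have h4 := ih c h3 (by omega)
      have h5 : cardFactors m = 1 + cardFactors c := by
        conv_lhs => rw [hc]
        rw [cardFactors_mul hp.ne_zero hc0, ArithmeticFunction.cardFactors_apply_prime hp]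
      rw [h5]
      omega

theorem l_rec {f l : AZ} (h1 : f 1 = 1) (h : LD f l) {m : ℕ} (hm : m ≠ 0) :
    l m = f m * (cardFactors m : ℤ)
      - ∑ p ∈ m.divisorsAntidiagonal with 2 ≤ p.2, l p.1 * f p.2 := by
  have e := congrArg (fun q : AZ => q m) h
  simp only [D_apply, mul_apply] at e
  rw [← sum_filter_add_sum_filter_not m.divisorsAntidiagonal (fun p => 2 ≤ p.2)] at e
  have e2 : m.divisorsAntidiagonal.filter (fun p => ¬ 2 ≤ p.2) = {(m, 1)} := by
    ext p
    rw [mem_filter, mem_singleton]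
    constructor
    · rintro ⟨hp, h2⟩
      obtain ⟨h3, _, _, h6, _⟩ := mem_anti hp
      have h7 : p.2 = 1 := by omega
      rw [h7, mul_one] at h3
      exact Prod.ext h3 h7
    · rintro rfl
      exact ⟨Nat.mem_divisorsAntidiagonal.2 ⟨mul_one m, hm⟩, by norm_num⟩
  rw [e2, sum_singleton] at e
  simp only [h1, mul_one] at e
  linarith

theorem l_bd {f : AN} {l : AZ} {σ : ℕ} (h1 : f 1 = 1) (hf : ∀ m : ℕ, 2 ≤ m → f m ≤ m ^ σ)
    (h : LD (cst f) l) (m : ℕ) (hm : 1 ≤ m) : |l m| ≤ (m : ℤ) ^ (σ + 3) := by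
  induction m using Nat.strong_induction_on with
  | _ m ih =>
    have hc1 : (cst f) 1 = 1 := by rw [cst_apply, h1]; rfl
    rcases eq_or_lt_of_le hm with h2 | h2
    · subst h2
      rw [LD_at_one h hc1]
      simp
    · have hr := l_rec hc1 h (m := m) (by omega)
      have hR : (|l m| : ℝ) ≤ (m : ℝ) ^ (σ + 3) := by
        have hr' : (l m : ℝ) = (f m : ℝ) * (cardFactors m : ℝ)
            - ∑ p ∈ m.divisorsAntidiagonal with 2 ≤ p.2, (l p.1 : ℝ) * (f p.2 : ℝ) := by
          rw [hr]
          push_cast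
          rfl
        have t1 : |(f m : ℝ) * (cardFactors m : ℝ)| ≤ (m : ℝ) ^ σ * m := by
          rw [abs_of_nonneg (by positivity)]
          have a1 : (f m : ℝ) ≤ (m : ℝ) ^ σ := by exact_mod_cast hf m h2
          have a2 : (cardFactors m : ℝ) ≤ m := by exact_mod_cast Om_le hm
          exact mul_le_mul a1 a2 (by positivity) (by positivity)
        have t2 : |∑ p ∈ m.divisorsAntidiagonal with 2 ≤ p.2, (l p.1 : ℝ) * (f p.2 : ℝ)|
            ≤ (m : ℝ) ^ (σ + 3) * (1 / 2) := by
          calc |∑ p ∈ m.divisorsAntidiagonal with 2 ≤ p.2, (l p.1 : ℝ) * (f p.2 : ℝ)|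
              ≤ ∑ p ∈ m.divisorsAntidiagonal with 2 ≤ p.2, |(l p.1 : ℝ) * (f p.2 : ℝ)| :=
                abs_sum_le_sum_abs _ _
            _ ≤ ∑ p ∈ m.divisorsAntidiagonal with 2 ≤ p.2,
                (m : ℝ) ^ (σ + 3) * (1 / 2) * (((p.2 : ℕ) : ℝ) ^ 2)⁻¹ := by
                refine sum_le_sum fun p hp => ?_
                rw [mem_filter] at hp
                obtain ⟨hp, h2'⟩ := hp
                obtain ⟨h3, _, h5, h6, _⟩ := mem_anti hp
                have h7 : p.1 < m := by
                  have : p.1 * 2 ≤ p.1 * p.2 := Nat.mul_le_mul_left _ h2'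
                  omega
                have b1 : |(l p.1 : ℝ)| ≤ (p.1 : ℝ) ^ (σ + 3) := by
                  exact_mod_cast ih p.1 h7 (by omega)
                have b2 : (f p.2 : ℝ) ≤ (p.2 : ℝ) ^ σ := by exact_mod_cast hf p.2 h2'
                have b3 : (0 : ℝ) < p.2 := by
                  have : 0 < p.2 := by omega
                  exact_mod_cast this
                have b4 : (2 : ℝ) ≤ p.2 := by exact_mod_cast h2'
                rw [abs_mul, abs_of_nonneg (by positivity : (0 : ℝ) ≤ (f p.2 : ℝ))]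
                refine (mul_le_mul b1 b2 (by positivity) (by positivity)).trans ?_
                rw [← h3]
                push_cast
                rw [mul_pow, pow_add (p.2 : ℝ) σ 3]
                have e : (p.1 : ℝ) ^ (σ + 3) * ((p.2 : ℝ) ^ σ * (p.2 : ℝ) ^ 3) * (1 / 2)
                    * ((p.2 : ℝ) ^ 2)⁻¹
                    = (p.1 : ℝ) ^ (σ + 3) * (p.2 : ℝ) ^ σ * ((p.2 : ℝ) / 2) := by
                  field_simp
                rw [e]
                refine le_mul_of_one_le_right (by positivity) ?_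
                linarith
            _ ≤ (m : ℝ) ^ (σ + 3) * (1 / 2) := by
                rw [← mul_sum]
                have e : ∑ p ∈ m.divisorsAntidiagonal with 2 ≤ p.2, (((p.2 : ℕ) : ℝ) ^ 2)⁻¹
                    = ∑ d ∈ m.divisors with 2 ≤ d, (((d : ℕ) : ℝ) ^ 2)⁻¹ := by
                  rw [sum_filter, sum_filter]
                  exact Nat.sum_divisorsAntidiagonal'
                    (f := fun _ a => if 2 ≤ a then (((a : ℕ) : ℝ) ^ 2)⁻¹ else 0)
                rw [e]
                exact mul_le_of_le_one_right (by positivity) (div_sum m)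
        have hm2 : (2 : ℝ) ≤ m := by exact_mod_cast h2
        have t3 : (m : ℝ) ^ σ * m ≤ (m : ℝ) ^ (σ + 3) * (1 / 2) := by
          rw [pow_add]
          have : (m : ℝ) ^ σ * (m : ℝ) ^ 3 * (1 / 2)
              = (m : ℝ) ^ σ * (m * ((m : ℝ) * m / 2)) := by ring
          rw [this]
          refine mul_le_mul_of_nonneg_left ?_ (by positivity)
          refine le_mul_of_one_le_right (by positivity) ?_
          nlinarith
        rw [hr']
        refine (abs_sub _ _).trans ?_
        linarith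
      exact_mod_cast hR

theorem l_supp {f : AN} {l : AZ} {d : ℕ} (h1 : f 1 = 1)
    (hf : ∀ m : ℕ, 1 < m → m ≠ d → m ^ 2 < d ^ 3 → f m = 0)
    (h : LD (cst f) l) (m : ℕ) (hm : 1 ≤ m) (hmd : m ≠ d) (hd : m ^ 2 < d ^ 3) : l m = 0 := by
  induction m using Nat.strong_induction_on with
  | _ m ih =>
    have hc1 : (cst f) 1 = 1 := by rw [cst_apply, h1]; rfl
    rcases eq_or_lt_of_le hm with h2 | h2
    · subst h2
      exact LD_at_one h hc1
    · rw [l_rec hc1 h (m := m) (by omega), cst_apply, hf m h2 hmd hd]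
      rw [sum_eq_zero]
      · simp
      · intro p hp
        rw [mem_filter] at hp
        obtain ⟨hp, h2'⟩ := hp
        obtain ⟨h3, _, h5, h6, h8, h9⟩ := mem_anti hp
        have h7 : p.1 < m := by
          have : p.1 * 2 ≤ p.1 * p.2 := Nat.mul_le_mul_left _ h2'
          omega
        by_cases e : p.2 = d
        · rw [ih p.1 h7 (by omega) ?_ ?_, zero_mul]
          · intro e2
            rw [e, e2] at h3
            have h10 : m ^ 2 = d ^ 3 * d := by rw [← h3]; ring
            have h11 : 1 ≤ d := by omega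
            have : d ^ 3 * 1 ≤ d ^ 3 * d := Nat.mul_le_mul_left _ h11
            omega
          · exact lt_of_le_of_lt (Nat.pow_le_pow_left h8 2) hd
        · rw [cst_apply, hf p.2 (by omega) e (lt_of_le_of_lt (Nat.pow_le_pow_left h9 2) hd)]
          simp

/-! ### powers of `1 + φ` -/

theorem pow_V {n : ℕ} (hn : 2 ≤ n) {g : AZ} (hg : V n (g - 1)) (hgn : g n = 1) (a : ℕ) :
    V n (g ^ a - 1) ∧ (g ^ a - 1) n = a := by
  have e1 : (g - 1) n = 1 := by
    rw [sub_eq_add_neg, ArithmeticFunction.add_apply, ArithmeticFunction.neg_apply, hgn,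
      one_apply_ne (by omega)]
    norm_num
  have e2 : g 1 = 1 := by
    have := hg 1 (by omega)
    rw [sub_eq_add_neg, ArithmeticFunction.add_apply, ArithmeticFunction.neg_apply, one_apply,
      if_pos rfl] at this
    linarith
  induction a with
  | zero =>
    rw [pow_zero, sub_self]
    exact ⟨fun m _ => rfl, rfl⟩
  | succ a ih =>
    obtain ⟨i1, i2⟩ := ih
    have e : g ^ (a + 1) - 1 = (g ^ a - 1) * g + (g - 1) := by ring
    rw [e]
    constructor
    · intro m hm
      rw [ArithmeticFunction.add_apply, V_mul i1 g m hm, hg m hm, add_zero]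
    · rw [ArithmeticFunction.add_apply, V_at (by omega) i1, i2, e1, e2]
      push_cast
      ring

/-! ### the products -/

/-- the partial products -/
noncomputable def Pr (f : ℕ → AN) (z : AN) (n₁ : ℕ) : ℕ → AN
  | 0 => 1
  | n + 1 => if n₁ ≤ n then Pr f z n₁ n * f n ^ (z n - Pr f z n₁ n n) else 1

theorem Pr_small (f : ℕ → AN) (z : AN) {n₁ n : ℕ} (h : n ≤ n₁) : Pr f z n₁ n = 1 := by
  cases n with
  | zero => rfl
  | succ n => rw [Pr, if_neg (by omega)]

theorem Pr_succ (f : ℕ → AN) (z : AN) {n₁ n : ℕ} (h : n₁ ≤ n) :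
    Pr f z n₁ (n + 1) = Pr f z n₁ n * f n ^ (z n - Pr f z n₁ n n) := by
  rw [Pr, if_pos h]

theorem Pr_prod (f : ℕ → AN) (z : AN) (n₁ n : ℕ) :
    Pr f z n₁ n = ∏ d ∈ Ico n₁ n, f d ^ (z d - Pr f z n₁ d d) := by
  induction n with
  | zero => rw [Pr_small f z (Nat.zero_le _), Ico_eq_empty (by omega), prod_empty]
  | succ n ih =>
    by_cases h : n₁ ≤ n
    · rw [Pr_succ f z h, prod_Ico_succ_top h, ← ih]
    · rw [Pr_small f z (by omega), Ico_eq_empty (by omega), prod_empty]

theorem z_rec {F z : AN} (hz : z = 1 + F * z) (m : ℕ) :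
    z m = (1 : AN) m + ∑ p ∈ m.divisorsAntidiagonal, F p.1 * z p.2 := by
  conv_lhs => rw [hz]
  rw [ArithmeticFunction.add_apply, mul_apply]

theorem z_small {K n₁ : ℕ} {F z : AN} (hF : ∀ m : ℕ, F m = if n₁ ≤ m then m ^ K else 0)
    (hz : z = 1 + F * z) {m : ℕ} (hm : m < n₁) : z m = (1 : AN) m := by
  rw [z_rec hz, sum_eq_zero, add_zero]
  intro p hp
  obtain ⟨_, _, _, _, h8, _⟩ := mem_anti hp
  rw [hF, if_neg (by omega), zero_mul]

theorem sum_ap (s : Finset ℕ) (g : ℕ → AZ) (n : ℕ) : (∑ i ∈ s, g i) n = ∑ i ∈ s, g i n := by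
  classical
  induction s using Finset.induction_on with
  | empty => rfl
  | insert i s hi ih => rw [sum_insert hi, sum_insert hi, ArithmeticFunction.add_apply, ih]

theorem smul_ap (a : ℕ) (g : AZ) (n : ℕ) : (a • g) n = a * g n := by
  induction a with
  | zero => rw [zero_smul]; simp
  | succ a ih =>
    rw [succ_nsmul, ArithmeticFunction.add_apply, ih]
    push_cast
    ring

/-- the main inequality -/
theorem main_ineq {f : ℕ → AN} {σ n₁ k : ℕ} (hk : σ + 6 < k) (hn₁ : 2 ≤ n₁)
    (hf : ∀ n ≥ n₁, f n 1 = 1 ∧ f n n = 1 ∧ (∀ m : ℕ, 1 < m → m ≠ n → m ^ 2 < n ^ 3 → f n m = 0) ∧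
      ∀ m : ℕ, 2 ≤ m → f n m ≤ m ^ σ)
    {F z : AN} (hF : ∀ m : ℕ, F m = if n₁ ≤ m then m ^ (3 * k - 2) else 0) (hz : z = 1 + F * z)
    {n : ℕ} (hn : n₁ ≤ n) (hP : ∀ m < n, Pr f z n₁ n m = z m) : Pr f z n₁ n n < z n := by
  have hz1 : z 1 = 1 := by
    rw [z_small hF hz (by omega)]
    rfl
  have hzc : cst z = 1 + cst F * cst z := by
    conv_lhs => rw [hz]
    rw [map_add, map_one, map_mul]
  -- the logarithmic derivative of `z`
  have hlz : LD (cst z) (D (cst F) * cst z) := by
    unfold LD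
    have h1 : D (cst z) = D (cst F) * cst z + cst F * D (cst z) := by
      have e : cst F * cst z = cst z - 1 := by
        conv_rhs => rw [hzc]
        ring
      have e2 : D (1 : AZ) = 0 := by
        have := LD_one
        unfold LD at this
        rw [← this, zero_mul]
      rw [← D_mul, e, D_sub, e2, sub_zero]
    have h2 : (1 - cst F) * cst z = 1 := by
      have : (1 - cst F) * cst z = cst z - cst F * cst z := by ring
      rw [this]
      conv_lhs => rw [hzc]
      have e : cst F * cst z = cst z - 1 := by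
        conv_rhs => rw [hzc]
        ring
      rw [← hzc, e]
      ring
    have h3 : D (cst F) * cst z = D (cst z) - cst F * D (cst z) := by
      linear_combination -h1
    calc D (cst F) * cst z * cst z = (D (cst z) - cst F * D (cst z)) * cst z := by rw [h3]
      _ = ((1 - cst F) * cst z) * D (cst z) := by ring
      _ = D (cst z) := by rw [h2, one_mul]
  -- the logarithmic derivatives of the factors
  have hex : ∀ d, ∃ l : AZ, n₁ ≤ d → LD (cst (f d)) l := by
    intro d
    by_cases hd : n₁ ≤ d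
    · obtain ⟨l, hl⟩ := LD_exists (g := cst (f d)) (by rw [cst_apply, (hf d hd).1]; rfl)
      exact ⟨l, fun _ => hl⟩
    · exact ⟨0, fun h => absurd h hd⟩
  choose l hl using hex
  set a : ℕ → ℕ := fun d => z d - Pr f z n₁ d d with ha
  have hlP : LD (cst (Pr f z n₁ n)) (∑ d ∈ Ico n₁ n, a d • l d) := by
    rw [Pr_prod, map_prod]
    refine LD_prod _ _ _ fun d hd => ?_
    rw [map_pow]
    exact LD_pow (hl d (mem_Ico.1 hd).1) _
  have hV : V n (cst z - cst (Pr f z n₁ n)) := by
    intro m hm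
    rw [sub_eq_add_neg, ArithmeticFunction.add_apply, ArithmeticFunction.neg_apply, cst_apply, cst_apply, hP m hm]
    ring
  have hkey := key (n := n) (by omega) hlP hlz (by rw [cst_apply, hz1]; rfl) hV
  have hΩ : 0 < cardFactors n := cardFactors_pos_iff_one_lt.2 (by omega)
  -- the lower bound
  have hlow : (n : ℤ) ^ (3 * k - 2) ≤ (D (cst F) * cst z) n := by
    rw [mul_apply]
    have hmem : (n, 1) ∈ n.divisorsAntidiagonal :=
      Nat.mem_divisorsAntidiagonal.2 ⟨mul_one n, by omega⟩
    have h1 := single_le_sum (f := fun p : ℕ × ℕ => D (cst F) p.1 * cst z p.2) (fun p _ => by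
      show 0 ≤ D (cst F) p.1 * cst z p.2
      rw [D_apply, cst_apply, cst_apply]
      positivity) hmem
    refine le_trans ?_ h1
    show (n : ℤ) ^ (3 * k - 2) ≤ D (cst F) n * cst z 1
    rw [D_apply, cst_apply, cst_apply, hz1, hF, if_pos hn]
    push_cast
    rw [mul_one]
    refine le_mul_of_one_le_right (by positivity) ?_
    exact_mod_cast hΩ
  -- the upper bound
  have hup : (∑ d ∈ Ico n₁ n, a d • l d) n ≤ (n : ℤ) ^ (2 * k + σ + 4) := by
    rw [sum_ap]
    have hterm : ∀ d ∈ Ico n₁ n, (a d • l d) n ≤ (n : ℤ) ^ (2 * k + σ + 3) := by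
      intro d hd
      rw [mem_Ico] at hd
      obtain ⟨f1, f2, f3, f4⟩ := hf d hd.1
      rw [smul_ap]
      by_cases hdn : d ^ 3 ≤ n ^ 2
      · have b1 : (a d : ℤ) ≤ (n : ℤ) ^ (2 * k) := by
          have c1 : a d ≤ z d := Nat.sub_le _ _
          have c2 := zle hn₁ hF hz d (by omega)
          have c3 : d ^ (3 * k - 2 + 2) ≤ n ^ (2 * k) := by
            have : 3 * k - 2 + 2 = 3 * k := by omega
            rw [this, pow_mul, pow_mul]
            exact Nat.pow_le_pow_left hdn k
          exact_mod_cast (c1.trans c2).trans c3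
        have b2 := l_bd f1 f4 (hl d hd.1) n (by omega)
        calc (a d : ℤ) * l d n ≤ (a d : ℤ) * |l d n| :=
              mul_le_mul_of_nonneg_left (le_abs_self _) (by positivity)
          _ ≤ (n : ℤ) ^ (2 * k) * (n : ℤ) ^ (σ + 3) :=
              mul_le_mul b1 b2 (abs_nonneg _) (by positivity)
          _ = (n : ℤ) ^ (2 * k + σ + 3) := by rw [← pow_add]; congr 1
      · rw [l_supp f1 f3 (hl d hd.1) n (by omega) (by omega) (by omega), mul_zero]
        positivity
    refine (sum_le_card_nsmul _ _ _ hterm).trans ?_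
    rw [Nat.card_Ico, nsmul_eq_mul, pow_succ (n : ℤ) (2 * k + σ + 3), mul_comm]
    refine mul_le_mul_of_nonneg_left ?_ (by positivity)
    exact_mod_cast Nat.sub_le n n₁
  have hlt : (n : ℤ) ^ (2 * k + σ + 4) < (n : ℤ) ^ (3 * k - 2) := by
    refine pow_lt_pow_right₀ ?_ (by omega)
    have : 1 < n := by omega
    exact_mod_cast this
  have hpos : 0 < (cst z n - cst (Pr f z n₁ n) n) * (cardFactors n : ℤ) := by
    rw [hkey]
    linarith
  have hΩ' : (0 : ℤ) < (cardFactors n : ℤ) := by exact_mod_cast hΩ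
  have h2 : 0 < cst z n - cst (Pr f z n₁ n) n := pos_of_mul_pos_left hpos hΩ'.le
  rw [cst_apply, cst_apply] at h2
  omega

/-- agreement -/
theorem agree {f : ℕ → AN} {σ n₁ k : ℕ} (hk : σ + 6 < k) (hn₁ : 2 ≤ n₁)
    (hf : ∀ n ≥ n₁, f n 1 = 1 ∧ f n n = 1 ∧ (∀ m : ℕ, 1 < m → m ≠ n → m ^ 2 < n ^ 3 → f n m = 0) ∧
      ∀ m : ℕ, 2 ≤ m → f n m ≤ m ^ σ)
    {F z : AN} (hF : ∀ m : ℕ, F m = if n₁ ≤ m then m ^ (3 * k - 2) else 0) (hz : z = 1 + F * z)
    (n : ℕ) : ∀ m < n, Pr f z n₁ n m = z m := by
  induction n with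
  | zero => intro m hm; omega
  | succ n ih =>
    intro m hm
    by_cases hn : n₁ ≤ n
    · have hlt := main_ineq hk hn₁ hf hF hz hn ih
      obtain ⟨f1, f2, f3, f4⟩ := hf n hn
      set a := z n - Pr f z n₁ n n with ha
      have hV : V n (cst (f n) - 1) := by
        intro j hj
        rw [sub_eq_add_neg, ArithmeticFunction.add_apply, ArithmeticFunction.neg_apply, cst_apply]
        rcases Nat.lt_trichotomy j 1 with h | h | h
        · have : j = 0 := by omega
          subst this
          simp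
        · subst h
          rw [f1]
          simp
        · rw [f3 j h (by omega) ?_, one_apply_ne h.ne']
          · simp
          · calc j ^ 2 < n ^ 2 := Nat.pow_lt_pow_left hj (by norm_num)
              _ ≤ n ^ 3 := Nat.pow_le_pow_right (by omega) (by norm_num)
      obtain ⟨p1, p2⟩ := pow_V (n := n) (by omega) hV (by rw [cst_apply, f2]; rfl) a
      have e : cst (Pr f z n₁ (n + 1)) = cst (Pr f z n₁ n)
          + (cst (f n) ^ a - 1) * cst (Pr f z n₁ n) := by
        rw [Pr_succ f z hn, map_mul, map_pow]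
        ring
      have e2 := congrArg (fun q : AZ => q m) e
      simp only [ArithmeticFunction.add_apply] at e2
      have goal : cst (Pr f z n₁ (n + 1)) m = cst z m := by
        rw [e2]
        rcases eq_or_ne m n with h | h
        · subst h
          rw [V_at (by omega) p1, p2]
          have h1 : Pr f z n₁ m 1 = 1 := by
            rw [ih 1 (by omega), z_small hF hz (by omega)]
            rfl
          rw [cst_apply, cst_apply, cst_apply, h1]
          push_cast
          omega
        · rw [V_mul p1 _ m (by omega), add_zero, cst_apply, cst_apply, ih m (by omega)]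
      rw [cst_apply, cst_apply] at goal
      exact_mod_cast goal
    · rw [Pr_small f z (by omega), z_small hF hz (by omega)]

end ARITH

open ARITH in
theorem t_ARITH : S_ARITH := by
  intro f σ n₀ hf
  set n₁ := max n₀ 2 with hn₁
  set k := 2 * σ + 8 with hk
  have h2 : 2 ≤ n₁ := le_max_right _ _
  have h0 : n₀ ≤ n₁ := le_max_left _ _
  set F : ArithmeticFunction ℕ := ⟨fun m => if n₁ ≤ m then m ^ (3 * k - 2) else 0, by
    rw [if_neg (by omega)]⟩ with hFd
  have hF : ∀ m : ℕ, F m = if n₁ ≤ m then m ^ (3 * k - 2) else 0 := fun m => rfl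
  obtain ⟨z, hz⟩ := fx_ex (1 : ArithmeticFunction ℕ) (Φ := F) (by rw [hF, if_neg (by omega)])
  have hf' : ∀ n ≥ n₁, f n 1 = 1 ∧ f n n = 1 ∧
      (∀ m : ℕ, 1 < m → m ≠ n → m ^ 2 < n ^ 3 → f n m = 0) ∧ ∀ m : ℕ, 2 ≤ m → f n m ≤ m ^ σ :=
    fun n hn => hf n (h0.trans hn)
  have hag := agree (k := k) (by omega) h2 hf' hF hz
  refine ⟨3 * k - 2, n₁, fun d => z d - Pr f z n₁ d d, F, z, ?_, h0, h2, hF, hz, fun n hn => ?_,
    fun M m hm => ?_⟩
  · exact ⟨3 * σ + 11, by omega⟩
  · have := main_ineq (k := k) (by omega) h2 hf' hF hz hn (hag n)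
    show 0 < z n - Pr f z n₁ n n
    omega
  · have e : Finset.Icc n₁ M = Finset.Ico n₁ (M + 1) := by
      ext j
      rw [Finset.mem_Icc, Finset.mem_Ico]
      omega
    rw [e, ← Pr_prod]
    exact hag (M + 1) m (by omega)

end Pool.Agent.R639.FZ
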