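import Pool.Agent.R639.FZ.Defs

/-!
# Project FZ, piece BLK: irreducible representations and Wedderburn blocks
-/

set_option autoImplicit false

namespace Pool.Agent.R639.FZ.BLK

open Matrix

variable {G : Type} [Group G] {ι : Type} {d : ι → ℕ} {m : ℕ}

/-- extension of a matrix representation to the group algebra -/
noncomputable def ext (ρ : MRep G m) : MonoidAlgebra ℂ G →ₐ[ℂ] Matrix (Fin m) (Fin m) ℂ :=
  MonoidAlgebra.lift ℂ (Matrix (Fin m) (Fin m) ℂ) G ρ

theorem ext_of (ρ : MRep G m) (g : G) : ext ρ (MonoidAlgebra.of ℂ G g) = ρ g := by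
  simp [ext]

theorem inv_ext {ρ : MRep G m} {W : Submodule ℂ (Fin m → ℂ)} (h : Inv ρ W)
    (a : MonoidAlgebra ℂ G) : ∀ w ∈ W, (ext ρ a).mulVec w ∈ W := by
  induction a using MonoidAlgebra.induction_on with
  | of g =>
    intro w hw
    rw [ext_of]
    exact h g w hw
  | add x y hx hy =>
    intro w hw
    rw [map_add, Matrix.add_mulVec]
    exact W.add_mem (hx w hw) (hy w hw)
  | smul r x hx =>
    intro w hw
    rw [map_smul, Matrix.smul_mulVec]
    exact W.smul_mem r (hx w hw)

/-- the full matrix algebra has no invariant subspaces -/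
theorem full (K : Submodule ℂ (Fin m → ℂ))
    (h : ∀ (X : Matrix (Fin m) (Fin m) ℂ), ∀ w ∈ K, X.mulVec w ∈ K) : K = ⊥ ∨ K = ⊤ := by
  by_cases hK : K = ⊥
  · exact Or.inl hK
  · right
    obtain ⟨w, hw, hw0⟩ := (Submodule.ne_bot_iff K).1 hK
    obtain ⟨k, hk⟩ : ∃ k, w k ≠ 0 := by
      by_contra hcon
      push Not at hcon
      exact hw0 (funext hcon)
    rw [eq_top_iff]
    intro v _
    have h1 := h (Matrix.of fun i j => if j = k then v i / w k else 0) w hw
    have h2 : (Matrix.of fun i j => if j = k then v i / w k else 0).mulVec w = v := by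
      ext i
      simp only [Matrix.mulVec, dotProduct, Matrix.of_apply, ite_mul, zero_mul,
        Finset.sum_ite_eq', Finset.mem_univ, if_true]
      field_simp
    rwa [h2] at h1

theorem irred_of_surj (hm : 0 < m) (ρ : MRep G m) (hs : Function.Surjective (ext ρ)) :
    Irred ρ := by
  refine ⟨hm, fun W hW => full W fun X w hw => ?_⟩
  obtain ⟨a, rfl⟩ := hs X
  exact inv_ext hW a w hw

section blocks
variable (e : MonoidAlgebra ℂ G ≃ₐ[ℂ] (∀ j : ι, Matrix (Fin (d j)) (Fin (d j)) ℂ))

/-- projection to a block -/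
noncomputable def Aj (j : ι) (h : d j = m) :
    MonoidAlgebra ℂ G →ₐ[ℂ] Matrix (Fin m) (Fin m) ℂ :=
  ((Matrix.reindexAlgEquiv ℂ ℂ (finCongr h)).toAlgHom.comp
    ((Pi.evalAlgHom ℂ (fun j : ι => Matrix (Fin (d j)) (Fin (d j)) ℂ) j).comp e.toAlgHom))

theorem Aj_apply (j : ι) (h : d j = m) (a : MonoidAlgebra ℂ G) :
    Aj e j h a = (Matrix.reindexAlgEquiv ℂ ℂ (finCongr h)) (e a j) := rfl

/-- the representation of a block -/
noncomputable def rep (j : ι) (h : d j = m) : MRep G m :=
  ((Aj e j h) : MonoidAlgebra ℂ G →* Matrix (Fin m) (Fin m) ℂ).comp (MonoidAlgebra.of ℂ G)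

theorem rep_apply (j : ι) (h : d j = m) (g : G) :
    rep e j h g = Aj e j h (MonoidAlgebra.of ℂ G g) := rfl

theorem ext_rep (j : ι) (h : d j = m) : ext (rep e j h) = Aj e j h := by
  refine AlgHom.ext fun a => ?_
  induction a using MonoidAlgebra.induction_on with
  | of g => rw [ext_of, rep_apply]
  | add x y hx hy => rw [map_add, map_add, hx, hy]
  | smul r x hx => rw [map_smul, map_smul, hx]

theorem Aj_surj [DecidableEq ι] (j : ι) (h : d j = m) : Function.Surjective (Aj e j h) := by
  intro X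
  refine ⟨e.symm (Pi.single j ((Matrix.reindexAlgEquiv ℂ ℂ (finCongr h)).symm X)), ?_⟩
  rw [Aj_apply, AlgEquiv.apply_symm_apply, Pi.single_eq_same, AlgEquiv.apply_symm_apply]

theorem conj_all {ρ σ : MRep G m} {P : (Matrix (Fin m) (Fin m) ℂ)ˣ}
    (h : ∀ g : G, σ g = (P : Matrix (Fin m) (Fin m) ℂ) * ρ g *
      ((P⁻¹ : (Matrix (Fin m) (Fin m) ℂ)ˣ) : Matrix (Fin m) (Fin m) ℂ))
    (a : MonoidAlgebra ℂ G) : ext σ a = (P : Matrix (Fin m) (Fin m) ℂ) * ext ρ a *
      ((P⁻¹ : (Matrix (Fin m) (Fin m) ℂ)ˣ) : Matrix (Fin m) (Fin m) ℂ) := by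
  induction a using MonoidAlgebra.induction_on with
  | of g => rw [ext_of, ext_of, h g]
  | add x y hx hy => rw [map_add, map_add, hx, hy, mul_add, add_mul]
  | smul r x hx => rw [map_smul, map_smul, hx, Matrix.mul_smul, Matrix.smul_mul]

theorem rep_inj [DecidableEq ι] (hm : 0 < m) (i j : ι) (hi : d i = m) (hj : d j = m)
    (h : Iso (rep e i hi) (rep e j hj)) : i = j := by
  by_contra hne
  obtain ⟨P, hP⟩ := h
  have h1 := conj_all hP (e.symm (Pi.single i 1))
  rw [ext_rep, ext_rep, Aj_apply, Aj_apply, AlgEquiv.apply_symm_apply, Pi.single_eq_same,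
    Pi.single_eq_of_ne (Ne.symm hne), map_zero, map_one, mul_one, Units.mul_inv] at h1
  have : Nonempty (Fin m) := ⟨⟨0, hm⟩⟩
  exact zero_ne_one h1

/-- surjectivity -/
theorem rep_surj [Fintype ι] [DecidableEq ι] (hd : ∀ j, 0 < d j) (ρ : MRep G m) (hρ : Irred ρ) :
    ∃ (j : ι) (h : d j = m), Iso (rep e j h) ρ := by
  obtain ⟨hm, hirr⟩ := hρ
  set f : (∀ j : ι, Matrix (Fin (d j)) (Fin (d j)) ℂ) →ₐ[ℂ] Matrix (Fin m) (Fin m) ℂ :=
    (ext ρ).comp e.symm.toAlgHom with hf
  have hfe : ∀ a, f (e a) = ext ρ a := by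
    intro a
    simp [hf]
  have : Nonempty (Fin m) := ⟨⟨0, hm⟩⟩
  -- a block which does not vanish
  obtain ⟨j, hj⟩ : ∃ j : ι, f (Pi.single j 1) ≠ 0 := by
    by_contra hcon
    push Not at hcon
    have h1 : (1 : ∀ j : ι, Matrix (Fin (d j)) (Fin (d j)) ℂ) = ∑ j, Pi.single j 1 := by
      have := Finset.univ_sum_single (1 : ∀ j : ι, Matrix (Fin (d j)) (Fin (d j)) ℂ)
      simpa using this.symm
    have h2 : f 1 = 0 := by
      rw [h1, map_sum]
      exact Finset.sum_eq_zero fun j _ => hcon j
    rw [map_one] at h2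
    exact one_ne_zero h2
  set z : Fin (d j) := ⟨0, hd j⟩ with hz
  have hsm : ∀ X Y : Matrix (Fin (d j)) (Fin (d j)) ℂ,
      f (Pi.single j X) * f (Pi.single j Y) = f (Pi.single j (X * Y)) := by
    intro X Y
    rw [← map_mul, Pi.single_mul]
  -- a vector fixed by the first matrix unit
  obtain ⟨u, hu0, hu⟩ : ∃ u : Fin m → ℂ, u ≠ 0 ∧
      (f (Pi.single j (Matrix.single z z 1))).mulVec u = u := by
    obtain ⟨w, hw⟩ : ∃ w : Fin m → ℂ, (f (Pi.single j 1)).mulVec w ≠ 0 := by
      by_contra hcon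
      push Not at hcon
      apply hj
      apply Matrix.ext_of_mulVec_single
      intro i
      rw [hcon, Matrix.zero_mulVec]
    have h1 : f (Pi.single j 1) = ∑ a : Fin (d j), f (Pi.single j (Matrix.single a a 1)) := by
      rw [← map_sum]
      congr 1
      have h2 : (1 : Matrix (Fin (d j)) (Fin (d j)) ℂ) = ∑ a, Matrix.single a a 1 := by
        ext a b
        rw [Matrix.sum_apply]
        simp only [Matrix.single_apply, Matrix.one_apply]
        by_cases hab : a = b
        · subst hab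
          simp
        · rw [if_neg hab]
          symm
          apply Finset.sum_eq_zero
          intro c _
          rw [if_neg]
          rintro ⟨h1, h2⟩
          exact hab (h1 ▸ h2)
      rw [h2]
      exact map_sum (AddMonoidHom.single (fun j : ι => Matrix (Fin (d j)) (Fin (d j)) ℂ) j) _ _
    rw [h1, Matrix.sum_mulVec] at hw
    obtain ⟨a, -, ha⟩ := Finset.exists_ne_zero_of_sum_ne_zero hw
    refine ⟨(f (Pi.single j (Matrix.single z a 1))).mulVec w, fun h0 => ha ?_, ?_⟩
    · have h3 : f (Pi.single j (Matrix.single a a 1))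
          = f (Pi.single j (Matrix.single a z 1)) * f (Pi.single j (Matrix.single z a 1)) := by
        rw [hsm]
        simp
      rw [h3, ← Matrix.mulVec_mulVec, h0, Matrix.mulVec_zero]
    · rw [Matrix.mulVec_mulVec, hsm]
      simp
  -- the intertwiner
  let T : (Fin (d j) → ℂ) →ₗ[ℂ] (Fin m → ℂ) :=
    { toFun := fun c => (f (Pi.single j (Matrix.of fun a b => if b = z then c a else 0))).mulVec u
      map_add' := by
        intro c c'
        have h1 : (Matrix.of fun (a b : Fin (d j)) => if b = z then (c + c') a else 0)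
            = (Matrix.of fun a b => if b = z then c a else 0)
              + (Matrix.of fun a b => if b = z then c' a else 0) := by
          ext a b
          simp only [Matrix.of_apply, Matrix.add_apply, Pi.add_apply]
          split_ifs <;> simp
        rw [h1, Pi.single_add, map_add, Matrix.add_mulVec]
      map_smul' := by
        intro r c
        have h1 : (Matrix.of fun (a b : Fin (d j)) => if b = z then (r • c) a else 0)
            = r • (Matrix.of fun a b => if b = z then c a else 0) := by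
          ext a b
          simp only [Matrix.of_apply, Matrix.smul_apply, Pi.smul_apply]
          split_ifs <;> simp
        rw [h1, Pi.single_smul, map_smul, Matrix.smul_mulVec, RingHom.id_apply] }
  have hT : ∀ c, T c = (f (Pi.single j (Matrix.of fun a b => if b = z then c a else 0))).mulVec u :=
    fun c => rfl
  have hTX : ∀ (b : ∀ j : ι, Matrix (Fin (d j)) (Fin (d j)) ℂ) (c : Fin (d j) → ℂ),
      (f b).mulVec (T c) = T ((b j).mulVec c) := by
    intro b c
    rw [hT, hT, Matrix.mulVec_mulVec, ← map_mul]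
    congr 2
    have h1 : b * Pi.single j (Matrix.of fun a b => if b = z then c a else 0)
        = Pi.single j (b j * (Matrix.of fun a b => if b = z then c a else 0)) := by
      funext k
      by_cases hk : k = j
      · subst hk
        rw [Pi.mul_apply, Pi.single_eq_same, Pi.single_eq_same]
      · rw [Pi.mul_apply, Pi.single_eq_of_ne hk, Pi.single_eq_of_ne hk, mul_zero]
    rw [h1]
    congr 1
    ext a b'
    simp only [Matrix.mul_apply, Matrix.of_apply, Matrix.mulVec, dotProduct]
    by_cases hb : b' = z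
    · simp [hb]
    · simp [hb]
  have hTz : T (Pi.single z 1) = u := by
    rw [hT]
    have h1 : (Matrix.of fun (a b : Fin (d j)) => if b = z then (Pi.single z (1 : ℂ) : Fin (d j) → ℂ) a else 0)
        = Matrix.single z z 1 := by
      ext a b
      simp only [Matrix.of_apply, Matrix.single_apply, Pi.single_apply]
      by_cases h2 : b = z <;> by_cases h3 : a = z <;> simp [h2, h3, eq_comm]
    rw [h1, hu]
  have hrange : LinearMap.range T = ⊤ := by
    have hinv : Inv ρ (LinearMap.range T) := by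
      rintro g _ ⟨c, rfl⟩
      have h1 := hTX (e (MonoidAlgebra.of ℂ G g)) c
      rw [hfe, ext_of] at h1
      rw [h1]
      exact ⟨_, rfl⟩
    rcases hirr _ hinv with h | h
    · exfalso
      have h1 : u ∈ LinearMap.range T := ⟨_, hTz⟩
      rw [h, Submodule.mem_bot] at h1
      exact hu0 h1
    · exact h
  have hker : LinearMap.ker T = ⊥ := by
    have hinv : ∀ (X : Matrix (Fin (d j)) (Fin (d j)) ℂ), ∀ w ∈ LinearMap.ker T,
        X.mulVec w ∈ LinearMap.ker T := by
      intro X w hw
      rw [LinearMap.mem_ker] at hw ⊢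
      have h1 := hTX (Pi.single j X) w
      rw [hw, Matrix.mulVec_zero, Pi.single_eq_same] at h1
      exact h1.symm
    rcases full _ hinv with h | h
    · exact h
    · exfalso
      have h1 : Pi.single z (1 : ℂ) ∈ LinearMap.ker T := by rw [h]; trivial
      rw [LinearMap.mem_ker, hTz] at h1
      exact hu0 h1
  let E : (Fin (d j) → ℂ) ≃ₗ[ℂ] (Fin m → ℂ) :=
    LinearEquiv.ofBijective T ⟨LinearMap.ker_eq_bot.1 hker, LinearMap.range_eq_top.1 hrange⟩
  have hdm : d j = m := by
    have := E.finrank_eq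
    simpa using this
  refine ⟨j, hdm, ?_⟩
  subst hdm
  -- the matrix of the intertwiner
  have hE : ∀ c, E c = T c := fun c => rfl
  set P : Matrix (Fin (d j)) (Fin (d j)) ℂ := LinearMap.toMatrix' E.toLinearMap with hP
  set Q : Matrix (Fin (d j)) (Fin (d j)) ℂ := LinearMap.toMatrix' E.symm.toLinearMap with hQ
  have hPQ : P * Q = 1 := by
    rw [hP, hQ, ← LinearMap.toMatrix'_comp]
    simp
  have hQP : Q * P = 1 := by
    rw [hP, hQ, ← LinearMap.toMatrix'_comp]
    simp
  have hPv : ∀ c, P.mulVec c = T c := by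
    intro c
    rw [hP, ← Matrix.toLin'_apply, Matrix.toLin'_toMatrix']
    rfl
  refine ⟨⟨P, Q, hPQ, hQP⟩, fun g => ?_⟩
  change ρ g = P * rep e j rfl g * Q
  have h1 : ρ g * P = P * rep e j rfl g := by
    apply Matrix.ext_of_mulVec_single
    intro i
    rw [← Matrix.mulVec_mulVec, ← Matrix.mulVec_mulVec, hPv, hPv]
    have h2 := hTX (e (MonoidAlgebra.of ℂ G g)) (Pi.single i 1)
    rw [hfe, ext_of] at h2
    rw [h2]
    rfl
  rw [← h1, Matrix.mul_assoc, hPQ, Matrix.mul_one]

end blocks

end Pool.Agent.R639.FZ.BLK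

namespace Pool.Agent.R639.FZ

theorem t_BLK : S_BLK := by
  classical
  intro G _ _ ι _ d ⟨hd, ⟨e⟩⟩ m
  let Φ : {j : ι // d j = m} → AClass G m := fun j =>
    Quotient.mk _ ⟨BLK.rep e j.1 j.2, BLK.irred_of_surj (j.2 ▸ hd j.1) _ (by
      rw [BLK.ext_rep]
      exact BLK.Aj_surj e j.1 j.2)⟩
  have hΦ : Function.Bijective Φ := by
    constructor
    · intro i j hij
      have h1 : Iso (BLK.rep e i.1 i.2) (BLK.rep e j.1 j.2) := Quotient.exact hij
      exact Subtype.ext (BLK.rep_inj e (i.2 ▸ hd i.1) i.1 j.1 i.2 j.2 h1)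
    · intro q
      induction q using Quotient.inductionOn with
      | h ρ =>
        obtain ⟨j, hj, hiso⟩ := BLK.rep_surj e hd ρ.1 ρ.2
        exact ⟨⟨j, hj⟩, Quotient.sound hiso⟩
  refine ⟨Finite.of_surjective Φ hΦ.2, ?_⟩
  exact (Nat.card_congr (Equiv.ofBijective Φ hΦ)).symm

end Pool.Agent.R639.FZ
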