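import Pool.Agent.R639.FZ.Defs

/-! # FZ-CNT -/

namespace Pool.Agent.R639.FZ

theorem t_CNT (h1 : S_GRAPH1) (h2 : S_GRAPH2) (h3 : S_CONJ) : S_CNT := by
  intro N k hN J _ V _ _ _ ρ hirr hlvl hiso
  have hex : ∀ j, ∃ τ : Equiv.Perm (Fin k) →* Module.End ℂ (Fx (ρ j) (T0 N k)), IrrE τ ∧
      ∀ (g : A N) (σ : Equiv.Perm (Fin k)), Lifts g σ → ∀ u : Fx (ρ j) (T0 N k),
        ((τ σ u : Fx (ρ j) (T0 N k)) : V j) = ρ j g u :=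
    fun j => h1 N k hN (V j) (ρ j) (hirr j) (hlvl j)
  choose τ hτ hτ' using hex
  refine h3 (Equiv.Perm (Fin k)) J (fun j => Fx (ρ j) (T0 N k)) τ hτ ?_
  rintro i j hij ⟨e, he⟩
  refine hiso i j hij (h2 N k hN (V i) (V j) (ρ i) (ρ j) (hirr i) (hirr j) (hlvl i) (hlvl j)
    ⟨e, ?_⟩)
  intro g σ hg u u₁ hu
  have h4 : u₁ = τ i σ u := Subtype.ext (by rw [hτ' i g σ hg u, hu])
  rw [h4, he σ u, hτ' j g σ hg (e u)]

end Pool.Agent.R639.FZ
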