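import Pool.Agent.R639.FZ.Defs

/-!
# Project FZ (MP_810665_al), piece CONJ

The number of pairwise nonisomorphic irreducible representations of a finite group is at most
the number of conjugacy classes.
-/

namespace Pool.Agent.R639.FZ

namespace CONJ

open Representation

theorem isIrr {G : Type} [Group G] {V : Type} [AddCommGroup V] [Module ℂ V]
    (ρ : G →* Module.End ℂ V) (h : IrrE ρ) : Representation.IsIrreducible (k := ℂ) ρ := by
  obtain ⟨hn, hW⟩ := h
  refine { exists_pair_ne := ⟨⊥, ⊤, ?_⟩, eq_bot_or_eq_top := ?_ }
  · intro hbt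
    have h1 : (⊥ : Submodule ℂ V) = ⊤ := congrArg Subrepresentation.toSubmodule hbt
    exact bot_ne_top h1
  · intro W
    rcases hW W.toSubmodule (fun g w hw => W.apply_mem_toSubmodule g hw) with h1 | h1
    · left
      exact Subrepresentation.toSubmodule_injective h1
    · right
      exact Subrepresentation.toSubmodule_injective h1

theorem isoE_of_equiv {G : Type} [Group G] {V W : Type} [AddCommGroup V] [Module ℂ V]
    [AddCommGroup W] [Module ℂ W] (ρ : G →* Module.End ℂ V) (σ : G →* Module.End ℂ W)
    (φ : Representation.Equiv (A := ℂ) ρ σ) : IsoE ρ σ := by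
  refine ⟨φ.toLinearEquiv, fun g v => ?_⟩
  have h := φ.toIntertwiningMap.isIntertwining' g
  exact LinearMap.congr_fun h v

end CONJ

open CONJ in
/-- CONJ -/
theorem t_CONJ : S_CONJ := by
  classical
  intro G _ _ J _ V _ _ _ ρ hirr hiso
  have : Fintype G := Fintype.ofFinite G
  have hG : (Nat.card G : ℂ) ≠ 0 := Nat.cast_ne_zero.2 Nat.card_pos.ne'
  have : Invertible (Nat.card G : ℂ) := invertibleOfNonzero hG
  have hI : ∀ j, Representation.IsIrreducible (k := ℂ) (ρ j) := fun j => isIrr (ρ j) (hirr j)
  let f : J → ConjClasses G → ℂ := fun j =>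
    Quotient.lift (fun g : G => Representation.character (k := ℂ) (ρ j) g) (by
      intro a b hab
      obtain ⟨c, hc⟩ := isConj_iff.1 hab
      rw [← hc]
      exact (Representation.char_conj (k := ℂ) (ρ j) a c).symm)
  have hf : ∀ j g, f j (ConjClasses.mk g) = Representation.character (k := ℂ) (ρ j) g :=
    fun j g => rfl
  have hli : LinearIndependent ℂ f := by
    rw [Fintype.linearIndependent_iff]
    intro c hc i
    have h1 : ∀ g : G, ∑ j, c j * Representation.character (k := ℂ) (ρ j) g = 0 := by
      intro g
      have h2 := congrFun hc (ConjClasses.mk g)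
      simpa [Finset.sum_apply, hf] using h2
    have h3 : ∀ j, (Nat.card G : ℂ)⁻¹ * ∑ g : G, Representation.character (k := ℂ) (ρ j) g *
        Representation.character (k := ℂ) (ρ i) g⁻¹ = if j = i then 1 else 0 := by
      intro j
      have := hI i
      have := hI j
      have h4 := Representation.char_orthonormal (k := ℂ) (ρ j) (ρ i)
      rw [h4]
      by_cases hji : j = i
      · subst hji
        rw [if_pos ⟨Representation.Equiv.refl _⟩, if_pos rfl]
      · rw [if_neg, if_neg hji]
        rintro ⟨φ⟩
        exact hiso i j (fun h => hji h.symm) (isoE_of_equiv _ _ φ)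
    have h5 : ∑ j, c j * ((Nat.card G : ℂ)⁻¹ * ∑ g : G,
        Representation.character (k := ℂ) (ρ j) g *
          Representation.character (k := ℂ) (ρ i) g⁻¹) = c i := by
      rw [Finset.sum_congr rfl (fun j _ => by rw [h3 j])]
      simp
    rw [← h5]
    calc ∑ j, c j * ((Nat.card G : ℂ)⁻¹ * ∑ g : G,
        Representation.character (k := ℂ) (ρ j) g *
          Representation.character (k := ℂ) (ρ i) g⁻¹)
        = (Nat.card G : ℂ)⁻¹ * ∑ g : G, (∑ j, c j * Representation.character (k := ℂ) (ρ j) g) *
          Representation.character (k := ℂ) (ρ i) g⁻¹ := by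
          simp only [Finset.mul_sum, Finset.sum_mul]
          rw [Finset.sum_comm]
          refine Finset.sum_congr rfl fun g _ => Finset.sum_congr rfl fun j _ => ?_
          ring
      _ = 0 := by
          simp [h1]
  have : Finite (ConjClasses G) := inferInstance
  have : Fintype (ConjClasses G) := Fintype.ofFinite _
  have h6 := hli.fintype_card_le_finrank
  rw [Module.finrank_fintype_fun_eq_card] at h6
  rw [Nat.card_eq_fintype_card]
  exact h6

end Pool.Agent.R639.FZ
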