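import Pool.Agent.R639.FZ.Defs

/-!
# Piece CONJN of project FZ: few conjugacy classes in symmetric and alternating groups
-/

namespace Pool.Agent.R639.FZ

namespace CONJNaux

open Equiv.Perm

theorem part_le (k : ℕ) : Nat.card (Nat.Partition k) ≤ 2 ^ k := by
  have h1 : Nat.card (Nat.Partition k) ≤ Nat.card (Composition k) :=
    Nat.card_le_card_of_surjective _ (Nat.Partition.ofComposition_surj (n := k))
  rw [Nat.card_eq_fintype_card (α := Composition k), composition_card] at h1
  exact h1.trans (Nat.pow_le_pow_right (by norm_num) (Nat.sub_le _ _))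

theorem perm_le (k : ℕ) : Nat.card (ConjClasses (Equiv.Perm (Fin k))) ≤ 2 ^ k := by
  have h : Nat.card (ConjClasses (Equiv.Perm (Fin k))) ≤
      Nat.card (Nat.Partition (Fintype.card (Fin k))) := by
    refine Nat.card_le_card_of_injective (Quotient.lift (fun σ : Equiv.Perm (Fin k) =>
      σ.partition) (fun a b hab => (Equiv.Perm.partition_eq_of_isConj).1 hab)) ?_
    intro x y
    induction x using Quotient.inductionOn with
    | h a =>
      induction y using Quotient.inductionOn with
      | h b =>
        intro hab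
        exact Quotient.sound ((Equiv.Perm.partition_eq_of_isConj).2 hab)
  rw [Fintype.card_fin] at h
  exact h.trans (part_le k)

theorem fibre {N : ℕ} (g g' : A N) (s : Equiv.Perm (Fin N)) (hs : sign s = 1)
    (h : s * g.1 * s⁻¹ = g'.1) : ConjClasses.mk g = ConjClasses.mk g' := by
  rw [ConjClasses.mk_eq_mk_iff_isConj, isConj_iff]
  refine ⟨⟨s, Equiv.Perm.mem_alternatingGroup.2 hs⟩, ?_⟩
  apply Subtype.ext
  exact h

theorem alt_le (N : ℕ) : Nat.card (ConjClasses (A N)) ≤
    2 * Nat.card (ConjClasses (Equiv.Perm (Fin N))) := by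
  classical
  have : Fintype (ConjClasses (A N)) := Fintype.ofFinite _
  have : Fintype (ConjClasses (Equiv.Perm (Fin N))) := Fintype.ofFinite _
  rw [Nat.card_eq_fintype_card, Nat.card_eq_fintype_card]
  have h := Finset.card_le_mul_card_image (f := ConjClasses.map
    (alternatingGroup (Fin N)).subtype) (Finset.univ : Finset (ConjClasses (A N))) 2 (by
      intro c _
      by_contra hc
      push Not at hc
      obtain ⟨x, hx, y, hy, z, hz, hxy, hxz, hyz⟩ := Finset.two_lt_card.1 hc
      obtain ⟨g, rfl⟩ := ConjClasses.exists_rep x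
      obtain ⟨g', rfl⟩ := ConjClasses.exists_rep y
      obtain ⟨g'', rfl⟩ := ConjClasses.exists_rep z
      have hx' := (Finset.mem_filter.1 hx).2
      have hy' := (Finset.mem_filter.1 hy).2
      have hz' := (Finset.mem_filter.1 hz).2
      have e1 : ConjClasses.mk g.1 = ConjClasses.mk g'.1 := hx'.trans hy'.symm
      have e2 : ConjClasses.mk g.1 = ConjClasses.mk g''.1 := hx'.trans hz'.symm
      rw [ConjClasses.mk_eq_mk_iff_isConj, isConj_iff] at e1 e2
      obtain ⟨s, hs⟩ := e1
      obtain ⟨t, ht⟩ := e2
      rcases Int.units_eq_one_or (sign s) with h1 | h1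
      · exact hxy (fibre g g' s h1 hs)
      rcases Int.units_eq_one_or (sign t) with h2 | h2
      · exact hxz (fibre g g'' t h2 ht)
      refine hyz (fibre g' g'' (t * s⁻¹) ?_ ?_)
      · rw [map_mul, sign_inv, h1, h2]
        rfl
      · rw [← hs, ← ht]
        group)
  refine h.trans (Nat.mul_le_mul_left _ ?_)
  exact Finset.card_le_univ _

end CONJNaux

open CONJNaux in
theorem t_CONJN : S_CONJN := by
  refine ⟨perm_le, fun N => (alt_le N).trans ?_⟩
  rw [pow_succ, mul_comm]
  exact Nat.mul_le_mul_right _ (perm_le N)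

end Pool.Agent.R639.FZ
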