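import Pool.Agent.R639.FZ.Defs

/-!
# Project FZ (MP_810665_al), piece DIM
-/

set_option autoImplicit false

namespace Pool.Agent.R639.FZ

namespace PDim

/-- the support of a character -/
def sp {r : ℕ} (χ : Fin r → ZMod 3) : Finset (Fin r) := Finset.univ.filter fun i => χ i ≠ 0

theorem mem_sp {r : ℕ} {χ : Fin r → ZMod 3} {i : Fin r} : i ∈ sp χ ↔ χ i ≠ 0 := by
  simp [sp]

/-- swapping moves the support -/
theorem reach {N : ℕ} {V : Type} [AddCommGroup V] [Module ℂ V] (ρ : A N →* Module.End ℂ V)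
    (h3 : S_MOVE) (S' : Finset (Fin (N / 3))) : ∀ (n : ℕ) (χ : Fin (N / 3) → ZMod 3), Occ ρ χ →
      (sp χ).card = S'.card → (S' \ sp χ).card = n →
      ∃ χ' : Fin (N / 3) → ZMod 3, Occ ρ χ' ∧ sp χ' = S' := by
  intro n
  induction n with
  | zero =>
    intro χ hχ hc h0
    refine ⟨χ, hχ, ?_⟩
    rw [Finset.card_eq_zero, Finset.sdiff_eq_empty_iff_subset] at h0
    exact (Finset.eq_of_subset_of_card_le h0 hc.le).symm
  | succ n ih =>
    intro χ hχ hc hn
    have h1 : (S' \ sp χ).Nonempty := by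
      rw [← Finset.card_pos]; omega
    have h2 : (sp χ \ S').Nonempty := by
      rw [← Finset.card_pos]
      have e1 := Finset.card_sdiff_add_card_inter S' (sp χ)
      have e2 := Finset.card_sdiff_add_card_inter (sp χ) S'
      rw [Finset.inter_comm] at e2
      omega
    obtain ⟨j, hj⟩ := h1
    obtain ⟨i, hi⟩ := h2
    rw [Finset.mem_sdiff] at hi hj
    have hij : i ≠ j := by
      rintro rfl
      exact hi.2 hj.1
    obtain ⟨⟨χ', hocc, hl, hii, hjj⟩, -⟩ := h3 N V ρ χ i j hχ hij
    have hχi : χ i ≠ 0 := mem_sp.1 hi.1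
    have hχj : χ j = 0 := by
      by_contra h
      exact hj.2 (mem_sp.2 h)
    have hi' : χ' i = 0 := hii.2 hχj
    have hj' : χ' j ≠ 0 := fun h => hχi (hjj.1 h)
    have hsp : sp χ' = insert j ((sp χ).erase i) := by
      ext l
      rw [mem_sp, Finset.mem_insert, Finset.mem_erase, mem_sp]
      by_cases h1 : l = i
      · subst h1
        constructor
        · intro h; exact absurd hi' h
        · rintro (h | h)
          · exact absurd h hij
          · exact absurd rfl h.1
      · by_cases h2 : l = j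
        · subst h2
          exact ⟨fun _ => Or.inl rfl, fun _ => hj'⟩
        · rw [hl l h1 h2]
          constructor
          · intro h; exact Or.inr ⟨h1, h⟩
          · rintro (h | h)
            · exact absurd h h2
            · exact h.2
    have hcard : (sp χ').card = (sp χ).card := by
      rw [hsp, Finset.card_insert_of_notMem, Finset.card_erase_of_mem hi.1]
      · have : 0 < (sp χ).card := Finset.card_pos.2 ⟨i, hi.1⟩
        omega
      · intro h
        exact hj.2 (Finset.mem_of_mem_erase h)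
    have hsd : S' \ sp χ' = (S' \ sp χ).erase j := by
      ext l
      rw [Finset.mem_sdiff, Finset.mem_erase, Finset.mem_sdiff, hsp, Finset.mem_insert,
        Finset.mem_erase]
      constructor
      · rintro ⟨h1, h2⟩
        refine ⟨fun h => h2 (Or.inl h), h1, fun h => h2 (Or.inr ⟨?_, h⟩)⟩
        rintro rfl
        exact hi.2 h1
      · rintro ⟨h1, h2, h3⟩
        refine ⟨h2, ?_⟩
        rintro (h | h)
        · exact h1 h
        · exact h3 h.2
    refine ih χ' hocc (by rw [hcard, hc]) ?_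
    rw [hsd, Finset.card_erase_of_mem (Finset.mem_sdiff.2 hj)]
    omega

/-- flips -/
theorem flips {N : ℕ} {V : Type} [AddCommGroup V] [Module ℂ V] (ρ : A N →* Module.End ℂ V)
    (h3 : S_MOVE) (χ : Fin (N / 3) → ZMod 3) (hχ : Occ ρ χ) (i0 : Fin (N / 3))
    (F : Finset (Fin (N / 3))) (hF : i0 ∉ F) :
    ∃ χ' : Fin (N / 3) → ZMod 3, Occ ρ χ' ∧ (∀ l ∈ F, χ' l = - χ l) ∧
      ∀ l, l ∉ F → l ≠ i0 → χ' l = χ l := by
  induction F using Finset.induction_on with
  | empty => exact ⟨χ, hχ, fun l hl => absurd hl (Finset.notMem_empty l), fun _ _ _ => rfl⟩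
  | insert j F hj ih =>
    have hi0j : i0 ≠ j := fun h => hF (h ▸ Finset.mem_insert_self _ _)
    have hi0F : i0 ∉ F := fun h => hF (Finset.mem_insert_of_mem h)
    obtain ⟨χ', hocc, hA, hB⟩ := ih hi0F
    obtain ⟨-, hflip⟩ := h3 N V ρ χ' i0 j hocc hi0j
    refine ⟨_, hflip, ?_, ?_⟩
    · intro l hl
      rcases Finset.mem_insert.1 hl with rfl | hl'
      · rw [if_pos (Or.inr rfl), hB l hj hi0j.symm]
      · rw [if_neg ?_, hA l hl']
        rintro (h | h)
        · exact hi0F (h ▸ hl')
        · exact hj (h ▸ hl')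
    · intro l hl hl0
      have h1 : l ≠ j := fun h => hl (h ▸ Finset.mem_insert_self _ _)
      have h2 : l ∉ F := fun h => hl (Finset.mem_insert_of_mem h)
      rw [if_neg ?_, hB l h2 hl0]
      rintro (h | h)
      · exact hl0 h
      · exact h1 h

theorem neg_ne {x : ZMod 3} (hx : x ≠ 0) : -x ≠ x := by
  revert hx
  revert x
  decide

theorem blk_inj (N : ℕ) (p p' : Fin (N / 3) × Fin 3) (h : blk N p.1 p.2 = blk N p'.1 p'.2) :
    p = p' := by
  obtain ⟨i, a⟩ := p
  obtain ⟨j, b⟩ := p'
  have := congrArg Fin.val h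
  simp only [blk] at this
  have ha := a.2
  have hb := b.2
  have e1 : i.1 = j.1 := by omega
  have e2 : a.1 = b.1 := by omega
  exact Prod.ext (Fin.ext e1) (Fin.ext e2)

end PDim

open PDim in
theorem t_DIM (h1 : S_OCC1) (h2 : S_OCC2) (h3 : S_MOVE) (h4 : S_FIX) (h5 : S_PAIRT) : S_DIM := by
  classical
  intro N V _ _ _ ρ hV
  obtain ⟨v0, hv0⟩ := exists_ne (0 : V)
  obtain ⟨χ0, hχ0, -⟩ := h1 N V ρ v0 hv0
  obtain ⟨χ, hχm, hmax⟩ := Finset.exists_max_image
    (Finset.univ.filter fun χ : Fin (N / 3) → ZMod 3 => Occ ρ χ) (fun χ => (sp χ).card)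
    ⟨χ0, Finset.mem_filter.2 ⟨Finset.mem_univ _, hχ0⟩⟩
  have hχ : Occ ρ χ := (Finset.mem_filter.1 hχm).2
  have hmax' : ∀ χ' : Fin (N / 3) → ZMod 3, Occ ρ χ' → (sp χ').card ≤ (sp χ).card :=
    fun χ' h => hmax χ' (Finset.mem_filter.2 ⟨Finset.mem_univ _, h⟩)
  refine ⟨(sp χ).card, ?_, ?_, ?_, ?_, ?_⟩
  · have := Finset.card_le_univ (sp χ)
    rwa [Fintype.card_fin] at this
  · obtain ⟨v, hv, hev⟩ := hχ
    have hfx := h4 N V ρ χ v hev (fun χ' h => hmax' χ' h)
    refine ⟨Finset.univ.filter fun x : Fin N =>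
      ∃ i : Fin (N / 3), χ i ≠ 0 ∧ ∃ a : Fin 3, x = blk N i a, ?_, fun hbot => hv ?_⟩
    rotate_left
    · rw [hbot, Submodule.mem_bot] at hfx
      exact hfx
    · have e : (Finset.univ.filter fun x : Fin N =>
          ∃ i : Fin (N / 3), χ i ≠ 0 ∧ ∃ a : Fin 3, x = blk N i a) =
          (sp χ ×ˢ (Finset.univ : Finset (Fin 3))).image (fun p => blk N p.1 p.2) := by
        ext x
        simp only [Finset.mem_filter, Finset.mem_univ, true_and, Finset.mem_image,
          Finset.mem_product, and_true]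
        constructor
        · rintro ⟨i, hi, a, rfl⟩
          exact ⟨(i, a), mem_sp.2 hi, rfl⟩
        · rintro ⟨p, hp, rfl⟩
          exact ⟨p.1, mem_sp.1 hp, p.2, rfl⟩
      rw [e, Finset.card_image_of_injective _ (fun p p' h => blk_inj N p p' h),
        Finset.card_product, Finset.card_univ, Fintype.card_fin, mul_comm]
  · by_cases hw : sp χ = ∅
    · rw [hw, Finset.card_empty, pow_zero]
      have : 0 < Module.finrank ℂ V := Module.finrank_pos
      omega
    · obtain ⟨i0, hi0⟩ := Finset.nonempty_iff_ne_empty.2 hw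
      have hall : ∀ F ∈ ((sp χ).erase i0).powerset, ∃ χ' : Fin (N / 3) → ZMod 3, Occ ρ χ' ∧
          (∀ l ∈ F, χ' l = - χ l) ∧ ∀ l, l ∉ F → l ≠ i0 → χ' l = χ l := by
        intro F hF
        rw [Finset.mem_powerset] at hF
        exact flips ρ h3 χ hχ i0 F (fun h => (Finset.mem_erase.1 (hF h)).1 rfl)
      choose! f hf using hall
      have hinj : Set.InjOn f (((sp χ).erase i0).powerset : Finset (Finset (Fin (N / 3)))) := by
        have hrec : ∀ F ∈ ((sp χ).erase i0).powerset,
            F = ((sp χ).erase i0).filter (fun l => f F l ≠ χ l) := by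
          intro F hF
          obtain ⟨-, hA, hB⟩ := hf F hF
          rw [Finset.mem_powerset] at hF
          ext l
          rw [Finset.mem_filter]
          constructor
          · intro hl
            refine ⟨hF hl, ?_⟩
            rw [hA l hl]
            exact neg_ne (mem_sp.1 (Finset.mem_of_mem_erase (hF hl)))
          · rintro ⟨hl1, hl2⟩
            by_contra hl
            exact hl2 (hB l hl (Finset.mem_erase.1 hl1).1)
        intro F hF F' hF' he
        rw [hrec F hF, hrec F' hF', he]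
      have hle := h2 N V ρ ((((sp χ).erase i0).powerset).image f) (by
        intro χ' hχ'
        obtain ⟨F, hF, rfl⟩ := Finset.mem_image.1 hχ'
        exact (hf F hF).1)
      rw [Finset.card_image_of_injOn hinj, Finset.card_powerset,
        Finset.card_erase_of_mem hi0] at hle
      have hpos : 0 < (sp χ).card := Finset.card_pos.2 ⟨i0, hi0⟩
      have e : 2 ^ (sp χ).card = 2 * 2 ^ ((sp χ).card - 1) := by
        rw [← pow_succ']
        congr 1
        omega
      rw [e]
      omega
  · have hall : ∀ S' ∈ Finset.powersetCard (sp χ).card (Finset.univ : Finset (Fin (N / 3))),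
        ∃ χ' : Fin (N / 3) → ZMod 3, Occ ρ χ' ∧ sp χ' = S' := by
      intro S' hS'
      rw [Finset.mem_powersetCard] at hS'
      exact reach ρ h3 S' _ χ hχ hS'.2.symm rfl
    choose! f hf using hall
    have hinj : Set.InjOn f (Finset.powersetCard (sp χ).card
        (Finset.univ : Finset (Fin (N / 3))) : Finset (Finset (Fin (N / 3)))) := by
      intro S hS S' hS' he
      rw [← (hf S hS).2, ← (hf S' hS').2, he]
    have hle := h2 N V ρ ((Finset.powersetCard (sp χ).card
      (Finset.univ : Finset (Fin (N / 3)))).image f) (by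
        intro χ' hχ'
        obtain ⟨S', hS', rfl⟩ := Finset.mem_image.1 hχ'
        exact (hf S' hS').1)
    rw [Finset.card_image_of_injOn hinj, Finset.card_powersetCard, Finset.card_univ,
      Fintype.card_fin] at hle
    exact hle
  · rintro ⟨c₁, c₂, u, hc1, hc2, hd, hne⟩
    obtain ⟨χ', hocc, h2'⟩ := h5 N V ρ c₁ c₂ u hc1 hc2 hd hne
    exact h2'.trans (hmax' χ' hocc)

end Pool.Agent.R639.FZ
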