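import Pool.Agent.R639.FZ.Defs

namespace Pool.Agent.R639.FZ
namespace FABp

open Filter Topology

variable {ι : Type} {H : ι → Type} [∀ i, Group (H i)]

/-- the element which agrees with `x` on `F` and is `1` elsewhere -/
noncomputable def trunc (F : Finset ι) (x : ∀ i, H i) : ∀ i, H i := by
  classical exact fun i => if i ∈ F then x i else 1

theorem trunc_of_mem {F : Finset ι} {x : ∀ i, H i} {i : ι} (h : i ∈ F) : trunc F x i = x i := by
  simp [trunc, h]

theorem trunc_of_not_mem {F : Finset ι} {x : ∀ i, H i} {i : ι} (h : i ∉ F) :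
    trunc F x i = 1 := by
  simp [trunc, h]

theorem trunc_S {F S : Finset ι} {x : ∀ i, H i} (h : ∀ i ∈ S, x i = 1) :
    ∀ i ∈ S, trunc F x i = 1 := by
  intro i hi
  by_cases hF : i ∈ F
  · rw [trunc_of_mem hF, h i hi]
  · exact trunc_of_not_mem hF

theorem trunc_insert [DecidableEq ι] (a : ι) (F : Finset ι) (ha : a ∉ F) (x : ∀ i, H i) :
    trunc (insert a F) x = Pi.mulSingle a (x a) * trunc F x := by
  funext i
  rw [Pi.mul_apply]
  by_cases hi : i = a
  · subst hi
    rw [trunc_of_mem (Finset.mem_insert_self _ _), Pi.mulSingle_eq_same, trunc_of_not_mem ha,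
      mul_one]
  · rw [Pi.mulSingle_eq_of_ne hi, one_mul]
    by_cases hF : i ∈ F
    · rw [trunc_of_mem hF, trunc_of_mem (Finset.mem_insert_of_mem hF)]
    · rw [trunc_of_not_mem hF, trunc_of_not_mem]
      simp [hi, hF]

/-- truncations are in the commutator subgroup -/
theorem trunc_mem (hH : ∀ i, commutator (H i) = ⊤) (U : Subgroup (∀ i, H i)) (S : Finset ι)
    (hS : ∀ x : ∀ i, H i, (∀ i ∈ S, x i = 1) → x ∈ U) (x : ∀ i, H i) (hx : ∀ i ∈ S, x i = 1)
    (F : Finset ι) :
    (⟨trunc F x, hS _ (trunc_S hx)⟩ : U) ∈ commutator U := by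
  classical
  induction F using Finset.induction_on with
  | empty =>
    have : (⟨trunc ∅ x, hS _ (trunc_S hx)⟩ : U) = 1 := by
      apply Subtype.ext
      funext i
      exact trunc_of_not_mem (x := x) (Finset.notMem_empty i)
    rw [this]
    exact one_mem _
  | insert a F ha ih =>
    by_cases haS : a ∈ S
    · have : (⟨trunc (insert a F) x, hS _ (trunc_S hx)⟩ : U)
          = ⟨trunc F x, hS _ (trunc_S hx)⟩ := by
        apply Subtype.ext
        simp only
        rw [trunc_insert a F ha, hx a haS, Pi.mulSingle_one, one_mul]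
      rw [this]
      exact ih
    · have hs : ∀ h : H a, (Pi.mulSingle a h : ∀ i, H i) ∈ U := by
        intro h
        apply hS
        intro i hi
        rw [Pi.mulSingle_eq_of_ne]
        rintro rfl
        exact haS hi
      let φ : H a →* U := (MonoidHom.mulSingle H a).codRestrict U hs
      have hφ : φ (x a) ∈ commutator U := by
        have h1 : x a ∈ commutator (H a) := by rw [hH a]; trivial
        have h2 : φ (x a) ∈ (commutator (H a)).map φ := Subgroup.mem_map_of_mem φ h1
        have h3 : (commutator (H a)).map φ ≤ commutator U := by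
          rw [commutator_def, commutator_def, Subgroup.map_commutator]
          exact Subgroup.commutator_mono le_top le_top
        exact h3 h2
      have : (⟨trunc (insert a F) x, hS _ (trunc_S hx)⟩ : U)
          = φ (x a) * ⟨trunc F x, hS _ (trunc_S hx)⟩ := by
        apply Subtype.ext
        exact trunc_insert a F ha x
      rw [this]
      exact mul_mem hφ ih

end FABp

open FABp Filter Topology in
theorem t_FAB : S_FAB := by
  intro ι H _ _ _ _ _ hH U hU
  classical
  -- a finite set of coordinates
  obtain ⟨S, u, hu, hsub⟩ := isOpen_pi_iff.1 hU 1 U.one_mem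
  have hS : ∀ x : ∀ i, H i, (∀ i ∈ S, x i = 1) → x ∈ U := by
    intro x hx
    apply hsub
    intro i hi
    rw [hx i hi]
    exact (hu i hi).2
  -- the homomorphism to the finite product
  let r : (∀ i, H i) →* (∀ i : S, H i) :=
    { toFun := fun x i => x i
      map_one' := rfl
      map_mul' := fun _ _ => rfl }
  let K : Subgroup U := (r.comp U.subtype).ker
  have hK : K ≤ (commutator U).topologicalClosure := by
    intro x hx
    have hx' : ∀ i ∈ S, (x : ∀ i, H i) i = 1 := by
      intro i hi
      have := congrFun (MonoidHom.mem_ker.1 hx) ⟨i, hi⟩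
      exact this
    have hmem : ∀ F : Finset ι, (⟨trunc F (x : ∀ i, H i), hS _ (trunc_S hx')⟩ : U) ∈
        (commutator U : Set U) := fun F => trunc_mem hH U S hS _ hx' F
    have ht : Tendsto (fun F : Finset ι => (⟨trunc F (x : ∀ i, H i), hS _ (trunc_S hx')⟩ : U))
        atTop (𝓝 x) := by
      rw [tendsto_subtype_rng]
      rw [tendsto_pi_nhds]
      intro i
      refine tendsto_const_nhds.congr' ?_
      filter_upwards [eventually_ge_atTop ({i} : Finset ι)] with F hF
      exact (trunc_of_mem (hF (Finset.mem_singleton_self i))).symm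
    exact mem_closure_of_tendsto ht (Eventually.of_forall hmem)
  have : K.FiniteIndex := by
    have : Finite (∀ i : S, H i) := inferInstance
    exact Subgroup.finiteIndex_ker (r.comp U.subtype)
  have : ((commutator U).topologicalClosure).FiniteIndex := Subgroup.finiteIndex_of_le hK
  exact Subgroup.finite_quotient_of_finiteIndex

end Pool.Agent.R639.FZ
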