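import Pool.Agent.R639.FZ.Defs

namespace Pool.Agent.R639.FZ

open Matrix

namespace FIN

/-! ### invariance under isomorphisms of groups -/

/-- transport of irreducible representations along an isomorphism of groups -/
noncomputable def tr {G H : Type} [Group G] [Group H] (e : G ≃* H) (n : ℕ) :
    AClass G n ≃ AClass H n where
  toFun := Quotient.map (fun ρ => ⟨ρ.1.comp e.symm.toMonoidHom, ρ.2.1, fun W hW =>
      ρ.2.2 W fun g w hw => by
        have := hW (e g) w hw
        simpa using this⟩)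
    (fun ρ σ h => by
      obtain ⟨P, hP⟩ := h
      exact ⟨P, fun g => hP _⟩)
  invFun := Quotient.map (fun ρ => ⟨ρ.1.comp e.toMonoidHom, ρ.2.1, fun W hW =>
      ρ.2.2 W fun g w hw => by
        have := hW (e.symm g) w hw
        simpa using this⟩)
    (fun ρ σ h => by
      obtain ⟨P, hP⟩ := h
      exact ⟨P, fun g => hP _⟩)
  left_inv := by
    intro q
    induction q using Quotient.inductionOn with
    | _ ρ =>
      refine Quotient.sound ⟨1, fun g => ?_⟩
      simp
  right_inv := by
    intro q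
    induction q using Quotient.inductionOn with
    | _ ρ =>
      refine Quotient.sound ⟨1, fun g => ?_⟩
      simp

theorem ra_congr {G H : Type} [Group G] [Group H] (e : G ≃* H) (n : ℕ) : ra G n = ra H n :=
  Nat.card_congr (tr e n)

/-- the arithmetic function of the degrees -/
noncomputable def AF (G : Type) [Group G] : ArithmeticFunction ℕ :=
  ⟨fun m => if m = 0 then 0 else ra G m, by simp⟩

theorem AF_apply (G : Type) [Group G] {m : ℕ} (hm : m ≠ 0) : AF G m = ra G m := by
  change (if m = 0 then 0 else ra G m) = _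
  rw [if_neg hm]

theorem AF_congr {G H : Type} [Group G] [Group H] (e : G ≃* H) : AF G = AF H := by
  ext m
  by_cases hm : m = 0
  · subst hm; simp
  · rw [AF_apply G hm, AF_apply H hm, ra_congr e]

theorem AF_prod (hP : S_PRODT) (G H : Type) [Group G] [Group H] [Finite G] [Finite H] :
    AF (G × H) = AF G * AF H := by
  ext m
  by_cases hm : m = 0
  · subst hm; simp
  · rw [AF_apply _ hm, hP G H m (Nat.pos_of_ne_zero hm), ArithmeticFunction.mul_apply]
    refine Finset.sum_congr rfl fun p hp => ?_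
    have h1 := (Nat.mem_divisorsAntidiagonal.1 hp)
    have h2 : p.1 ≠ 0 := by
      rintro h; rw [h, zero_mul] at h1; exact hm h1.1.symm
    have h3 : p.2 ≠ 0 := by
      rintro h; rw [h, mul_zero] at h1; exact hm h1.1.symm
    rw [AF_apply _ h2, AF_apply _ h3]

theorem AF_one (G : Type) [Group G] [Subsingleton G] : AF G = 1 := by
  have htriv : ∀ {n : ℕ} (ρ : MRep G n) (g : G), ρ g = 1 := fun ρ g => by
    rw [Subsingleton.elim g 1, map_one]
  ext m
  by_cases hm : m = 0
  · subst hm; simp
  rw [AF_apply _ hm, ArithmeticFunction.one_apply]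
  by_cases hm1 : m = 1
  · subst hm1
    rw [if_pos rfl]
    have h1 : ∀ ρ : MRep G 1, Irred ρ := by
      intro ρ
      refine ⟨one_pos, fun W _ => ?_⟩
      by_cases h : W = ⊥
      · exact Or.inl h
      · right
        obtain ⟨v, hv, hv0⟩ := Submodule.exists_mem_ne_zero_of_ne_bot h
        rw [eq_top_iff]
        intro x _
        have h0 : v 0 ≠ 0 := by
          intro h1
          apply hv0
          ext i
          rw [Subsingleton.elim i 0, h1]; rfl
        have : x = (x 0 / v 0) • v := by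
          ext i
          rw [Subsingleton.elim i 0, Pi.smul_apply, smul_eq_mul, div_mul_cancel₀ _ h0]
        rw [this]
        exact W.smul_mem _ hv
    refine Nat.card_eq_one_iff_unique.2 ⟨⟨fun q q' => ?_⟩, ⟨Quotient.mk _ ⟨1, h1 1⟩⟩⟩
    obtain ⟨ρ, rfl⟩ := Quotient.exists_rep q
    obtain ⟨σ, rfl⟩ := Quotient.exists_rep q'
    exact Quotient.sound ⟨1, fun g => by rw [htriv, htriv]; simp⟩
  · rw [if_neg hm1]
    have : IsEmpty (AClass G m) := by
      constructor
      intro q
      obtain ⟨ρ, rfl⟩ := Quotient.exists_rep q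
      have hm2 : 2 ≤ m := by omega
      let v : Fin m → ℂ := Pi.single ⟨0, by omega⟩ 1
      have hv : v ≠ 0 := by
        intro h
        have := congrFun h ⟨0, by omega⟩
        simp [v] at this
      rcases ρ.2.2 (Submodule.span ℂ {v}) (fun g w hw => by
        rw [htriv, Matrix.one_mulVec]; exact hw) with h | h
      · exact hv (Submodule.span_singleton_eq_bot.1 h)
      · have h3 : Module.finrank ℂ (Submodule.span ℂ {v}) = 1 := finrank_span_singleton hv
        rw [h, finrank_top, Module.finrank_fin_fun] at h3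
        omega
    exact Nat.card_of_isEmpty

/-- splitting off the first factor -/
def consE {n : ℕ} (H : Fin (n + 1) → Type) [∀ i, Group (H i)] :
    (∀ i, H i) ≃* H 0 × (∀ i : Fin n, H i.succ) where
  toFun := fun x => (x 0, fun i => x i.succ)
  invFun := fun p => Fin.cons p.1 p.2
  left_inv := fun x => by
    funext i
    refine Fin.cases ?_ (fun j => ?_) i
    · simp
    · simp
  right_inv := fun p => by simp
  map_mul' := fun x y => rfl

theorem AF_pi_fin (hP : S_PRODT) : ∀ (n : ℕ) (H : Fin n → Type) [∀ i, Group (H i)]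
    [∀ i, Finite (H i)], AF (∀ i, H i) = ∏ i, AF (H i)
  | 0, H, _, _ => by
    rw [AF_one, Finset.univ_eq_empty, Finset.prod_empty]
  | n + 1, H, _, _ => by
    rw [AF_congr (consE H), AF_prod hP, AF_pi_fin hP n fun i => H i.succ, Fin.prod_univ_succ]

theorem AF_pi (hP : S_PRODT) (ι : Type) [Fintype ι] (H : ι → Type) [∀ i, Group (H i)]
    [∀ i, Finite (H i)] : AF (∀ i, H i) = ∏ i, AF (H i) := by
  obtain ⟨e⟩ : Nonempty (Fin (Fintype.card ι) ≃ ι) := ⟨(Fintype.equivFin ι).symm⟩
  have e2 : (∀ i : ι, H i) ≃* (∀ j, H (e j)) :=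
    { toFun := fun x j => x (e j)
      invFun := (Equiv.piCongrLeft H e)
      left_inv := fun x => by
        funext i
        obtain ⟨j, rfl⟩ := e.surjective i
        rw [Equiv.piCongrLeft_apply_apply]
      right_inv := fun x => by
        funext j
        exact Equiv.piCongrLeft_apply_apply H e x j
      map_mul' := fun x y => rfl }
  rw [AF_congr e2, AF_pi_fin hP _ fun j => H (e j)]
  exact Equiv.prod_comp e fun i => AF (H i)

/-- the index set of the factors -/
abbrev Ix (n₁ : ℕ) (a : ℕ → ℕ) : Type := Σ n : ℕ, Fin (if n₁ ≤ n then a n else 0)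

/-- the factors -/
abbrev HH (n₁ : ℕ) (a : ℕ → ℕ) (i : Ix n₁ a) : Type := A (i.1 + 1)

theorem fst_ge {n₁ : ℕ} {a : ℕ → ℕ} (i : Ix n₁ a) : n₁ ≤ i.1 := by
  by_contra h
  have h2 : i.2.1 < (if n₁ ≤ i.1 then a i.1 else 0) := i.2.2
  have h3 : (if n₁ ≤ i.1 then a i.1 else 0) = 0 := if_neg h
  omega

theorem infinite_ix {n₁ : ℕ} {a : ℕ → ℕ} (ha : ∀ n ≥ n₁, 0 < a n) : Infinite (Ix n₁ a) := by
  refine Infinite.of_injective (fun k : ℕ => (⟨n₁ + k, ⟨0, ?_⟩⟩ : Ix n₁ a)) ?_
  · rw [if_pos (by omega)]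
    exact ha _ (by omega)
  · intro k l h
    have := congrArg Sigma.fst h
    simpa using this

/-- representations of small degree of `A (n+1)` are trivial -/
theorem small_triv (hWED : S_WED) (hBLK : S_BLK) (hTRIV : S_TRIV) {N m : ℕ}
    (h1 : ra (A N) 1 = 1) (h3 : ∀ m : ℕ, 1 < m → m ≠ N - 1 → m ^ 2 < N ^ 3 → ra (A N) m = 0)
    (hm : m < N - 1) (ρ : MRep (A N) m) (g : A N) : ρ g = 1 := by
  refine hTRIV (A N) m (fun k hk ρ hρ g => ?_) ρ g
  obtain ⟨t, d, hd⟩ := hWED (A N)
  obtain ⟨hfin, -⟩ := hBLK (A N) (Fin t) d hd k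
  by_cases hk1 : k = 1
  · subst hk1
    have h4 : Irred (1 : MRep (A N) 1) := by
      refine ⟨one_pos, fun W hW => ?_⟩
      by_cases h : W = ⊥
      · exact Or.inl h
      · right
        obtain ⟨v, hv, hv0⟩ := Submodule.exists_mem_ne_zero_of_ne_bot h
        rw [eq_top_iff]
        intro x _
        have h0 : v 0 ≠ 0 := by
          intro h1
          apply hv0
          ext i
          rw [Subsingleton.elim i 0, h1]; rfl
        have : x = (x 0 / v 0) • v := by
          ext i
          rw [Subsingleton.elim i 0, Pi.smul_apply, smul_eq_mul, div_mul_cancel₀ _ h0]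
        rw [this]
        exact W.smul_mem _ hv
    obtain ⟨h5, -⟩ := Nat.card_eq_one_iff_unique.1 h1
    have h6 : (Quotient.mk _ ⟨ρ, hρ⟩ : AClass (A N) 1) = Quotient.mk _ ⟨1, h4⟩ := h5.elim _ _
    obtain ⟨P, hP⟩ := (Quotient.exact h6 : Iso ρ 1).symm
    rw [hP g]
    change (P : Matrix (Fin 1) (Fin 1) ℂ) * 1 * ((P⁻¹ : (Matrix (Fin 1) (Fin 1) ℂ)ˣ) :
      Matrix (Fin 1) (Fin 1) ℂ) = 1
    rw [mul_one, Units.mul_inv]
  · have hk0 := hρ.1
    exfalso
    have h5 : k ^ 2 < N ^ 3 := by
      have h6 : k ^ 2 ≤ N ^ 2 := Nat.pow_le_pow_left (by omega) 2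
      have h7 : N ^ 2 < N ^ 3 := Nat.pow_lt_pow_right (by omega) (by norm_num)
      omega
    have h6 := h3 k (by omega) (by omega) h5
    have h7 : IsEmpty (AClass (A N) k) := by
      rcases Nat.card_eq_zero.1 h6 with h | h
      · exact h
      · exact absurd hfin (not_finite_iff_infinite.2 h)
    exact h7.false (Quotient.mk _ ⟨ρ, hρ⟩)

end FIN

open FIN in
theorem t_FIN (hALT : S_ALT) (hPR : S_PRODT) (hWED : S_WED) (hBLK : S_BLK) (hTRIV : S_TRIV)
    (hLIM : S_LIM) (hFAB : S_FAB) (hAR : S_ARITH) (hANA : S_ANA) : S_FIN := by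
  classical
  obtain ⟨N₀, hN₀⟩ := hALT
  obtain ⟨K, n₁, a, F, z, hK, hn₁, -, hF, hz, ha, hprod⟩ := hAR (fun n => AF (A (n + 1))) 15
    (max N₀ 10) (by
      intro n hn
      have hn10 : 10 ≤ n := le_trans (le_max_right _ _) hn
      have hnN : N₀ ≤ n := le_trans (le_max_left _ _) hn
      obtain ⟨h1, h2, h3, h4⟩ := hN₀ (n + 1) (by omega)
      refine ⟨?_, ?_, ?_, ?_⟩
      · rw [AF_apply _ one_ne_zero, h1]
      · rw [AF_apply _ (by omega)]
        simpa using h2
      · intro m hm hm' hm2
        rw [AF_apply _ (by omega)]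
        refine h3 m hm (by simpa using hm') (lt_of_lt_of_le hm2 ?_)
        exact Nat.pow_le_pow_left (by omega) 3
      · intro m hm
        rw [AF_apply _ (by omega)]
        exact h4 m hm)
  have hn10 : 10 ≤ n₁ := le_trans (le_max_right _ _) hn₁
  have hnN : N₀ ≤ n₁ := le_trans (le_max_left _ _) hn₁
  let top : ∀ i : Ix n₁ a, TopologicalSpace (HH n₁ a i) := fun i => ⊥
  have disc : ∀ i : Ix n₁ a, DiscreteTopology (HH n₁ a i) := fun i => ⟨rfl⟩
  have tg : ∀ i : Ix n₁ a, IsTopologicalGroup (HH n₁ a i) := fun i => inferInstance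
  have cpt : ∀ i : Ix n₁ a, CompactSpace (HH n₁ a i) := fun i => Finite.compactSpace
  have t2 : ∀ i : Ix n₁ a, T2Space (HH n₁ a i) := fun i => inferInstance
  have td : ∀ i : Ix n₁ a, TotallyDisconnectedSpace (HH n₁ a i) := fun i => inferInstance
  have hcls : ∀ m : ℕ, Finite (CClass (∀ i : Ix n₁ a, HH n₁ a i) m) ∧
      rc (∀ i : Ix n₁ a, HH n₁ a i) m = z m := by
    intro m
    let T : Finset (Ix n₁ a) := (Finset.range (m + 1)).sigma fun n => Finset.univ
    have hT : ∀ i : Ix n₁ a, i ∉ T → m < i.1 := by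
      intro i hi
      by_contra h
      exact hi (by simp only [T, Finset.mem_sigma, Finset.mem_range, Finset.mem_univ, and_true]
                   omega)
    obtain ⟨e⟩ := hLIM (Ix n₁ a) (HH n₁ a) T m (by
      intro i hi ρ g
      have hi1 := hT i hi
      have hi2 := fst_ge i
      obtain ⟨h1, h2, h3, h4⟩ := hN₀ (i.1 + 1) (by omega)
      exact small_triv hWED hBLK hTRIV h1 h3 (by omega) ρ g)
    obtain ⟨t, d, hd⟩ := hWED (∀ i : T, HH n₁ a i)
    obtain ⟨hfin, -⟩ := hBLK (∀ i : T, HH n₁ a i) (Fin t) d hd m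
    refine ⟨Finite.of_equiv _ e.symm, ?_⟩
    have h1 : rc (∀ i : Ix n₁ a, HH n₁ a i) m = ra (∀ i : T, HH n₁ a i) m := Nat.card_congr e
    rw [h1]
    by_cases hm : m = 0
    · subst hm
      rw [ArithmeticFunction.map_zero]
      have : IsEmpty (AClass (∀ i : T, HH n₁ a i) 0) := by
        constructor
        intro q
        obtain ⟨ρ, rfl⟩ := Quotient.exists_rep q
        exact absurd ρ.2.1 (lt_irrefl 0)
      exact Nat.card_of_isEmpty
    · rw [← AF_apply _ hm, AF_pi hPR, Finset.prod_coe_sort T fun i => AF (HH n₁ a i),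
        Finset.prod_sigma, ← hprod m m le_rfl]
      congr 1
      rw [← Finset.prod_subset (s₁ := Finset.Icc n₁ m)]
      · refine Finset.prod_congr rfl fun n hn => ?_
        rw [Finset.mem_Icc] at hn
        have e1 : (∏ s : Fin (if n₁ ≤ n then a n else 0), AF (HH n₁ a ⟨n, s⟩)) =
          ∏ _s : Fin (if n₁ ≤ n then a n else 0), AF (A (n + 1)) := rfl
        rw [e1, Finset.prod_const, Finset.card_univ, Fintype.card_fin, if_pos hn.1]
      · intro n hn
        rw [Finset.mem_Icc] at hn
        rw [Finset.mem_range]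
        omega
      · intro n hn hn'
        rw [Finset.mem_range] at hn
        rw [Finset.mem_Icc] at hn'
        have e1 : (∏ s : Fin (if n₁ ≤ n then a n else 0), AF (HH n₁ a ⟨n, s⟩)) =
          ∏ _s : Fin (if n₁ ≤ n then a n else 0), AF (A (n + 1)) := rfl
        rw [e1, Finset.prod_const, Finset.card_univ, Fintype.card_fin, if_neg (by omega), pow_zero]
  refine ⟨∀ i : Ix n₁ a, HH n₁ a i, inferInstance, inferInstance, inferInstance, inferInstance,
    inferInstance, inferInstance, ?_, ?_, fun n => (hcls n).1, ?_⟩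
  · have := infinite_ix (a := a) ha
    have h2 : ∀ i : Ix n₁ a, Nontrivial (HH n₁ a i) := by
      intro i
      have hi2 := fst_ge i
      have : Nontrivial (Fin (i.1 + 1)) := Fin.nontrivial_iff_two_le.2 (by omega)
      refine alternatingGroup.nontrivial_of_three_le_card ?_
      rw [Nat.card_eq_fintype_card, Fintype.card_fin]; omega
    exact Pi.infinite_of_left
  · refine hFAB _ _ fun i => ?_
    have hi2 := fst_ge i
    refine commutator_alternatingGroup_eq_top ?_
    rw [Nat.card_eq_fintype_card, Fintype.card_fin]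
    omega
  · obtain ⟨h1, Z, h2, h3, h4, h5⟩ := hANA K n₁ F z hK (by omega) hF hz
    have h6 : (fun n => (rc (∀ i : Ix n₁ a, HH n₁ a i) n : ℂ)) = fun n => (z n : ℂ) := by
      funext n
      rw [(hcls n).2]
    refine ⟨K + 3, ?_, Z, h2, ?_, h4, h5⟩
    · rw [h6]; exact h1
    · rw [h6]; exact h3

end Pool.Agent.R639.FZ
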