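import Pool.Agent.R639.FZ.FixCommon

set_option linter.unusedVariables false
set_option linter.unusedSectionVars false

namespace Pool.Agent.R639.FZ.FX

open Equiv Equiv.Perm

variable {N : ℕ}

theorem stab_iff (T : Finset (Fin N)) (c : Perm (Fin N)) (hT : ∀ x ∈ T, c x = x) (x : Fin N) :
    c x ∉ T ↔ x ∉ T := by
  constructor
  · intro h hx
    rw [hT x hx] at h
    exact h hx
  · intro h hx
    have h1 := hT _ hx
    have h2 := c.injective h1
    rw [h2] at hx
    exact h hx

theorem fix_conj (T : Finset (Fin N)) (c : A N) (hc : c.1.IsThreeCycle)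
    (hT : ∀ x ∈ T, c.1 x = x) (j : Fin (N / 3)) (hj : ∀ a, blk N j a ∉ T) :
    ∃ g : A N, (∀ x ∈ T, g.1 x = x) ∧
      (g * cyc N j * g⁻¹ = c ∨ g * cyc N j * g⁻¹ = c⁻¹) := by
  classical
  have hTj : ∀ x ∈ T, cycP N j x = x := by
    intro x hx
    refine cycP_of_ne j x ?_
    rintro a rfl
    exact hj a hx
  have mv : ∀ (f : Perm (Fin N)), (∀ x ∈ T, f x = x) → ∀ x, f x ≠ x → x ∉ T :=
    fun f hf x hx hxT => hx (hf x hxT)
  have hs1 := ofSubtype_subtypePerm (p := fun x => x ∉ T) (stab_iff T c.1 hT) (mv _ hT)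
  have hs2 := ofSubtype_subtypePerm (p := fun x => x ∉ T) (stab_iff T (cycP N j) hTj) (mv _ hTj)
  have ct : ∀ (f : Perm {x // x ∉ T}), (ofSubtype f).cycleType = f.cycleType :=
    fun f => cycleType_ofSubtype
  have hconj : IsConj ((cycP N j).subtypePerm (p := fun x => x ∉ T) (stab_iff T (cycP N j) hTj))
      (c.1.subtypePerm (p := fun x => x ∉ T) (stab_iff T c.1 hT)) := by
    rw [isConj_iff_cycleType_eq, ← ct, ← ct, hs1, hs2, hc.cycleType, (cycP_three j).cycleType]
  obtain ⟨π, hπ⟩ := isConj_iff.1 hconj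
  have hπ2 := congrArg ofSubtype hπ
  rw [map_mul, map_mul, map_inv, hs1, hs2] at hπ2
  set g0 : Perm (Fin N) := ofSubtype π with hg0
  have hfix : ∀ x ∈ T, g0 x = x := by
    intro x hx
    exact ofSubtype_apply_of_not_mem π (by simpa using hx)
  rcases Int.units_eq_one_or (sign g0) with hs | hs
  · exact ⟨⟨g0, mem_alternatingGroup.2 hs⟩, hfix, Or.inl (Subtype.ext hπ2)⟩
  · have hne : blk N j 0 ≠ blk N j 1 := blk_ne j _ _ (by decide)
    have hs' : sign (g0 * swap (blk N j 0) (blk N j 1)) = 1 := by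
      rw [map_mul, hs, sign_swap hne]
      rfl
    refine ⟨⟨g0 * swap (blk N j 0) (blk N j 1), mem_alternatingGroup.2 hs'⟩, ?_,
      Or.inr (Subtype.ext ?_)⟩
    · intro x hx
      show g0 (swap (blk N j 0) (blk N j 1) x) = x
      rw [swap_apply_of_ne_of_ne, hfix x hx]
      · rintro rfl
        exact hj 0 hx
      · rintro rfl
        exact hj 1 hx
    · show (g0 * swap (blk N j 0) (blk N j 1)) * cycP N j * (g0 * swap (blk N j 0) (blk N j 1))⁻¹
        = c.1⁻¹
      have h3 : (g0 * swap (blk N j 0) (blk N j 1)) * cycP N j *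
          (g0 * swap (blk N j 0) (blk N j 1))⁻¹
          = g0 * (swap (blk N j 0) (blk N j 1) * cycP N j * (swap (blk N j 0) (blk N j 1))⁻¹) *
            g0⁻¹ := by
        group
      rw [h3, swap_cycP, ← hπ2]
      group

/-- closure under the three-cycles avoiding `T` -/
theorem stab_closure {V : Type*} [AddCommGroup V] [Module ℂ V] (ρ : A N →* Module.End ℂ V) (v : V)
    (T : Finset (Fin N))
    (h : ∀ c : A N, c.1.IsThreeCycle → (∀ x ∈ T, c.1 x = x) → ρ c v = v) (g : A N)
    (hg : ∀ x ∈ T, g.1 x = x) : ρ g v = v := by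
  classical
  have mv : ∀ (f : Perm (Fin N)), (∀ x ∈ T, f x = x) → ∀ x, f x ≠ x → x ∉ T :=
    fun f hf x hx hxT => hx (hf x hxT)
  have hs1 := ofSubtype_subtypePerm (p := fun x => x ∉ T) (stab_iff T g.1 hg) (mv _ hg)
  have hmem : g.1.subtypePerm (p := fun x => x ∉ T) (stab_iff T g.1 hg) ∈
      alternatingGroup {x // x ∉ T} := by
    rw [mem_alternatingGroup, ← sign_ofSubtype, hs1]
    exact mem_alternatingGroup.1 g.2
  rw [← closure_three_cycles_eq_alternating] at hmem
  have hof : ∀ f : Perm {x // x ∉ T}, f ∈ Subgroup.closure {σ : Perm {x // x ∉ T} | IsThreeCycle σ} →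
      ofSubtype f ∈ alternatingGroup (Fin N) := by
    intro f hf
    rw [closure_three_cycles_eq_alternating, mem_alternatingGroup] at hf
    rw [mem_alternatingGroup, sign_ofSubtype, hf]
  have key : ∀ f : Perm {x // x ∉ T}, f ∈ Subgroup.closure {σ : Perm {x // x ∉ T} | IsThreeCycle σ} →
      ∀ hf' : ofSubtype f ∈ alternatingGroup (Fin N), ρ ⟨ofSubtype f, hf'⟩ v = v := by
    intro f hf
    induction hf using Subgroup.closure_induction with
    | mem x hx =>
      intro hf'
      apply h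
      · show (ofSubtype x).IsThreeCycle
        rw [IsThreeCycle, cycleType_ofSubtype]
        exact hx
      · intro y hy
        exact ofSubtype_apply_of_not_mem x (by simpa using hy)
    | one =>
      intro hf'
      have : (⟨ofSubtype (1 : Perm {x // x ∉ T}), hf'⟩ : A N) = 1 := Subtype.ext (map_one _)
      rw [this, map_one]
      rfl
    | mul x y hx hy ihx ihy =>
      intro hf'
      have e : (⟨ofSubtype (x * y), hf'⟩ : A N) = ⟨ofSubtype x, hof x hx⟩ * ⟨ofSubtype y, hof y hy⟩ :=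
        Subtype.ext (map_mul _ _ _)
      rw [e, rho_mul, ihy (hof y hy), ihx (hof x hx)]
    | inv x hx ihx =>
      intro hf'
      have e : (⟨ofSubtype x⁻¹, hf'⟩ : A N) = (⟨ofSubtype x, hof x hx⟩)⁻¹ :=
        Subtype.ext (map_inv _ _)
      rw [e]
      conv_lhs => rw [← ihx (hof x hx)]
      rw [← rho_mul, inv_mul_cancel, map_one]
      rfl
  have h2 := key _ hmem (by rw [hs1]; exact g.2)
  have h3 : (⟨ofSubtype (g.1.subtypePerm (p := fun x => x ∉ T) (stab_iff T g.1 hg)),
      (by rw [hs1]; exact g.2)⟩ : A N) = g := Subtype.ext hs1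
  rwa [h3] at h2

end Pool.Agent.R639.FZ.FX

namespace Pool.Agent.R639.FZ

open FX Equiv Equiv.Perm

theorem t_FIX (h : S_OCC1) : S_FIX := by
  classical
  intro N V _ _ ρ χ v hv hmax
  set T := (Finset.univ.filter fun x : Fin N =>
      ∃ i : Fin (N / 3), χ i ≠ 0 ∧ ∃ a : Fin 3, x = blk N i a) with hTdef
  have memT : ∀ x, x ∈ T ↔ ∃ i : Fin (N / 3), χ i ≠ 0 ∧ ∃ a : Fin 3, x = blk N i a := by
    intro x
    rw [hTdef, Finset.mem_filter]
    simp
  rw [mem_Fx]
  intro g hg
  refine stab_closure ρ v T ?_ g hg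
  intro c hc hcT
  by_contra hne
  -- a block outside the support
  have hj : ∃ j : Fin (N / 3), χ j = 0 := by
    by_contra hall
    push Not at hall
    have h1 : c.1.support ⊆ Finset.univ.filter fun x : Fin N => 3 * (N / 3) ≤ x.1 := by
      intro x hx
      rw [Finset.mem_filter]
      refine ⟨Finset.mem_univ _, ?_⟩
      by_contra hlt
      rw [not_le] at hlt
      rw [Perm.mem_support] at hx
      apply hx
      apply hcT
      rw [memT]
      have hd : x.1 / 3 < N / 3 := by omega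
      have hm : x.1 % 3 < 3 := Nat.mod_lt _ (by norm_num)
      refine ⟨⟨x.1 / 3, hd⟩, hall _, ⟨x.1 % 3, hm⟩, Fin.ext ?_⟩
      rw [blk_val]
      show x.1 = 3 * (x.1 / 3) + x.1 % 3
      omega
    have h2 : (Finset.univ.filter fun x : Fin N => 3 * (N / 3) ≤ x.1).card ≤ 2 := by
      have h3 : ((Finset.univ.filter fun x : Fin N => 3 * (N / 3) ≤ x.1).image Fin.val) ⊆
          Finset.Ico (3 * (N / 3)) N := by
        intro y hy
        rw [Finset.mem_image] at hy
        obtain ⟨x, hx, rfl⟩ := hy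
        rw [Finset.mem_filter] at hx
        rw [Finset.mem_Ico]
        exact ⟨hx.2, x.2⟩
      have h4 := Finset.card_le_card h3
      rw [Finset.card_image_of_injective _ Fin.val_injective, Nat.card_Ico] at h4
      omega
    have h5 := Finset.card_le_card h1
    rw [hc.card_support] at h5
    omega
  obtain ⟨j, hj⟩ := hj
  have hjT : ∀ a, blk N j a ∉ T := by
    intro a ha
    rw [memT] at ha
    obtain ⟨i, hi, b, hb⟩ := ha
    rw [← (blk_inj hb).1] at hi
    exact hi hj
  obtain ⟨g, hgT, hgc⟩ := fix_conj T c hc hcT j hjT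
  have hcube := three_cube c hc
  have hD : dev ρ c v ≠ 0 := fun h0 => hne (fixed_of_dev ρ c hcube v h0)
  have hgc' : dev ρ (g * cyc N j * g⁻¹) = dev ρ c := by
    rcases hgc with hgc | hgc
    · rw [hgc]
    · rw [hgc, dev_inv ρ c hcube]
  have hv2 : ρ g⁻¹ (dev ρ c v) = dev ρ (cyc N j) (ρ g⁻¹ v) := by
    rw [← hgc', rho_dev_conj]
    congr 2
    group
  have hv2ne : ρ g⁻¹ (dev ρ c v) ≠ 0 := by
    intro h0
    apply hD
    have : ρ g (ρ g⁻¹ (dev ρ c v)) = 0 := by rw [h0, map_zero]
    rwa [← rho_mul, mul_inv_cancel, map_one] at this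
  -- elements fixing `T` commute with the blocks of the support
  have hcomm : ∀ (s : A N), (∀ x ∈ T, s.1 x = x) → ∀ i, χ i ≠ 0 → cyc N i * s = s * cyc N i := by
    intro s hs i hi
    apply Subtype.ext
    have hd : Perm.Disjoint (cycP N i) s.1 := by
      intro x
      by_cases hx : ∃ a, x = blk N i a
      · right
        apply hs
        rw [memT]
        exact ⟨i, hi, hx⟩
      · left
        exact cycP_of_ne i _ fun a e => hx ⟨a, e⟩
    exact hd.commute.eq
  have hginv : ∀ x ∈ T, (g⁻¹).1 x = x := by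
    intro x hx
    show (g.1⁻¹) x = x
    rw [Perm.inv_eq_iff_eq]
    exact (hgT x hx).symm
  have heig : ∀ i, χ i ≠ 0 → ρ (cyc N i) (ρ g⁻¹ (dev ρ c v)) = om ^ (χ i).val •
      ρ g⁻¹ (dev ρ c v) := by
    intro i hi
    rw [← rho_mul, hcomm _ hginv i hi, rho_mul, rho_dev_comm ρ _ _ (hcomm c hcT i hi), hv i,
      map_smul, map_smul]
  obtain ⟨χ', hχ', hp⟩ := h N V ρ _ hv2ne
  have h1 : ∀ i, χ i ≠ 0 → χ' i = χ i := by
    intro i hi
    by_contra hne'
    exact hp i (pj_kill ρ i (χ i) (χ' i) (Ne.symm hne') _ (heig i hi))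
  have h2 : χ' j ≠ 0 := by
    intro h0
    apply hp j
    rw [h0, pj_zero, hv2, avg_dev ρ _ (cyc_cube j)]
  have h3 := hmax χ' hχ'
  have h4 : insert j (Finset.univ.filter fun i => χ i ≠ 0) ⊆
      Finset.univ.filter fun i => χ' i ≠ 0 := by
    intro x hx
    rw [Finset.mem_insert] at hx
    rw [Finset.mem_filter]
    refine ⟨Finset.mem_univ _, ?_⟩
    rcases hx with rfl | hx
    · exact h2
    · rw [Finset.mem_filter] at hx
      rw [h1 x hx.2]
      exact hx.2
  have h5 := Finset.card_le_card h4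
  rw [Finset.card_insert_of_notMem (by simp [hj])] at h5
  omega

end Pool.Agent.R639.FZ
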