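import Pool.Agent.R639.FZ.P_UNIV

/-!
# GRAPH1: the action of the symmetric group on the fixed vectors
-/

set_option autoImplicit false

namespace Pool.Agent.R639.FZ

namespace PG

open Equiv PU

variable {N : ℕ}

/-- some even permutation maps the first `k` points onto `T` -/
theorem exists_onto {k : ℕ} (hk : k + 2 ≤ N) (T : Finset (Fin N)) (hT : T.card = k) :
    ∃ g : A N, ∀ y ∈ T, ∃ x ∈ T0 N k, g.1 x = y := by
  classical
  have hc : (T0 N k).card = T.card := by rw [card_T0 (by omega), hT]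
  let e : {x // x ∈ T0 N k} ≃ {x // x ∈ T} := Finset.equivOfCardEq hc
  obtain ⟨g, hg⟩ := par (e.extendSubtype) (T0 N k) (by rw [card_T0 (by omega)]; exact hk)
  refine ⟨g, fun y hy => ?_⟩
  refine ⟨(e.symm ⟨y, hy⟩).1, (e.symm ⟨y, hy⟩).2, ?_⟩
  rw [hg _ (e.symm ⟨y, hy⟩).2, Equiv.extendSubtype_apply_of_mem _ _ (e.symm ⟨y, hy⟩).2]
  simp

theorem Fx_ne {V : Type*} [AddCommGroup V] [Module ℂ V] {k : ℕ} (hk : k + 2 ≤ N)
    {ρ : A N →* Module.End ℂ V} (h : Lvl ρ k) : ∃ u ∈ Fx ρ (T0 N k), u ≠ 0 := by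
  obtain ⟨⟨T, hT, hne⟩, _⟩ := h
  obtain ⟨v, hv, hv0⟩ := Submodule.exists_mem_ne_zero_of_ne_bot hne
  obtain ⟨g, hg⟩ := exists_onto hk T hT
  refine ⟨ρ g⁻¹ v, ?_, ?_⟩
  · intro s hs
    rw [← Module.End.mul_apply, ← map_mul]
    refine agree hv fun y hy => ?_
    obtain ⟨x, hx, rfl⟩ := hg y hy
    change s.1 (g.1⁻¹ (g.1 x)) = g.1⁻¹ (g.1 x)
    have h1 : g.1⁻¹ (g.1 x) = x := Equiv.symm_apply_apply g.1 x
    rw [h1]
    exact hs x hx
  · intro h0
    apply hv0
    have : ρ g (ρ g⁻¹ v) = v := by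
      rw [← Module.End.mul_apply, ← map_mul, mul_inv_cancel, map_one, Module.End.one_apply]
    rw [← this, h0, map_zero]

end PG

open PU PG in
theorem t_GRAPH1 (h : S_UNIV) : S_GRAPH1 := by
  intro N k hN V _ _ ρ hρ hL
  have hk2 : k + 2 ≤ N := by omega
  choose L hLift using fun σ : Equiv.Perm (Fin k) => exists_lift (N := N) hk2 σ
  set U := Fx ρ (T0 N k) with hU
  let τ : Equiv.Perm (Fin k) →* Module.End ℂ U :=
    { toFun := fun σ => (ρ (L σ)).restrict fun x hx => lift_Fx (hLift σ) hx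
      map_one' := by
        ext u
        rw [LinearMap.coe_restrict_apply]
        have h1 : ρ (L 1) u.1 = ρ 1 u.1 := agree u.2 fun x hx => by
          rw [mem_T0] at hx
          ext
          rw [hLift 1 ⟨x.1, hx⟩ x rfl]
          rfl
        rw [h1, map_one]
        rfl
      map_mul' := by
        intro σ σ'
        ext u
        rw [LinearMap.coe_restrict_apply]
        have h1 : ρ (L (σ * σ')) u.1 = ρ (L σ * L σ') u.1 := agree u.2 fun x hx => by
          rw [mem_T0] at hx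
          ext
          rw [hLift (σ * σ') ⟨x.1, hx⟩ x rfl]
          change _ = ((L σ).1 ((L σ').1 x)).1
          rw [hLift σ (σ' ⟨x.1, hx⟩) _ (hLift σ' ⟨x.1, hx⟩ x rfl)]
          rfl
        rw [h1, map_mul]
        rfl }
  have hτ : ∀ (g : A N) (σ : Equiv.Perm (Fin k)), Lifts g σ → ∀ u : U, ((τ σ u : U) : V) = ρ g u := by
    intro g σ hg u
    exact agree u.2 (agree_lift (hLift σ) hg)
  refine ⟨τ, ⟨?_, ?_⟩, hτ⟩
  · obtain ⟨u, hu, hu0⟩ := Fx_ne hk2 hL
    exact ⟨⟨⟨u, hu⟩, 0, fun h => hu0 (congrArg Subtype.val h)⟩⟩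
  · intro W hW
    by_cases hW0 : W = ⊥
    · exact Or.inl hW0
    right
    obtain ⟨w, hwW, hw0⟩ := Submodule.exists_mem_ne_zero_of_ne_bot hW0
    -- the invariant subspace generated by `W`
    set X : Submodule ℂ V := Submodule.span ℂ {x | ∃ (g : A N) (w : U), w ∈ W ∧ x = ρ g w} with hX
    have hXi : ∀ g : A N, ∀ x ∈ X, ρ g x ∈ X := by
      intro g x hx
      refine Submodule.span_induction (p := fun x _ => ρ g x ∈ X) ?_ ?_ ?_ ?_ hx
      · rintro x ⟨g', w', hw', rfl⟩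
        refine Submodule.subset_span ⟨g * g', w', hw', ?_⟩
        rw [map_mul, Module.End.mul_apply]
      · rw [map_zero]
        exact X.zero_mem
      · intro x y _ _ h1 h2
        rw [map_add]
        exact X.add_mem h1 h2
      · intro c x _ h1
        rw [map_smul]
        exact X.smul_mem c h1
    have hwX : (w : V) ∈ X := Submodule.subset_span ⟨1, w, hwW, by rw [map_one]; rfl⟩
    have hXtop : X = ⊤ := by
      rcases hρ.2 X hXi with h1 | h1
      · rw [h1, Submodule.mem_bot] at hwX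
        exact absurd (Subtype.ext hwX) hw0
      · exact h1
    have key : ∀ x ∈ X, ∃ w : U, w ∈ W ∧ prj ρ (T0 N k) x = w := by
      intro x hx
      refine Submodule.span_induction
        (p := fun x _ => ∃ w : U, w ∈ W ∧ prj ρ (T0 N k) x = w) ?_ ?_ ?_ ?_ hx
      · rintro x ⟨g, w', hw', rfl⟩
        obtain ⟨L', c, hL', hc⟩ := h N k hN g
        refine ⟨∑ σ, c σ • τ σ w', W.sum_mem fun σ _ => W.smul_mem _ (hW σ w' hw'), ?_⟩
        rw [hc V ρ hL.2 w' w'.2]
        rw [Submodule.coe_sum]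
        refine Finset.sum_congr rfl fun σ _ => ?_
        rw [Submodule.coe_smul, hτ (L' σ) σ (hL' σ) w']
      · exact ⟨0, W.zero_mem, by rw [map_zero]; rfl⟩
      · rintro x y _ _ ⟨w1, hw1, e1⟩ ⟨w2, hw2, e2⟩
        exact ⟨w1 + w2, W.add_mem hw1 hw2, by rw [map_add, e1, e2]; rfl⟩
      · rintro c x _ ⟨w1, hw1, e1⟩
        exact ⟨c • w1, W.smul_mem c hw1, by rw [map_smul, e1]; rfl⟩
    rw [Submodule.eq_top_iff']
    intro u
    obtain ⟨w', hw', e⟩ := key u.1 (by rw [hXtop]; exact Submodule.mem_top)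
    rw [prj_fix u.2] at e
    have : u = w' := Subtype.ext e
    rw [this]
    exact hw'

end Pool.Agent.R639.FZ
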