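import Pool.Agent.R639.FZ.P_GRAPH1

/-!
# GRAPH2: the representation is determined by the action on the fixed vectors
-/

set_option autoImplicit false

namespace Pool.Agent.R639.FZ

open PU PG in
theorem t_GRAPH2 (h : S_UNIV) : S_GRAPH2 := by
  intro N k hN V W _ _ _ _ ρ ρ' hρ hρ' hL hL' hex
  have hk2 : k + 2 ≤ N := by omega
  set U := Fx ρ (T0 N k) with hU
  set U' := Fx ρ' (T0 N k) with hU'
  obtain ⟨e, he⟩ := hex
  -- the graph
  set X : Submodule ℂ (V × W) := Submodule.span ℂ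
    {x | ∃ (g : A N) (u : U), x = (ρ g u, ρ' g (e u))} with hX
  have hXi : ∀ g : A N, ∀ x ∈ X, (ρ g x.1, ρ' g x.2) ∈ X := by
    intro g x hx
    refine Submodule.span_induction (p := fun x _ => (ρ g x.1, ρ' g x.2) ∈ X) ?_ ?_ ?_ ?_ hx
    · rintro x ⟨g', u, rfl⟩
      refine Submodule.subset_span ⟨g * g', u, ?_⟩
      rw [map_mul, map_mul, Module.End.mul_apply, Module.End.mul_apply]
    · simp only [Prod.fst_zero, Prod.snd_zero, map_zero]
      exact X.zero_mem
    · intro x y _ _ h1 h2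
      simp only [Prod.fst_add, Prod.snd_add, map_add]
      exact X.add_mem h1 h2
    · intro c x _ h1
      simp only [Prod.smul_fst, Prod.smul_snd, map_smul]
      exact X.smul_mem c h1
  have hbase : ∀ u : U, ((u : V), ((e u : U') : W)) ∈ X := by
    intro u
    refine Submodule.subset_span ⟨1, u, ?_⟩
    rw [map_one, map_one]
    rfl
  have key : ∀ x ∈ X, ∃ u : U, prj ρ (T0 N k) x.1 = u ∧ prj ρ' (T0 N k) x.2 = (e u : U') := by
    intro x hx
    refine Submodule.span_induction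
      (p := fun x _ => ∃ u : U, prj ρ (T0 N k) x.1 = u ∧ prj ρ' (T0 N k) x.2 = (e u : U'))
      ?_ ?_ ?_ ?_ hx
    · rintro x ⟨g, u, rfl⟩
      obtain ⟨L, c, hLi, hc⟩ := h N k hN g
      let v : Equiv.Perm (Fin k) → U := fun σ => ⟨ρ (L σ) u, lift_Fx (hLi σ) u.2⟩
      have hv : ∀ σ, ((e (v σ) : U') : W) = ρ' (L σ) (e u) := fun σ =>
        he (L σ) σ (hLi σ) u (v σ) rfl
      refine ⟨∑ σ, c σ • v σ, ?_, ?_⟩
      · rw [hc V ρ hL.2 u u.2, Submodule.coe_sum]
        refine Finset.sum_congr rfl fun σ _ => ?_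
        rw [Submodule.coe_smul]
      · rw [hc W ρ' hL'.2 (e u) (e u).2, map_sum, Submodule.coe_sum]
        refine Finset.sum_congr rfl fun σ _ => ?_
        rw [map_smul, Submodule.coe_smul, hv]
    · exact ⟨0, by simp, by simp⟩
    · rintro x y _ _ ⟨u1, a1, b1⟩ ⟨u2, a2, b2⟩
      refine ⟨u1 + u2, ?_, ?_⟩
      · rw [Prod.fst_add, map_add, a1, a2]
        rfl
      · rw [Prod.snd_add, map_add, b1, b2, map_add]
        rfl
    · rintro c x _ ⟨u1, a1, b1⟩
      refine ⟨c • u1, ?_, ?_⟩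
      · rw [Prod.smul_fst, map_smul, a1]
        rfl
      · rw [Prod.smul_snd, map_smul, b1, map_smul]
        rfl
  -- the kernels
  have hker1 : ∀ v : V, (v, (0 : W)) ∈ X → v = 0 := by
    let X1 : Submodule ℂ V := X.comap (LinearMap.inl ℂ V W)
    have hX1 : ∀ v : V, v ∈ X1 ↔ (v, (0 : W)) ∈ X := fun v => Iff.rfl
    rcases hρ.2 X1 (fun g v hv => by
      rw [hX1] at hv ⊢
      have := hXi g _ hv
      simpa using this) with h1 | h1
    · intro v hv
      rw [← hX1, h1, Submodule.mem_bot] at hv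
      exact hv
    · exfalso
      obtain ⟨u, hu, hu0⟩ := Fx_ne hk2 hL
      have h2 : (u, (0 : W)) ∈ X := by
        rw [← hX1, h1]
        exact Submodule.mem_top
      obtain ⟨u1, a1, b1⟩ := key _ h2
      simp only [map_zero] at b1
      rw [prj_fix hu] at a1
      have h3 : e u1 = 0 := Subtype.ext b1.symm
      have h4 : u1 = 0 := by
        rw [← e.symm_apply_apply u1, h3, map_zero]
      rw [h4] at a1
      exact hu0 a1
  have hker2 : ∀ w : W, ((0 : V), w) ∈ X → w = 0 := by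
    let X1 : Submodule ℂ W := X.comap (LinearMap.inr ℂ V W)
    have hX1 : ∀ v : W, v ∈ X1 ↔ ((0 : V), v) ∈ X := fun v => Iff.rfl
    rcases hρ'.2 X1 (fun g v hv => by
      rw [hX1] at hv ⊢
      have := hXi g _ hv
      simpa using this) with h1 | h1
    · intro v hv
      rw [← hX1, h1, Submodule.mem_bot] at hv
      exact hv
    · exfalso
      obtain ⟨u, hu, hu0⟩ := Fx_ne hk2 hL'
      have h2 : ((0 : V), u) ∈ X := by
        rw [← hX1, h1]
        exact Submodule.mem_top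
      obtain ⟨u1, a1, b1⟩ := key _ h2
      simp only [map_zero] at a1
      rw [prj_fix hu] at b1
      have h3 : u1 = 0 := Subtype.ext a1.symm
      rw [h3, map_zero] at b1
      exact hu0 b1
  -- the projections are onto
  have hsur1 : ∀ v : V, ∃ w : W, (v, w) ∈ X := by
    let X1 : Submodule ℂ V := X.map (LinearMap.fst ℂ V W)
    have hX1 : ∀ v : V, v ∈ X1 ↔ ∃ w : W, (v, w) ∈ X := by
      intro v
      rw [Submodule.mem_map]
      constructor
      · rintro ⟨⟨a, b⟩, hab, rfl⟩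
        exact ⟨b, hab⟩
      · rintro ⟨w, hw⟩
        exact ⟨(v, w), hw, rfl⟩
    rcases hρ.2 X1 (fun g v hv => by
      rw [hX1] at hv ⊢
      obtain ⟨w, hw⟩ := hv
      exact ⟨_, hXi g _ hw⟩) with h1 | h1
    · exfalso
      obtain ⟨u, hu, hu0⟩ := Fx_ne hk2 hL
      have h2 : u ∈ X1 := (hX1 u).2 ⟨_, hbase ⟨u, hu⟩⟩
      rw [h1, Submodule.mem_bot] at h2
      exact hu0 h2
    · intro v
      rw [← hX1, h1]
      exact Submodule.mem_top
  have hsur2 : ∀ w : W, ∃ v : V, (v, w) ∈ X := by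
    let X1 : Submodule ℂ W := X.map (LinearMap.snd ℂ V W)
    have hX1 : ∀ w : W, w ∈ X1 ↔ ∃ v : V, (v, w) ∈ X := by
      intro v
      rw [Submodule.mem_map]
      constructor
      · rintro ⟨⟨a, b⟩, hab, rfl⟩
        exact ⟨a, hab⟩
      · rintro ⟨w, hw⟩
        exact ⟨(w, v), hw, rfl⟩
    rcases hρ'.2 X1 (fun g v hv => by
      rw [hX1] at hv ⊢
      obtain ⟨w, hw⟩ := hv
      exact ⟨_, hXi g _ hw⟩) with h1 | h1
    · exfalso
      obtain ⟨u, hu, hu0⟩ := Fx_ne hk2 hL'
      have h2 : u ∈ X1 := (hX1 u).2 ⟨_, by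
        have := hbase (e.symm ⟨u, hu⟩)
        rw [e.apply_symm_apply] at this
        exact this⟩
      rw [h1, Submodule.mem_bot] at h2
      exact hu0 h2
    · intro v
      rw [← hX1, h1]
      exact Submodule.mem_top
  -- the isomorphism
  let p1 : X →ₗ[ℂ] V := (LinearMap.fst ℂ V W).comp X.subtype
  let p2 : X →ₗ[ℂ] W := (LinearMap.snd ℂ V W).comp X.subtype
  have b1 : Function.Bijective p1 := by
    constructor
    · rw [injective_iff_map_eq_zero]
      rintro ⟨⟨a, b⟩, hab⟩ h0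
      have h0' : a = 0 := h0
      subst h0'
      have := hker2 b hab
      subst this
      rfl
    · intro v
      obtain ⟨w, hw⟩ := hsur1 v
      exact ⟨⟨(v, w), hw⟩, rfl⟩
  have b2 : Function.Bijective p2 := by
    constructor
    · rw [injective_iff_map_eq_zero]
      rintro ⟨⟨a, b⟩, hab⟩ h0
      have h0' : b = 0 := h0
      subst h0'
      have := hker1 a hab
      subst this
      rfl
    · intro w
      obtain ⟨v, hv⟩ := hsur2 w
      exact ⟨⟨(v, w), hv⟩, rfl⟩
  let E1 : X ≃ₗ[ℂ] V := LinearEquiv.ofBijective p1 b1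
  let E2 : X ≃ₗ[ℂ] W := LinearEquiv.ofBijective p2 b2
  refine ⟨E1.symm.trans E2, fun g v => ?_⟩
  obtain ⟨w, hw⟩ := hsur1 v
  have h1 : E1.symm v = ⟨(v, w), hw⟩ := by
    rw [LinearEquiv.symm_apply_eq]
    rfl
  have h2 : E1.symm (ρ g v) = ⟨(ρ g v, ρ' g w), hXi g _ hw⟩ := by
    rw [LinearEquiv.symm_apply_eq]
    rfl
  rw [LinearEquiv.trans_apply, LinearEquiv.trans_apply, h1, h2]
  rfl

end Pool.Agent.R639.FZ
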