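import Pool.Agent.R639.FZ.Defs

/-!
# Project FZ (MP_810665_al): piece LIM (helper360)
-/

set_option autoImplicit false

namespace Pool.Agent.R639.FZ

namespace LimPiece

open Classical Filter Topology

section

variable {ι : Type} {H : ι → Type} [∀ i, Group (H i)]

/-- restriction to `T` -/
def res (T : Finset ι) : (∀ i, H i) →* (∀ i : T, H i) where
  toFun x i := x i
  map_one' := rfl
  map_mul' _ _ := rfl

/-- extension by one -/
noncomputable def ext (T : Finset ι) : (∀ i : T, H i) →* (∀ i, H i) where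
  toFun y i := if h : i ∈ T then y ⟨i, h⟩ else 1
  map_one' := by
    funext i
    by_cases h : i ∈ T <;> simp [h]
  map_mul' x y := by
    funext i
    by_cases h : i ∈ T <;> simp [h]

lemma res_apply (T : Finset ι) (x : ∀ i, H i) (i : T) : res T x i = x i := rfl

lemma ext_apply (T : Finset ι) (y : ∀ i : T, H i) (i : ι) :
    ext T y i = if h : i ∈ T then y ⟨i, h⟩ else 1 := rfl

lemma res_ext (T : Finset ι) (y : ∀ i : T, H i) : res T (ext T y) = y := by
  funext i
  rw [res_apply, ext_apply, dif_pos i.2]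

/-- `x` on `S` and `1` elsewhere -/
noncomputable def cut (x : ∀ i, H i) (S : Finset ι) : ∀ i, H i := fun i => if i ∈ S then x i else 1

lemma cut_insert (x : ∀ i, H i) (S : Finset ι) (a : ι) (ha : a ∉ S) :
    cut x (insert a S) = cut x S * Pi.mulSingle a (x a) := by
  funext i
  by_cases hi : i = a
  · subst hi
    simp [cut, ha]
  · simp [cut, hi, Pi.mulSingle_eq_of_ne]

variable {m : ℕ}

lemma rho_cut (T : Finset ι)
    (hH : ∀ i, i ∉ T → ∀ (ρ : MRep (H i) m) (g : H i), ρ g = 1)
    (ρ : MRep (∀ i, H i) m) (x : ∀ i, H i) (hx : ∀ i ∈ T, x i = 1) (S : Finset ι) :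
    ρ (cut x S) = 1 := by
  induction S using Finset.induction_on with
  | empty =>
    have : cut x ∅ = 1 := by funext i; simp [cut]
    rw [this, map_one]
  | insert a S ha ih =>
    rw [cut_insert x S a ha, map_mul, ih, one_mul]
    by_cases h : a ∈ T
    · rw [hx a h, Pi.mulSingle_one, map_one]
    · exact hH a h (ρ.comp (MonoidHom.mulSingle H a)) (x a)

variable [∀ i, TopologicalSpace (H i)]

lemma tendsto_cut (x : ∀ i, H i) : Tendsto (fun S => cut x S) atTop (𝓝 x) := by
  rw [tendsto_pi_nhds]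
  intro i
  refine tendsto_const_nhds.congr' ?_
  filter_upwards [eventually_ge_atTop ({i} : Finset ι)] with S hS
  have : i ∈ S := hS (Finset.mem_singleton_self i)
  simp [cut, this]

lemma rho_eq_one (T : Finset ι)
    (hH : ∀ i, i ∉ T → ∀ (ρ : MRep (H i) m) (g : H i), ρ g = 1)
    (ρ : MRep (∀ i, H i) m) (hρ : Continuous ρ) (x : ∀ i, H i) (hx : ∀ i ∈ T, x i = 1) :
    ρ x = 1 := by
  have h1 : Tendsto (fun S => ρ (cut x S)) atTop (𝓝 (ρ x)) :=
    (hρ.tendsto x).comp (tendsto_cut x)
  simp only [rho_cut T hH ρ x hx] at h1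
  exact (tendsto_nhds_unique h1 tendsto_const_nhds)

lemma rho_ext_res (T : Finset ι)
    (hH : ∀ i, i ∉ T → ∀ (ρ : MRep (H i) m) (g : H i), ρ g = 1)
    (ρ : MRep (∀ i, H i) m) (hρ : Continuous ρ) (x : ∀ i, H i) :
    ρ (ext T (res T x)) = ρ x := by
  have h1 : ρ (x * (ext T (res T x))⁻¹) = 1 := by
    refine rho_eq_one T hH ρ hρ _ fun i hi => ?_
    rw [Pi.mul_apply, Pi.inv_apply, ext_apply, dif_pos hi, res_apply, mul_inv_cancel]
  calc ρ (ext T (res T x)) = ρ (x * (ext T (res T x))⁻¹) * ρ (ext T (res T x)) := by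
        rw [h1, one_mul]
    _ = ρ x := by rw [← map_mul, inv_mul_cancel_right]

end

end LimPiece

open LimPiece in
/-- LIM: reduction of an infinite product to a finite subproduct. -/
theorem t_LIM : S_LIM := by
  intro ι H _ _ _ _ T m hH
  have hQ : DiscreteTopology (∀ i : T, H i) := inferInstance
  let e : CIrr (∀ i, H i) m ≃ AIrr (∀ i : T, H i) m :=
    { toFun := fun ρ => ⟨ρ.1.comp (ext T), ρ.2.2.1, fun W hW => ρ.2.2.2 W fun x w hw => by
        have h1 := hW (res T x) w hw
        change (ρ.1 (ext T (res T x))).mulVec w ∈ W at h1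
        rw [rho_ext_res T hH ρ.1 ρ.2.1 x] at h1
        exact h1⟩
      invFun := fun σ => ⟨σ.1.comp (res T), by
        have hres : Continuous (res T : (∀ i, H i) → (∀ i : T, H i)) :=
          continuous_pi fun i => continuous_apply (i : ι)
        exact (continuous_of_discreteTopology (f := fun y => σ.1 y)).comp hres,
        σ.2.1, fun W hW => σ.2.2 W fun y w hw => by
        have h1 := hW (ext T y) w hw
        change (σ.1 (res T (ext T y))).mulVec w ∈ W at h1
        rw [res_ext] at h1
        exact h1⟩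
      left_inv := fun ρ => by
        refine Subtype.ext (MonoidHom.ext fun x => ?_)
        exact rho_ext_res T hH ρ.1 ρ.2.1 x
      right_inv := fun σ => by
        refine Subtype.ext (MonoidHom.ext fun y => ?_)
        change σ.1 (res T (ext T y)) = σ.1 y
        rw [res_ext] }
  refine ⟨Quotient.congr e fun ρ σ => ?_⟩
  constructor
  · rintro ⟨P, hP⟩
    exact ⟨P, fun y => hP (ext T y)⟩
  · rintro ⟨P, hP⟩
    refine ⟨P, fun x => ?_⟩
    have h1 := hP (res T x)
    change σ.1 (ext T (res T x)) = _ * ρ.1 (ext T (res T x)) * _ at h1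
    rw [rho_ext_res T hH ρ.1 ρ.2.1 x, rho_ext_res T hH σ.1 σ.2.1 x] at h1
    exact h1

end Pool.Agent.R639.FZ
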