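import Pool.Agent.R639.FZ.Defs

/-!
# FZ-MOVE: moving characters by even permutations of blocks
-/

namespace Pool.Agent.R639.FZ

namespace MoveAux

open Equiv

lemma blk_eq {N : ℕ} {i j : Fin (N / 3)} {a b : Fin 3} : blk N i a = blk N j b ↔ i = j ∧ a = b := by
  constructor
  · intro h
    have h1 := congrArg Fin.val h
    simp only [blk] at h1
    have ha := a.2
    have hb := b.2
    refine ⟨Fin.ext (by omega), Fin.ext (by omega)⟩
  · rintro ⟨rfl, rfl⟩
    rfl

lemma swap3 {α : Type*} [DecidableEq α] {x y z : α} (hxy : x ≠ y) (hyz : y ≠ z) (hxz : x ≠ z) :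
    swap y x * swap x z = (swap x y * swap y z)⁻¹ := by
  rw [mul_inv_rev, swap_inv, swap_inv]
  ext w
  rw [Perm.mul_apply, Perm.mul_apply]
  by_cases h1 : w = x
  · subst h1
    rw [swap_apply_left, swap_apply_left, swap_apply_left,
      swap_apply_of_ne_of_ne hyz.symm hxz.symm]
  · by_cases h2 : w = y
    · subst h2
      rw [swap_apply_right, swap_apply_of_ne_of_ne h1 hyz, swap_apply_left,
        swap_apply_of_ne_of_ne hxy hxz]
    · by_cases h3 : w = z
      · subst h3
        rw [swap_apply_right, swap_apply_right, swap_apply_of_ne_of_ne h1 h2, swap_apply_right]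
      · rw [swap_apply_of_ne_of_ne h1 h3, swap_apply_of_ne_of_ne h2 h1,
          swap_apply_of_ne_of_ne h1 h2, swap_apply_of_ne_of_ne h2 h3]

lemma conj_cycP {N : ℕ} (g : Perm (Fin N)) (l : Fin (N / 3)) :
    g * cycP N l * g⁻¹ = swap (g (blk N l 0)) (g (blk N l 1)) *
      swap (g (blk N l 1)) (g (blk N l 2)) := by
  rw [swap_apply_apply, swap_apply_apply, cycP]
  group

lemma om_cube : om ^ 3 = 1 := by
  unfold om
  rw [← Complex.exp_nat_mul]
  have : ((3 : ℕ) : ℂ) * (2 * Real.pi * Complex.I / 3) = 2 * Real.pi * Complex.I := by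
    push_cast
    ring
  rw [this, Complex.exp_two_pi_mul_I]

lemma om_neg (a : ZMod 3) : om ^ (-a).val * om ^ a.val = 1 := by
  rw [← pow_add]
  have : (-a).val + a.val = 0 ∨ (-a).val + a.val = 3 := by
    revert a
    decide
  rcases this with h | h
  · rw [h, pow_zero]
  · rw [h, om_cube]

variable {N : ℕ} {V : Type} [AddCommGroup V] [Module ℂ V] {ρ : A N →* Module.End ℂ V}

lemma inv_eig {c : A N} {v : V} {a : ZMod 3} (h : ρ c v = om ^ a.val • v) :
    ρ c⁻¹ v = om ^ (-a).val • v := by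
  have h1 : ρ c⁻¹ (ρ c v) = v := by
    rw [← Module.End.mul_apply, ← map_mul, inv_mul_cancel, map_one, Module.End.one_apply]
  rw [h, map_smul] at h1
  calc ρ c⁻¹ v = (om ^ (-a).val * om ^ a.val) • ρ c⁻¹ v := by rw [om_neg, one_smul]
    _ = om ^ (-a).val • v := by rw [mul_smul, h1]

lemma occ_move (g : A N) {χ χ' : Fin (N / 3) → ZMod 3} (h : Occ ρ χ)
    (hc : ∀ m, ∃ l, (g * cyc N l * g⁻¹ = cyc N m ∧ χ' m = χ l) ∨
      (g * cyc N l * g⁻¹ = (cyc N m)⁻¹ ∧ χ' m = - χ l)) : Occ ρ χ' := by
  obtain ⟨v, hv, hχ⟩ := h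
  refine ⟨ρ g v, ?_, ?_⟩
  · intro h0
    apply hv
    have h1 : ρ g⁻¹ (ρ g v) = v := by
      rw [← Module.End.mul_apply, ← map_mul, inv_mul_cancel, map_one, Module.End.one_apply]
    rw [← h1, h0, map_zero]
  · intro m
    obtain ⟨l, ⟨h1, h2⟩ | ⟨h1, h2⟩⟩ := hc m
    · have h3 : cyc N m * g = g * cyc N l := by
        rw [← h1]; group
      rw [h2, ← Module.End.mul_apply, ← map_mul, h3, map_mul, Module.End.mul_apply, hχ, map_smul]
    · have h3 : cyc N m * g = g * (cyc N l)⁻¹ := by
        have h4 : cyc N m = g * (cyc N l)⁻¹ * g⁻¹ := by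
          rw [← inv_inv (cyc N m), ← h1]; group
        rw [h4]; group
      rw [h2, ← Module.End.mul_apply, ← map_mul, h3, map_mul, Module.End.mul_apply,
        inv_eig (hχ l), map_smul]

/-- the even permutation exchanging two blocks -/
def gS (N : ℕ) (i j : Fin (N / 3)) : Perm (Fin N) :=
  swap (blk N i 0) (blk N j 0) * swap (blk N i 1) (blk N j 1) * swap (blk N i 2) (blk N j 2) *
    swap (blk N i 0) (blk N i 1)

/-- the even permutation inverting two of the cycles -/
def gF (N : ℕ) (i j : Fin (N / 3)) : Perm (Fin N) :=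
  swap (blk N i 0) (blk N i 1) * swap (blk N j 0) (blk N j 1)

lemma gS_mem {i j : Fin (N / 3)} (hij : i ≠ j) : gS N i j ∈ alternatingGroup (Fin N) := by
  have h0 : blk N i 0 ≠ blk N j 0 := fun h => hij (blk_eq.1 h).1
  have h1 : blk N i 1 ≠ blk N j 1 := fun h => hij (blk_eq.1 h).1
  have h2 : blk N i 2 ≠ blk N j 2 := fun h => hij (blk_eq.1 h).1
  have h3 : blk N i 0 ≠ blk N i 1 := fun h => absurd (blk_eq.1 h).2 (by decide)
  rw [Perm.mem_alternatingGroup, gS, map_mul, map_mul, map_mul, Perm.sign_swap h0,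
    Perm.sign_swap h1, Perm.sign_swap h2, Perm.sign_swap h3]
  rfl

lemma gF_mem (i j : Fin (N / 3)) : gF N i j ∈ alternatingGroup (Fin N) := by
  have h0 : blk N i 0 ≠ blk N i 1 := fun h => absurd (blk_eq.1 h).2 (by decide)
  have h1 : blk N j 0 ≠ blk N j 1 := fun h => absurd (blk_eq.1 h).2 (by decide)
  rw [Perm.mem_alternatingGroup, gF, map_mul, Perm.sign_swap h0, Perm.sign_swap h1]
  rfl

lemma cycP_inv (l : Fin (N / 3)) : (cycP N l)⁻¹ =
    swap (blk N l 1) (blk N l 0) * swap (blk N l 0) (blk N l 2) := by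
  rw [swap3]
  · rfl
  · exact fun h => absurd (blk_eq.1 h).2 (by decide)
  · exact fun h => absurd (blk_eq.1 h).2 (by decide)
  · exact fun h => absurd (blk_eq.1 h).2 (by decide)

end MoveAux

open MoveAux Equiv in
theorem t_MOVE : S_MOVE := by
  intro N V _ _ ρ χ i j hocc hij
  have hji : j ≠ i := hij.symm
  constructor
  · classical
    refine ⟨fun l => if l = i then χ j else if l = j then - χ i else χ l,
      occ_move (⟨gS N i j, gS_mem hij⟩ : A N) hocc ?_, ?_, ?_, ?_⟩
    · intro m
      by_cases hmi : m = i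
      · subst hmi
        refine ⟨j, Or.inl ⟨?_, by simp⟩⟩
        apply Subtype.ext
        change gS N m j * cycP N j * (gS N m j)⁻¹ = cycP N m
        rw [conj_cycP, cycP]
        congr 2 <;> simp [gS, swap_apply_def, blk_eq, hij, hji]
      · by_cases hmj : m = j
        · subst hmj
          refine ⟨i, Or.inr ⟨?_, by simp [hmi]⟩⟩
          apply Subtype.ext
          change gS N i m * cycP N i * (gS N i m)⁻¹ = (cycP N m)⁻¹
          rw [conj_cycP, cycP_inv]
          congr 2 <;> simp [gS, swap_apply_def, blk_eq, hij, hji]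
        · refine ⟨m, Or.inl ⟨?_, by simp [hmi, hmj]⟩⟩
          apply Subtype.ext
          change gS N i j * cycP N m * (gS N i j)⁻¹ = cycP N m
          rw [conj_cycP]
          conv_rhs => rw [cycP]
          congr 2 <;> simp [gS, swap_apply_def, blk_eq, hmi, hmj]
    · intro l h1 h2
      simp [h1, h2]
    · simp
    · simp [hji]
  · classical
    refine occ_move (⟨gF N i j, gF_mem i j⟩ : A N) hocc ?_
    intro m
    by_cases hmi : m = i
    · subst hmi
      refine ⟨m, Or.inr ⟨?_, by simp⟩⟩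
      apply Subtype.ext
      change gF N m j * cycP N m * (gF N m j)⁻¹ = (cycP N m)⁻¹
      rw [conj_cycP, cycP_inv]
      congr 2 <;> simp [gF, swap_apply_def, blk_eq, hij, hji]
    · by_cases hmj : m = j
      · subst hmj
        refine ⟨m, Or.inr ⟨?_, by simp⟩⟩
        apply Subtype.ext
        change gF N i m * cycP N m * (gF N i m)⁻¹ = (cycP N m)⁻¹
        rw [conj_cycP, cycP_inv]
        congr 2 <;> simp [gF, swap_apply_def, blk_eq, hij, hji]
      · refine ⟨m, Or.inl ⟨?_, by simp [hmi, hmj]⟩⟩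
        apply Subtype.ext
        change gF N i j * cycP N m * (gF N i j)⁻¹ = cycP N m
        rw [conj_cycP]
        conv_rhs => rw [cycP]
        congr 2 <;> simp [gF, swap_apply_def, blk_eq, hmi, hmj]

end Pool.Agent.R639.FZ
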