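import Pool.Agent.R639.FZ.Defs

/-! # FZ-NUM: numerical lower bound -/

namespace Pool.Agent.R639.FZ

namespace NUM

theorem choose_two_le : ∀ r w : ℕ, 2 ≤ w → w + 2 ≤ r → r.choose 2 ≤ r.choose w := by
  intro r
  induction r with
  | zero => intro w h1 h2; omega
  | succ r ih =>
    intro w h1 h2
    rcases Nat.eq_or_lt_of_le h1 with h | h
    · rw [← h]
    rcases Nat.eq_or_lt_of_le h2 with h' | h'
    · have : r + 1 - w = 2 := by omega
      rw [← Nat.choose_symm (show w ≤ r + 1 by omega), this]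
    · obtain ⟨v, rfl⟩ : ∃ v, w = v + 1 := ⟨w - 1, by omega⟩
      rw [Nat.choose_succ_succ r v, Nat.choose_succ_succ r 1]
      simp only [Nat.succ_eq_add_one, Nat.reduceAdd]
      have e1 := ih v (by omega) (by omega)
      have e2 := ih (v + 1) (by omega) (by omega)
      have e3 : r.choose 1 ≤ r.choose 2 := by
        rw [Nat.choose_one_right, Nat.choose_two_right, Nat.le_div_iff_mul_le (by norm_num)]
        exact Nat.mul_le_mul_left r (by omega)
      omega

theorem two_pow_big : ∀ r : ℕ, 14 ≤ r → (3 * r + 2) ^ 2 ≤ 2 ^ (r - 2) := by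
  intro r hr
  induction r, hr using Nat.le_induction with
  | base => norm_num
  | succ r hr ih =>
    have : r + 1 - 2 = (r - 2) + 1 := by omega
    rw [this, pow_succ 2 (r - 2)]
    have h1 : (3 * (r + 1) + 2) ^ 2 ≤ 2 * (3 * r + 2) ^ 2 := by
      have : 14 * r ≤ r * r := Nat.mul_le_mul_right r hr
      nlinarith
    omega

end NUM

open NUM in
theorem t_NUM : S_NUM := by
  refine ⟨600, fun N hN w m hw hwN hch hpow => ?_⟩
  set r := N / 3 with hr
  have h1 : N ≤ 3 * r + 2 := by omega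
  have h2 : 200 ≤ r := by omega
  rcases Nat.lt_or_ge r (w + 2) with h | h
  · -- `w ≥ r - 1`
    have h3 : 2 ^ (r - 1) ≤ 2 * m := (Nat.pow_le_pow_right (by norm_num) (by omega)).trans hpow
    have h4 : 2 ^ (r - 1) = 2 ^ (r - 2) * 2 := by
      rw [← pow_succ]; congr 1; omega
    have h5 := two_pow_big r (by omega)
    have h6 : N ^ 2 ≤ m := by
      have : N ^ 2 ≤ (3 * r + 2) ^ 2 := Nat.pow_le_pow_left h1 2
      omega
    calc N ^ 3 ≤ N ^ 4 := Nat.pow_le_pow_right (by omega) (by norm_num)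
      _ = (N ^ 2) ^ 2 := by ring
      _ ≤ m ^ 2 := Nat.pow_le_pow_left h6 2
  · have h3 := (choose_two_le r w hw h).trans hch
    rw [Nat.choose_two_right] at h3
    have h4 : r * (r - 1) ≤ 2 * m + 1 := by omega
    obtain ⟨s, hs⟩ : ∃ s, r = s + 200 := ⟨r - 200, by omega⟩
    have h5 : 20 * (r * r) ≤ 41 * m := by
      rw [hs] at h4 ⊢
      have : s + 200 - 1 = s + 199 := by omega
      rw [this] at h4
      nlinarith
    have h6 : N ^ 3 ≤ (3 * r + 2) ^ 3 := Nat.pow_le_pow_left h1 3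
    have h7 : 41 ^ 2 * (3 * r + 2) ^ 3 ≤ (20 * (r * r)) ^ 2 := by
      rw [hs]
      ring_nf
      nlinarith [Nat.zero_le s, Nat.zero_le (s ^ 2), Nat.zero_le (s ^ 3), Nat.zero_le (s ^ 4)]
    have h8 : (20 * (r * r)) ^ 2 ≤ (41 * m) ^ 2 := Nat.pow_le_pow_left h5 2
    have h9 : 41 ^ 2 * N ^ 3 ≤ 41 ^ 2 * m ^ 2 := by
      calc 41 ^ 2 * N ^ 3 ≤ 41 ^ 2 * (3 * r + 2) ^ 3 := Nat.mul_le_mul_left _ h6
        _ ≤ (20 * (r * r)) ^ 2 := h7
        _ ≤ (41 * m) ^ 2 := h8
        _ = 41 ^ 2 * m ^ 2 := by ring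
    exact Nat.le_of_mul_le_mul_left h9 (by norm_num)

end Pool.Agent.R639.FZ
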