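import Mathlib
import Pool.Agent.R639.FZ.Defs

/-!
# Project FZ, piece OCC1: joint eigenvectors of the commuting three-cycles
-/

set_option linter.unusedVariables false
set_option linter.unusedSectionVars false
set_option linter.unusedSimpArgs false

namespace Pool.Agent.R639.FZ

namespace OCC1

variable {N : ℕ}

theorem om_cube : om ^ 3 = 1 := by
  rw [om, ← Complex.exp_nat_mul]
  have : ((3 : ℕ) : ℂ) * (2 * Real.pi * Complex.I / 3) = 2 * Real.pi * Complex.I := by
    push_cast
    ring
  rw [this, Complex.exp_two_pi_mul_I]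

theorem om_ne_one : om ≠ 1 := by
  intro h
  rw [om, Complex.exp_eq_one_iff] at h
  obtain ⟨n, hn⟩ := h
  have h2 : (2 * Real.pi * Complex.I : ℂ) ≠ 0 := Complex.two_pi_I_ne_zero
  have h3 : (1 : ℂ) / 3 = n := by
    have : (2 * Real.pi * Complex.I : ℂ) * (1 / 3) = (2 * Real.pi * Complex.I) * n := by
      rw [mul_comm _ (n : ℂ), ← hn]
      ring
    exact mul_left_cancel₀ h2 this
  have h4 : (1 : ℂ) = ((3 * n : ℤ) : ℂ) := by
    push_cast
    rw [← h3]
    norm_num
  have h5 : (1 : ℤ) = 3 * n := by exact_mod_cast h4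
  omega

theorem om_sum : 1 + om + om ^ 2 = 0 := by
  have h : (om - 1) * (1 + om + om ^ 2) = 0 := by
    have := om_cube
    linear_combination this
  rcases mul_eq_zero.1 h with h | h
  · exact absurd (sub_eq_zero.1 h) om_ne_one
  · exact h

theorem cycP_fix (i : Fin (N / 3)) (x : Fin N) (hx : x.1 / 3 ≠ i.1) : cycP N i x = x := by
  have h : ∀ a : Fin 3, x ≠ blk N i a := by
    intro a h
    apply hx
    rw [h]
    have := a.2
    simp only [blk]
    omega
  rw [cycP, Equiv.Perm.mul_apply, Equiv.swap_apply_of_ne_of_ne (h 1) (h 2),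
    Equiv.swap_apply_of_ne_of_ne (h 0) (h 1)]

theorem cycP_disjoint {i j : Fin (N / 3)} (h : i ≠ j) :
    Equiv.Perm.Disjoint (cycP N i) (cycP N j) := by
  intro x
  by_cases hx : x.1 / 3 = i.1
  · right
    apply cycP_fix
    intro h'
    apply h
    apply Fin.ext
    omega
  · left
    exact cycP_fix i x hx

theorem cyc_comm (i j : Fin (N / 3)) : cyc N i * cyc N j = cyc N j * cyc N i := by
  by_cases h : i = j
  · rw [h]
  · apply Subtype.ext
    exact (cycP_disjoint h).commute

theorem blk_ne (i : Fin (N / 3)) {a b : Fin 3} (h : a ≠ b) : blk N i a ≠ blk N i b := by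
  intro h'
  apply h
  have := congrArg Fin.val h'
  simp only [blk] at this
  apply Fin.ext
  omega

theorem cycP_three (i : Fin (N / 3)) : (cycP N i).IsThreeCycle := by
  have h := Equiv.Perm.isThreeCycle_swap_mul_swap_same (a := blk N i 1) (b := blk N i 0)
    (c := blk N i 2) (blk_ne i (by decide)) (blk_ne i (by decide)) (blk_ne i (by decide))
  rw [Equiv.swap_comm (blk N i 1) (blk N i 0)] at h
  exact h

theorem cyc_cube (i : Fin (N / 3)) : cyc N i * (cyc N i * cyc N i) = 1 := by
  apply Subtype.ext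
  have h := pow_orderOf_eq_one (cycP N i)
  rw [(cycP_three i).orderOf, pow_succ, pow_two, mul_assoc] at h
  exact h

variable {V : Type*} [AddCommGroup V] [Module ℂ V]

theorem rho_cube (ρ : A N →* Module.End ℂ V) (i : Fin (N / 3)) (v : V) :
    ρ (cyc N i) (ρ (cyc N i * cyc N i) v) = v := by
  rw [← Module.End.mul_apply, ← map_mul, cyc_cube, map_one]
  rfl

theorem pj_apply (ρ : A N →* Module.End ℂ V) (i : Fin (N / 3)) (a : ZMod 3) (v : V) :
    pj ρ i a v = (1 / 3 : ℂ) • (v + om ^ ((-a).val) • ρ (cyc N i) v +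
      om ^ ((-a).val * 2) • ρ (cyc N i * cyc N i) v) := by
  simp only [pj, LinearMap.smul_apply, LinearMap.add_apply, Module.End.one_apply]

theorem pj_sum (ρ : A N →* Module.End ℂ V) (i : Fin (N / 3)) (v : V) :
    pj ρ i 0 v + pj ρ i 1 v + pj ρ i 2 v = v := by
  rw [pj_apply, pj_apply, pj_apply]
  have h0 : (-(0 : ZMod 3)).val = 0 := by decide
  have h1 : (-(1 : ZMod 3)).val = 2 := by decide
  have h2 : (-(2 : ZMod 3)).val = 1 := by decide
  rw [h0, h1, h2]
  have e := om_sum
  have e3 := om_cube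
  have e4 : om ^ (2 * 2) = om := by
    have : om ^ (2 * 2) = om ^ 3 * om := by ring
    rw [this, e3, one_mul]
  rw [e4]
  generalize ρ (cyc N i) v = x
  generalize ρ (cyc N i * cyc N i) v = y
  have e5 : om ^ 2 = -1 - om := by linear_combination e
  simp only [pow_zero, zero_mul, one_smul, one_mul, pow_one]
  rw [e5]
  module

theorem rho_pj (ρ : A N →* Module.End ℂ V) (i : Fin (N / 3)) (a : ZMod 3) (v : V) :
    ρ (cyc N i) (pj ρ i a v) = om ^ a.val • pj ρ i a v := by
  rw [pj_apply]
  simp only [map_smul, map_add]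
  rw [rho_cube]
  have e : ρ (cyc N i) (ρ (cyc N i) v) = ρ (cyc N i * cyc N i) v := by
    rw [map_mul, Module.End.mul_apply]
  rw [e]
  have e1 := om_cube
  have e3 : om ^ a.val * om ^ ((-a).val) = 1 := by
    rw [← pow_add]
    have : ∀ a : ZMod 3, a.val + (-a).val = 0 ∨ a.val + (-a).val = 3 := by decide
    rcases this a with h | h
    · rw [h, pow_zero]
    · rw [h, e1]
  have e4 : om ^ ((-a).val * 2) = om ^ ((-a).val) * om ^ ((-a).val) := by
    rw [pow_mul]
    ring
  have e6 : om ^ a.val = om ^ ((-a).val) * om ^ ((-a).val) := by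
    have h3 : (om ^ ((-a).val)) ^ 3 = 1 := by
      rw [← pow_mul, mul_comm, pow_mul, e1, one_pow]
    calc om ^ a.val = om ^ a.val * (om ^ ((-a).val)) ^ 3 := by rw [h3, mul_one]
      _ = (om ^ a.val * om ^ ((-a).val)) * (om ^ ((-a).val) * om ^ ((-a).val)) := by ring
      _ = _ := by rw [e3, one_mul]
  rw [e4]
  generalize hx : om ^ ((-a).val) = t at *
  generalize hs : om ^ a.val = s at *
  generalize ρ (cyc N i) v = x
  generalize ρ (cyc N i * cyc N i) v = y
  rw [smul_comm s (1 / 3 : ℂ)]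
  congr 1
  rw [smul_add, smul_add, smul_smul, smul_smul, e3, ← mul_assoc, e3, ← e6, one_smul, one_mul]
  abel

theorem pj_comm (ρ : A N →* Module.End ℂ V) (Q : Module.End ℂ V)
    (i : Fin (N / 3)) (hQ : ∀ v, Q (ρ (cyc N i) v) = ρ (cyc N i) (Q v)) (a : ZMod 3) (v : V) :
    Q (pj ρ i a v) = pj ρ i a (Q v) := by
  rw [pj_apply, pj_apply]
  simp only [map_smul, map_add, map_mul, Module.End.mul_apply, hQ]

theorem rho_comm (ρ : A N →* Module.End ℂ V) (i j : Fin (N / 3)) (v : V) :
    ρ (cyc N i) (ρ (cyc N j) v) = ρ (cyc N j) (ρ (cyc N i) v) := by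
  rw [← Module.End.mul_apply, ← map_mul, cyc_comm, map_mul, Module.End.mul_apply]

theorem main (ρ : A N →* Module.End ℂ V) (v : V) (hv : v ≠ 0) (S : Finset (Fin (N / 3))) :
    ∃ (χ : Fin (N / 3) → ZMod 3) (Q : Module.End ℂ V), Q v ≠ 0 ∧
      (∀ j w, Q (ρ (cyc N j) w) = ρ (cyc N j) (Q w)) ∧
      (∀ i ∈ S, ρ (cyc N i) (Q v) = om ^ (χ i).val • Q v) ∧
      (∀ i ∈ S, pj ρ i (χ i) v = 0 → Q v = 0) := by
  induction S using Finset.induction_on with
  | empty =>
    exact ⟨fun _ => 0, 1, by simpa using hv, fun j w => rfl, by simp, by simp⟩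
  | insert j S hj ih =>
    obtain ⟨χ, Q, h1, h2, h3, h4⟩ := ih
    have h5 : ∃ a : ZMod 3, pj ρ j a (Q v) ≠ 0 := by
      by_contra hcon
      push Not at hcon
      apply h1
      rw [← pj_sum ρ j (Q v), hcon, hcon, hcon]
      simp
    obtain ⟨a, ha⟩ := h5
    have hc : ∀ (i : Fin (N / 3)) (w : V),
        pj ρ j a (ρ (cyc N i) w) = ρ (cyc N i) (pj ρ j a w) := by
      intro i w
      exact (pj_comm ρ (ρ (cyc N i)) j (fun w => rho_comm ρ i j w) a w).symm
    refine ⟨Function.update χ j a, pj ρ j a * Q, ha, ?_, ?_, ?_⟩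
    · intro i w
      rw [Module.End.mul_apply, Module.End.mul_apply, h2, hc]
    · intro i hi
      rw [Module.End.mul_apply]
      by_cases hij : i = j
      · subst hij
        rw [Function.update_self, rho_pj]
      · rw [Function.update_of_ne hij]
        rcases Finset.mem_insert.1 hi with h | h
        · exact absurd h hij
        · rw [← hc, h3 i h, map_smul]
    · intro i hi h
      rw [Module.End.mul_apply]
      by_cases hij : i = j
      · subst hij
        rw [Function.update_self] at h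
        rw [← pj_comm ρ Q i (h2 i) a v, h, map_zero]
      · rw [Function.update_of_ne hij] at h
        rcases Finset.mem_insert.1 hi with h' | h'
        · exact absurd h' hij
        · rw [h4 i h' h, map_zero]

end OCC1

theorem t_OCC1 : S_OCC1 := by
  intro N V _ _ ρ v hv
  obtain ⟨χ, Q, h1, h2, h3, h4⟩ := OCC1.main ρ v hv Finset.univ
  exact ⟨χ, ⟨Q v, h1, fun i => h3 i (Finset.mem_univ i)⟩,
    fun i h => h1 (h4 i (Finset.mem_univ i) h)⟩

end Pool.Agent.R639.FZ
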