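import Pool.Agent.R639.FZ.Defs

/-! Piece OCC2 of project FZ (helper91): joint eigenvectors with distinct characters are linearly
independent. -/

set_option autoImplicit false

namespace Pool.Agent.R639.FZ

namespace OCC2

/-- joint eigenvectors with distinct characters are linearly independent -/
lemma indep {V ι : Type*} [AddCommGroup V] [Module ℂ V] {α : Type*} (T : ι → Module.End ℂ V)
    (c : α → ι → ℂ) (v : α → V) (hv : ∀ a, v a ≠ 0) (hT : ∀ i a, T i (v a) = c a i • v a)
    (s : Finset α) (hc : ∀ a ∈ s, ∀ b ∈ s, c a = c b → a = b) (l : α → ℂ)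
    (h : ∑ a ∈ s, l a • v a = 0) : ∀ a ∈ s, l a = 0 := by
  classical
  induction s using Finset.induction_on generalizing l with
  | empty => simp
  | insert a₀ s ha₀ ih =>
    have hc' : ∀ a ∈ s, ∀ b ∈ s, c a = c b → a = b := fun a ha b hb =>
      hc a (Finset.mem_insert_of_mem ha) b (Finset.mem_insert_of_mem hb)
    have key : ∀ a ∈ s, l a = 0 := by
      intro a ha
      have hne : c a ≠ c a₀ := by
        intro hh
        have := hc a (Finset.mem_insert_of_mem ha) a₀ (Finset.mem_insert_self _ _) hh
        rw [this] at ha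
        exact ha₀ ha
      obtain ⟨i, hi⟩ := Function.ne_iff.1 hne
      have h1 : ∑ b ∈ s, (l b * (c b i - c a₀ i)) • v b = 0 := by
        have h2 := congrArg (fun w => T i w - c a₀ i • w) h
        simp only [map_sum, map_smul, hT, map_zero, smul_zero, sub_zero, Finset.smul_sum,
          Finset.sum_insert ha₀, map_add, smul_add] at h2
        have h3 : l a₀ • c a₀ i • v a₀ + ∑ b ∈ s, l b • c b i • v b -
            (c a₀ i • l a₀ • v a₀ + ∑ b ∈ s, c a₀ i • l b • v b)
            = ∑ b ∈ s, (l b * (c b i - c a₀ i)) • v b := by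
          rw [smul_comm (l a₀) (c a₀ i) (v a₀), add_sub_add_left_eq_sub, ← Finset.sum_sub_distrib]
          refine Finset.sum_congr rfl fun b _ => ?_
          module
        rw [← h3]
        exact h2
      have := ih hc' (fun b => l b * (c b i - c a₀ i)) h1 a ha
      rcases mul_eq_zero.1 this with h' | h'
      · exact h'
      · exact absurd (sub_eq_zero.1 h') hi
    intro a ha
    rcases Finset.mem_insert.1 ha with rfl | ha
    · rw [Finset.sum_insert ha₀, Finset.sum_eq_zero (fun b hb => by rw [key b hb, zero_smul]),
        add_zero] at h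
      rcases smul_eq_zero.1 h with h' | h'
      · exact h'
      · exact absurd h' (hv _)
    · exact key a ha

lemma om_inj {a b : ZMod 3} (h : om ^ a.val = om ^ b.val) : a = b := by
  have hp : IsPrimitiveRoot om 3 := by
    have := Complex.isPrimitiveRoot_exp 3 (by norm_num)
    simpa [om] using this
  exact ZMod.val_injective 3 (hp.pow_inj (ZMod.val_lt a) (ZMod.val_lt b) h)

end OCC2

open OCC2 in
theorem t_OCC2 : S_OCC2 := by
  intro N V _ _ _ ρ X hX
  choose! v hv0 hv using hX
  have hli : LinearIndependent ℂ (fun χ : X => v χ.1) := by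
    rw [linearIndependent_iff']
    intro s l hl
    refine indep (fun i => ρ (cyc N i)) (fun (χ : X) i => om ^ (χ.1 i).val) (fun χ : X => v χ.1)
      (fun χ => hv0 χ.1 χ.2) (fun i χ => hv χ.1 χ.2 i) s (fun a _ b _ hab => ?_) l hl
    apply Subtype.ext
    funext i
    exact om_inj (congrFun hab i)
  have := hli.fintype_card_le_finrank
  simpa using this

end Pool.Agent.R639.FZ
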