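import Pool.Agent.R639.FZ.Defs

/-! # FZ-PAIR: two disjoint three-cycles with nonzero product of deviations -/

namespace Pool.Agent.R639.FZ

open Equiv Equiv.Perm

namespace PAIR

/-- partial injections extend to even permutations -/
theorem ext {N : ℕ} (S : Finset (Fin N)) (hS : S.card + 2 ≤ N) (f : Fin N → Fin N)
    (hf : Set.InjOn f S) : ∃ g : A N, ∀ i ∈ S, g.1 i = f i := by
  classical
  obtain ⟨e, he⟩ := Finset.exists_equiv_extend_of_card_eq (α := Fin N) (β := Fin N)
    (t := Finset.univ) (by simp) (s := S) (f := f) (Finset.subset_univ _) hf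
  let g₀ : Perm (Fin N) := e.trans (Equiv.subtypeUnivEquiv (fun x => Finset.mem_univ x))
  have hg₀ : ∀ i ∈ S, g₀ i = f i := fun i hi => he i hi
  by_cases hsign : sign g₀ = 1
  · exact ⟨⟨g₀, Perm.mem_alternatingGroup.2 hsign⟩, hg₀⟩
  · have hsign' : sign g₀ = -1 := (Int.units_eq_one_or _).resolve_left hsign
    have hcard : 1 < Sᶜ.card := by
      rw [Finset.card_compl, Fintype.card_fin]; omega
    obtain ⟨a, ha, b, hb, hab⟩ := Finset.one_lt_card.1 hcard
    rw [Finset.mem_compl] at ha hb
    refine ⟨⟨g₀ * swap a b, Perm.mem_alternatingGroup.2 ?_⟩, fun i hi => ?_⟩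
    · rw [Perm.sign_mul, hsign', sign_swap hab]; rfl
    · show g₀ (swap a b i) = f i
      rw [swap_apply_of_ne_of_ne (show i ≠ a from fun h => ha (h ▸ hi))
        (show i ≠ b from fun h => hb (h ▸ hi))]
      exact hg₀ i hi

section

variable {N k : ℕ} {V : Type} [AddCommGroup V] [Module ℂ V] (ρ : A N →* Module.End ℂ V)

theorem prj_mul (T : Finset (Fin N)) (h : A N) (hh : ∀ i ∈ T, h.1 i = i) (v : V) :
    prj ρ T (ρ h v) = prj ρ T v := by
  classical
  unfold prj
  simp only [LinearMap.smul_apply, LinearMap.sum_apply]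
  congr 1
  refine Finset.sum_bij (fun g _ => g * h) ?_ ?_ ?_ ?_
  · intro g hg
    rw [Finset.mem_filter] at hg ⊢
    refine ⟨Finset.mem_univ _, fun i hi => ?_⟩
    show g.1 (h.1 i) = i
    rw [hh i hi]; exact hg.2 i hi
  · intro a _ b _ hab
    exact mul_right_cancel hab
  · intro g hg
    rw [Finset.mem_filter] at hg
    refine ⟨g * h⁻¹, ?_, by simp⟩
    rw [Finset.mem_filter]
    refine ⟨Finset.mem_univ _, fun i hi => ?_⟩
    show g.1 (h.1⁻¹ i) = i
    have : h.1⁻¹ i = i := by
      rw [Perm.inv_eq_iff_eq]; exact (hh i hi).symm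
    rw [this]; exact hg.2 i hi
  · intro g _
    rw [map_mul]; rfl

theorem prj_fix (T : Finset (Fin N)) (v : V) (hv : v ∈ Fx ρ T) : prj ρ T v = v := by
  classical
  unfold prj
  simp only [LinearMap.smul_apply, LinearMap.sum_apply]
  rw [Finset.sum_congr rfl (fun g hg => hv g (Finset.mem_filter.1 hg).2), Finset.sum_const]
  have hne : ((Finset.univ.filter fun g : A N => ∀ i ∈ T, g.1 i = i).card : ℂ) ≠ 0 := by
    rw [Nat.cast_ne_zero]
    apply Finset.card_ne_zero_of_mem (a := 1)
    rw [Finset.mem_filter]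
    exact ⟨Finset.mem_univ _, fun i _ => rfl⟩
  rw [← Nat.cast_smul_eq_nsmul ℂ, smul_smul, inv_mul_cancel₀ hne, one_smul]

open Classical in
/-- the vector `ρ(g) u` for any even `g` extending `f` on `T` -/
noncomputable def U (T : Finset (Fin N)) (u : V) (f : Fin N → Fin N) : V :=
  if h : ∃ g : A N, ∀ i ∈ T, g.1 i = f i then ρ h.choose u else 0

variable {ρ}

theorem U_eq {T : Finset (Fin N)} {u : V} (hu : u ∈ Fx ρ T) {f : Fin N → Fin N} {g : A N}
    (hg : ∀ i ∈ T, g.1 i = f i) : U ρ T u f = ρ g u := by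
  classical
  have hex : ∃ g : A N, ∀ i ∈ T, g.1 i = f i := ⟨g, hg⟩
  unfold U
  rw [dif_pos hex]
  have h1 := hex.choose_spec
  have h2 : ρ (g⁻¹ * hex.choose) u = u := by
    refine hu _ fun i hi => ?_
    show g.1⁻¹ (hex.choose.1 i) = i
    rw [h1 i hi, ← hg i hi]; simp
  have h3 : ρ g (ρ (g⁻¹ * hex.choose) u) = ρ hex.choose u := by
    rw [← Module.End.mul_apply, ← map_mul]; simp
  rw [← h3, h2]

theorem U_congr {T : Finset (Fin N)} {u : V} {f f' : Fin N → Fin N}
    (h : ∀ i ∈ T, f i = f' i) : U ρ T u f = U ρ T u f' := by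
  classical
  have : (fun g : A N => ∀ i ∈ T, g.1 i = f i) = fun g : A N => ∀ i ∈ T, g.1 i = f' i := by
    funext g
    apply propext
    constructor
    · intro hg i hi; rw [hg i hi, h i hi]
    · intro hg i hi; rw [hg i hi, h i hi]
  unfold U
  simp only [this]

theorem rho_U {T : Finset (Fin N)} {u : V} (hu : u ∈ Fx ρ T) (hT : T.card + 2 ≤ N)
    {f f' : Fin N → Fin N} (hf : Set.InjOn f T) (h : A N) (hh : ∀ i ∈ T, h.1 (f i) = f' i) :
    ρ h (U ρ T u f) = U ρ T u f' := by
  obtain ⟨g, hg⟩ := ext T hT f hf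
  rw [U_eq hu hg, U_eq hu (g := h * g) (f := f') (fun i hi => by
    show h.1 (g.1 i) = f' i
    rw [hg i hi]; exact hh i hi), map_mul]
  rfl

/-- sum-zero relations -/
theorem sum_zero {T : Finset (Fin N)} {u : V} (hu : u ∈ Fx ρ T) (hT : T.card + 2 ≤ N)
    (hk : ∀ T' : Finset (Fin N), T'.card < T.card → Fx ρ T' = ⊥)
    {i : Fin N} (hi : i ∈ T) (f : Fin N → Fin N) (hf : Set.InjOn f (T.erase i : Finset (Fin N))) :
    ∑ z ∈ ((T.erase i).image f)ᶜ, U ρ T u (Function.update f i z) = 0 := by
  classical
  set W := (T.erase i).image f with hW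
  have hcard : W.card < T.card :=
    lt_of_le_of_lt Finset.card_image_le (Finset.card_erase_lt_of_mem hi)
  have hinj : ∀ z ∈ Wᶜ, Set.InjOn (Function.update f i z) T := by
    intro z hz a ha b hb hab
    rw [Finset.mem_compl] at hz
    by_cases hai : a = i <;> by_cases hbi : b = i
    · rw [hai, hbi]
    · rw [hai, Function.update_self, Function.update_of_ne hbi] at hab
      exact absurd (Finset.mem_image.2 ⟨b, Finset.mem_erase.2 ⟨hbi, hb⟩, hab.symm⟩) hz
    · rw [hbi, Function.update_self, Function.update_of_ne hai] at hab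
      exact absurd (Finset.mem_image.2 ⟨a, Finset.mem_erase.2 ⟨hai, ha⟩, hab⟩) hz
    · rw [Function.update_of_ne hai, Function.update_of_ne hbi] at hab
      exact hf (Finset.mem_coe.2 (Finset.mem_erase.2 ⟨hai, ha⟩))
        (Finset.mem_coe.2 (Finset.mem_erase.2 ⟨hbi, hb⟩)) hab
  have hmem : ∑ z ∈ Wᶜ, U ρ T u (Function.update f i z) ∈ Fx ρ W := by
    intro h hh
    rw [map_sum]
    have hh' : ∀ j ∈ W, h.1⁻¹ j = j := by
      intro j hj
      rw [Perm.inv_eq_iff_eq]; exact (hh j hj).symm
    refine Finset.sum_bij (fun z _ => h.1 z) ?_ ?_ ?_ ?_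
    · intro z hz
      rw [Finset.mem_compl] at hz ⊢
      intro hc
      apply hz
      have h1 := hh' _ hc
      have h2 : h.1⁻¹ (h.1 z) = z := by simp
      rw [h2] at h1
      rw [h1]; exact hc
    · intro a _ b _ hab
      exact h.1.injective hab
    · intro z hz
      rw [Finset.mem_compl] at hz
      refine ⟨h.1⁻¹ z, ?_, by simp⟩
      rw [Finset.mem_compl]
      intro hc
      apply hz
      have h1 := hh _ hc
      have h2 : h.1 (h.1⁻¹ z) = z := by simp
      rw [h2] at h1
      rw [h1]; exact hc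
    · intro z hz
      refine rho_U hu hT (hinj z hz) h fun j hj => ?_
      by_cases hji : j = i
      · rw [hji, Function.update_self, Function.update_self]
      · rw [Function.update_of_ne hji, Function.update_of_ne hji]
        exact hh _ (Finset.mem_image.2 ⟨j, Finset.mem_erase.2 ⟨hji, hj⟩, rfl⟩)
  rw [hk W hcard] at hmem
  exact (Submodule.mem_bot ℂ).1 hmem

/-- moving one outer point by an element of the stabiliser of `T` -/
theorem move {T S : Finset (Fin N)} {u : V} (hu : u ∈ Fx ρ T) (hTS : T ⊆ S) (hS : S.card + 3 ≤ N)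
    {z z' : Fin N} (hz : z ∉ S) (hz' : z' ∉ S) {f f' : Fin N → Fin N} (hf : Set.InjOn f T)
    (hff : ∀ i ∈ T, (f i = z ∧ f' i = z') ∨ (f i ∈ S ∧ f' i = f i)) :
    prj ρ T (U ρ T u f') = prj ρ T (U ρ T u f) := by
  classical
  have hT : T.card + 2 ≤ N := by
    have := Finset.card_le_card hTS
    omega
  obtain ⟨h, hh⟩ := ext (insert z S) (by rw [Finset.card_insert_of_notMem hz]; omega)
    (Function.update id z z') (by
      intro a ha b hb hab
      rw [Finset.mem_coe, Finset.mem_insert] at ha hb
      by_cases h1 : a = z <;> by_cases h2 : b = z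
      · rw [h1, h2]
      · rw [h1, Function.update_self, Function.update_of_ne h2] at hab
        exact absurd (hab ▸ (hb.resolve_left h2) : z' ∈ S) hz'
      · rw [h2, Function.update_self, Function.update_of_ne h1] at hab
        exact absurd (hab ▸ (ha.resolve_left h1) : z' ∈ S) hz'
      · rw [Function.update_of_ne h1, Function.update_of_ne h2] at hab
        exact hab)
  have hS' : ∀ i ∈ S, h.1 i = i := by
    intro i hi
    rw [hh i (Finset.mem_insert_of_mem hi), Function.update_of_ne]
    · rfl
    · rintro rfl; exact hz hi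
  have h1 : ρ h (U ρ T u f) = U ρ T u f' := by
    refine rho_U hu hT hf h fun i hi => ?_
    rcases hff i hi with ⟨h1, h2⟩ | ⟨h1, h2⟩
    · rw [h1, h2, hh z (Finset.mem_insert_self _ _), Function.update_self]
    · rw [h2]; exact hS' _ h1
  rw [← h1, prj_mul ρ T h (fun i hi => hS' i (hTS hi))]

theorem card_T0 (h : k ≤ N) : (T0 N k).card = k := by
  have : T0 N k = Finset.univ.map (Fin.castLEEmb h) := by
    ext x
    simp only [T0, Finset.mem_filter, Finset.mem_univ, true_and, Finset.mem_map]
    constructor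
    · intro hx
      exact ⟨⟨x.1, hx⟩, rfl⟩
    · rintro ⟨y, rfl⟩
      exact y.2
  rw [this, Finset.card_map, Finset.card_univ, Fintype.card_fin]

end

end PAIR

open PAIR in
theorem t_PAIR : S_PAIR := by
  classical
  intro N k hN hk V _ _ ρ hlow u hu hu0
  set T := T0 N k with hTdef
  have hTcard : T.card = k := card_T0 (by omega)
  have hT2 : T.card + 2 ≤ N := by omega
  have hlow' : ∀ T' : Finset (Fin N), T'.card < T.card → Fx ρ T' = ⊥ := by
    rw [hTcard]; exact hlow
  have hmem : ∀ x : Fin N, x ∈ T ↔ x.1 < k := fun x => by simp [hTdef, T0]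
  let p0 : Fin N := ⟨0, by omega⟩
  let p1 : Fin N := ⟨1, by omega⟩
  have hp0 : p0 ∈ T := (hmem _).2 (show 0 < k by omega)
  have hp1 : p1 ∈ T := (hmem _).2 (show 1 < k by omega)
  have h01 : p0 ≠ p1 := fun h => absurd (congrArg Fin.val h) (show ¬ (0 : ℕ) = 1 by omega)
  set M : ℕ := N - k with hM
  have hM4 : 4 ≤ M := by omega
  have hTc : Tᶜ.card = M := by rw [Finset.card_compl, Fintype.card_fin, hTcard]
  have hMC : (M : ℂ) ≠ 0 := by rw [Nat.cast_ne_zero]; omega
  -- the projection
  set E := prj ρ T with hE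
  have hEu : E u = u := prj_fix ρ T u hu
  have hUid : ∀ f : Fin N → Fin N, (∀ i ∈ T, f i = i) → U ρ T u f = u := by
    intro f hf
    rw [U_eq hu (g := 1) (f := f) (fun i hi => (hf i hi).symm), map_one]; rfl
  -- injectivity of the maps which occur
  have inj1 : ∀ (p : Fin N) (z : Fin N), z ∉ T → Set.InjOn (Function.update id p z) T := by
    intro p z hz a ha b hb hab
    by_cases h1 : a = p <;> by_cases h2 : b = p
    · rw [h1, h2]
    · rw [h1, Function.update_self, Function.update_of_ne h2] at hab
      exact absurd (hab ▸ hb : z ∈ T) hz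
    · rw [h2, Function.update_self, Function.update_of_ne h1] at hab
      exact absurd (hab ▸ ha : z ∈ T) hz
    · rw [Function.update_of_ne h1, Function.update_of_ne h2] at hab
      exact hab
  have hTx : ∀ x : Fin N, x ∉ T → ∀ i ∈ T, i ≠ x := fun x hx i hi h => hx (h ▸ hi)
  -- `0 → z`
  have rel1 : ∀ p ∈ T, ∀ x ∉ T, (M : ℂ) • E (U ρ T u (Function.update id p x)) = -u := by
    intro p hp x hx
    have h := sum_zero (ρ := ρ) hu hT2 hlow' hp id (Set.injOn_id _)
    have hset : ((T.erase p).image id)ᶜ = insert p Tᶜ := by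
      ext y
      simp only [Finset.image_id, Finset.mem_compl, Finset.mem_erase, Finset.mem_insert]
      tauto
    rw [hset, Finset.sum_insert (by rw [Finset.mem_compl]; exact fun h => h hp)] at h
    rw [hUid _ (fun i _ => by
      by_cases hi : i = p
      · rw [hi, Function.update_self]
      · rw [Function.update_of_ne hi]; rfl)] at h
    have h' := congrArg E h
    rw [map_add, hEu, map_sum, map_zero] at h'
    have hs : ∑ z ∈ Tᶜ, E (U ρ T u (Function.update id p z))
        = ∑ _z ∈ Tᶜ, E (U ρ T u (Function.update id p x)) := by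
      refine Finset.sum_congr rfl fun z hz => ?_
      rw [Finset.mem_compl] at hz
      refine move hu (subset_refl T) (by omega) hx hz (inj1 p x hx) fun i hi => ?_
      by_cases hip : i = p
      · left; rw [hip, Function.update_self, Function.update_self]; exact ⟨rfl, rfl⟩
      · right; rw [Function.update_of_ne hip, Function.update_of_ne hip]; exact ⟨hi, rfl⟩
    rw [hs, Finset.sum_const, hTc, ← Nat.cast_smul_eq_nsmul ℂ] at h'
    exact (neg_eq_of_add_eq_zero_right h').symm
  -- `1 → 0, 0 → z`
  let sw : Fin N → Fin N := Function.update id p1 p0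
  have hsw1 : sw p1 = p0 := Function.update_self _ _ _
  have hswn : ∀ i, i ≠ p1 → sw i = i := fun i hi => by
    show Function.update id p1 p0 i = i
    rw [Function.update_of_ne hi]; rfl
  have injsw : ∀ z, z ∉ T.erase p1 → Set.InjOn (Function.update sw p0 z) T := by
    intro z hz a ha b hb hab
    have hv : ∀ c ∈ T, c ≠ p0 → Function.update sw p0 z c ≠ z ∧
        Function.update sw p0 z c ∈ T := by
      intro c hc hc0
      rw [Function.update_of_ne hc0]
      by_cases hc1 : c = p1
      · rw [hc1, hsw1]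
        exact ⟨fun h => hz (h ▸ Finset.mem_erase.2 ⟨h01, hp0⟩), hp0⟩
      · rw [hswn c hc1]
        exact ⟨fun h => hz (h ▸ Finset.mem_erase.2 ⟨hc1, hc⟩), hc⟩
    by_cases h1 : a = p0 <;> by_cases h2 : b = p0
    · rw [h1, h2]
    · rw [h1, Function.update_self] at hab
      exact absurd hab.symm (hv b hb h2).1
    · rw [h2, Function.update_self] at hab
      exact absurd hab (hv a ha h1).1
    · rw [Function.update_of_ne h1, Function.update_of_ne h2] at hab
      by_cases h3 : a = p1 <;> by_cases h4 : b = p1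
      · rw [h3, h4]
      · rw [h3, hsw1, hswn b h4] at hab
        exact absurd hab.symm h2
      · rw [h4, hsw1, hswn a h3] at hab
        exact absurd hab h1
      · rwa [hswn a h3, hswn b h4] at hab
  set u' : V := U ρ T u (Function.update sw p0 p1) with hu'
  have hp1e : p1 ∉ T.erase p1 := Finset.notMem_erase _ _
  have hu'fix : u' ∈ Fx ρ T := by
    intro h hh
    refine rho_U hu hT2 (injsw p1 hp1e) h fun i hi => ?_
    by_cases h0 : i = p0
    · rw [h0, Function.update_self]; exact hh p1 hp1
    · rw [Function.update_of_ne h0]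
      by_cases h1 : i = p1
      · rw [h1, hsw1]; exact hh p0 hp0
      · rw [hswn i h1]; exact hh i hi
  have hEu' : E u' = u' := prj_fix ρ T u' hu'fix
  have rel2 : ∀ x ∉ T, (M : ℂ) • E (U ρ T u (Function.update sw p0 x)) = -u' := by
    intro x hx
    have h := sum_zero (ρ := ρ) hu hT2 hlow' hp0 sw (by
      intro a ha b hb hab
      rw [Finset.mem_coe, Finset.mem_erase] at ha hb
      by_cases h3 : a = p1 <;> by_cases h4 : b = p1
      · rw [h3, h4]
      · rw [h3, hsw1, hswn b h4] at hab
        exact absurd hab.symm hb.1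
      · rw [h4, hsw1, hswn a h3] at hab
        exact absurd hab ha.1
      · rwa [hswn a h3, hswn b h4] at hab)
    have hset : ((T.erase p0).image sw)ᶜ = insert p1 Tᶜ := by
      ext y
      simp only [Finset.mem_compl, Finset.mem_image, Finset.mem_erase, Finset.mem_insert]
      constructor
      · intro hy
        by_cases hy1 : y = p1
        · exact Or.inl hy1
        · refine Or.inr fun hyT => hy ?_
          by_cases hy0 : y = p0
          · exact ⟨p1, ⟨h01.symm, hp1⟩, by rw [hsw1, hy0]⟩
          · exact ⟨y, ⟨hy0, hyT⟩, hswn y hy1⟩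
      · rintro hy ⟨a, ⟨ha0, haT⟩, hay⟩
        by_cases ha1 : a = p1
        · rw [ha1, hsw1] at hay
          rcases hy with hy | hy
          · exact h01 (hay.trans hy)
          · exact hy (hay ▸ hp0)
        · rw [hswn a ha1] at hay
          rcases hy with hy | hy
          · exact ha1 (hay.trans hy)
          · exact hy (hay ▸ haT)
    rw [hset, Finset.sum_insert (by rw [Finset.mem_compl]; exact fun h => h hp1)] at h
    have h' := congrArg E h
    rw [map_add, ← hu', hEu', map_sum, map_zero] at h'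
    have hs : ∑ z ∈ Tᶜ, E (U ρ T u (Function.update sw p0 z))
        = ∑ _z ∈ Tᶜ, E (U ρ T u (Function.update sw p0 x)) := by
      refine Finset.sum_congr rfl fun z hz => ?_
      rw [Finset.mem_compl] at hz
      refine move hu (subset_refl T) (by omega) hx hz
        (injsw x (fun h => hx (Finset.mem_of_mem_erase h))) fun i hi => ?_
      by_cases hip : i = p0
      · left; rw [hip, Function.update_self, Function.update_self]; exact ⟨rfl, rfl⟩
      · right; rw [Function.update_of_ne hip, Function.update_of_ne hip]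
        by_cases h1 : i = p1
        · rw [h1, hsw1]; exact ⟨hp0, rfl⟩
        · rw [hswn i h1]; exact ⟨hi, rfl⟩
    rw [hs, Finset.sum_const, hTc, ← Nat.cast_smul_eq_nsmul ℂ] at h'
    exact (neg_eq_of_add_eq_zero_right h').symm
  -- `0 → x, 1 → z`
  have injw : ∀ x z, x ∉ T → z ∉ T → x ≠ z →
      Set.InjOn (Function.update (Function.update id p0 x) p1 z) T := by
    intro x z hx hz hxz a ha b hb hab
    have hv : ∀ c ∈ T, c ≠ p1 → Function.update id p0 x c ≠ z := by
      intro c hc hc1
      by_cases hc0 : c = p0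
      · rw [hc0, Function.update_self]; exact hxz
      · rw [Function.update_of_ne hc0]
        exact hTx z hz c hc
    by_cases h1 : a = p1 <;> by_cases h2 : b = p1
    · rw [h1, h2]
    · rw [h1, Function.update_self, Function.update_of_ne h2] at hab
      exact absurd hab.symm (hv b hb h2)
    · rw [h2, Function.update_self, Function.update_of_ne h1] at hab
      exact absurd hab (hv a ha h1)
    · rw [Function.update_of_ne h1, Function.update_of_ne h2] at hab
      exact inj1 p0 x hx ha hb hab
  have rel3 : ∀ x z, x ∉ T → z ∉ T → x ≠ z → ((M : ℂ) * ((M : ℂ) - 1)) •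
      E (U ρ T u (Function.update (Function.update id p0 x) p1 z)) = u + u' := by
    intro x z hx hz hxz
    have h := sum_zero (ρ := ρ) hu hT2 hlow' hp1 (Function.update id p0 x)
      ((inj1 p0 x hx).mono (fun a ha => Finset.mem_of_mem_erase ha))
    have hset : ((T.erase p1).image (Function.update id p0 x))ᶜ
        = insert p0 (insert p1 (Tᶜ.erase x)) := by
      ext y
      simp only [Finset.mem_compl, Finset.mem_image, Finset.mem_erase, Finset.mem_insert]
      constructor
      · intro hy
        by_cases hy0 : y = p0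
        · exact Or.inl hy0
        by_cases hy1 : y = p1
        · exact Or.inr (Or.inl hy1)
        refine Or.inr (Or.inr ⟨?_, ?_⟩)
        · rintro rfl
          exact hy ⟨p0, ⟨h01, hp0⟩, Function.update_self _ _ _⟩
        · intro hyT
          exact hy ⟨y, ⟨hy1, hyT⟩, by rw [Function.update_of_ne hy0]; rfl⟩
      · rintro hy ⟨a, ⟨ha1, haT⟩, hay⟩
        by_cases ha0 : a = p0
        · rw [ha0, Function.update_self] at hay
          rcases hy with hy | hy | hy
          · exact hx (by rw [hay, hy]; exact hp0)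
          · exact hx (by rw [hay, hy]; exact hp1)
          · exact hy.1 hay.symm
        · rw [Function.update_of_ne ha0] at hay
          have hay' : a = y := hay
          rcases hy with hy | hy | hy
          · exact ha0 (hay'.trans hy)
          · exact ha1 (hay'.trans hy)
          · exact hy.2 (hay' ▸ haT)
    rw [hset, Finset.sum_insert (by
        rw [Finset.mem_insert, Finset.mem_erase, Finset.mem_compl]
        rintro (h | h)
        · exact h01 h
        · exact h.2 hp0), Finset.sum_insert (by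
        rw [Finset.mem_erase, Finset.mem_compl]
        exact fun h => h.2 hp1)] at h
    have e1 : Function.update (Function.update id p0 x) p1 p0 = Function.update sw p0 x :=
      Function.update_comm h01 _ _ _
    have e2 : Function.update (Function.update id p0 x) p1 p1 = Function.update id p0 x := by
      funext i
      by_cases hi : i = p1
      · rw [hi, Function.update_self, Function.update_of_ne h01.symm]; rfl
      · rw [Function.update_of_ne hi]
    rw [e1, e2] at h
    have h' := congrArg E h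
    rw [map_add, map_add, map_sum, map_zero] at h'
    have hs : ∑ y ∈ Tᶜ.erase x, E (U ρ T u (Function.update (Function.update id p0 x) p1 y))
        = ∑ _y ∈ Tᶜ.erase x,
          E (U ρ T u (Function.update (Function.update id p0 x) p1 z)) := by
      refine Finset.sum_congr rfl fun y hy => ?_
      rw [Finset.mem_erase, Finset.mem_compl] at hy
      refine move hu (S := insert x T) (Finset.subset_insert _ _)
        (by rw [Finset.card_insert_of_notMem hx]; omega) (z := z) (z' := y)
        (by rw [Finset.mem_insert]; rintro (h | h); exacts [hxz h.symm, hz h])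
        (by rw [Finset.mem_insert]; rintro (h | h); exacts [hy.1 h, hy.2 h])
        (injw x z hx hz hxz) fun i hi => ?_
      by_cases hi1 : i = p1
      · left; rw [hi1, Function.update_self, Function.update_self]; exact ⟨rfl, rfl⟩
      · right; rw [Function.update_of_ne hi1, Function.update_of_ne hi1]
        refine ⟨?_, rfl⟩
        by_cases hi0 : i = p0
        · rw [hi0, Function.update_self]; exact Finset.mem_insert_self _ _
        · rw [Function.update_of_ne hi0]; exact Finset.mem_insert_of_mem hi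
    have hcard : (Tᶜ.erase x).card = M - 1 := by
      rw [Finset.card_erase_of_mem (Finset.mem_compl.2 hx), hTc]
    rw [hs, Finset.sum_const, hcard, ← Nat.cast_smul_eq_nsmul ℂ,
      Nat.cast_sub (by omega), Nat.cast_one] at h'
    have r1 := rel1 p0 hp0 x hx
    have r2 := rel2 x hx
    linear_combination (norm := module) (M : ℂ) • h' - r1 - r2
  -- the four outer points
  let x1 : Fin N := ⟨k, by omega⟩
  let y1 : Fin N := ⟨k + 1, by omega⟩
  let x2 : Fin N := ⟨k + 2, by omega⟩
  let y2 : Fin N := ⟨k + 3, by omega⟩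
  have hx1 : x1 ∉ T := fun h => by have := (hmem x1).1 h; simp [x1] at this
  have hy1 : y1 ∉ T := fun h => by have := (hmem y1).1 h; simp [y1] at this
  have hx2 : x2 ∉ T := fun h => by have := (hmem x2).1 h; simp [x2] at this
  have hy2 : y2 ∉ T := fun h => by have := (hmem y2).1 h; simp [y2] at this
  have nxy1 : x1 ≠ y1 := fun h => by have := congrArg Fin.val h; simp [x1, y1] at this
  have nxx : x1 ≠ x2 := fun h => by have := congrArg Fin.val h; simp [x1, x2] at this
  have nx1y2 : x1 ≠ y2 := fun h => by have := congrArg Fin.val h; simp [x1, y2] at this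
  have ny1x2 : y1 ≠ x2 := fun h => by have := congrArg Fin.val h; simp [y1, x2] at this
  have nyy : y1 ≠ y2 := fun h => by have := congrArg Fin.val h; simp [y1, y2] at this
  have nxy2 : x2 ≠ y2 := fun h => by have := congrArg Fin.val h; simp [x2, y2] at this
  have n0 : ∀ x, x ∉ T → p0 ≠ x := fun x hx h => hx (h ▸ hp0)
  have n1 : ∀ x, x ∉ T → p1 ≠ x := fun x hx h => hx (h ▸ hp1)
  -- three-cycles
  have tc : ∀ p x y : Fin N, p ≠ x → p ≠ y → x ≠ y →
      (swap p y * swap p x).IsThreeCycle ∧ (swap p y * swap p x) p = x ∧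
      (swap p y * swap p x) x = y ∧ (swap p y * swap p x) y = p ∧
      ∀ z, z ≠ p → z ≠ x → z ≠ y → (swap p y * swap p x) z = z := by
    intro p x y hpx hpy hxy
    refine ⟨isThreeCycle_swap_mul_swap_same hpy hpx hxy.symm, ?_, ?_, ?_, ?_⟩
    · rw [Perm.mul_apply, swap_apply_left, swap_apply_of_ne_of_ne hpx.symm hxy]
    · rw [Perm.mul_apply, swap_apply_right, swap_apply_left]
    · rw [Perm.mul_apply, swap_apply_of_ne_of_ne hpy.symm hxy.symm, swap_apply_right]
    · intro z h1 h2 h3
      rw [Perm.mul_apply, swap_apply_of_ne_of_ne h1 h2, swap_apply_of_ne_of_ne h1 h3]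
  obtain ⟨tc1, c1p, c1x, c1y, c1z⟩ := tc p0 x1 y1 (n0 x1 hx1) (n0 y1 hy1) nxy1
  obtain ⟨tc2, c2p, c2x, c2y, c2z⟩ := tc p1 x2 y2 (n1 x2 hx2) (n1 y2 hy2) nxy2
  let c1 : A N := ⟨swap p0 y1 * swap p0 x1, tc1.mem_alternatingGroup⟩
  let c2 : A N := ⟨swap p1 y2 * swap p1 x2, tc2.mem_alternatingGroup⟩
  refine ⟨c1, c2, tc1, tc2, ?_, ?_⟩
  · -- disjoint
    intro z
    by_cases h1 : z = p0
    · right; rw [h1]; exact c2z p0 h01 (n0 x2 hx2) (n0 y2 hy2)
    by_cases h2 : z = x1
    · right; rw [h2]; exact c2z x1 (n1 x1 hx1).symm nxx nx1y2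
    by_cases h3 : z = y1
    · right; rw [h3]; exact c2z y1 (n1 y1 hy1).symm ny1x2 nyy
    · left; exact c1z z h1 h2 h3
  intro hdev
  -- the values
  have act : ∀ (p x y : Fin N) (c : A N), p ∈ T → x ∉ T → y ∉ T → c.1 p = x → c.1 x = y →
      (∀ z, z ≠ p → z ≠ x → z ≠ y → c.1 z = z) →
      (∀ i ∈ T, c.1 i = Function.update id p x i) ∧
      (∀ i ∈ T, (c * c).1 i = Function.update id p y i) := by
    intro p x y c hp hx hy h1 h2 h3
    have e1 : ∀ i ∈ T, c.1 i = Function.update id p x i := by
      intro i hi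
      by_cases hip : i = p
      · rw [hip, Function.update_self, h1]
      · rw [Function.update_of_ne hip, h3 i hip (hTx x hx i hi) (hTx y hy i hi)]; rfl
    refine ⟨e1, fun i hi => ?_⟩
    show c.1 (c.1 i) = _
    by_cases hip : i = p
    · rw [hip, Function.update_self, h1, h2]
    · rw [Function.update_of_ne hip, h3 i hip (hTx x hx i hi) (hTx y hy i hi),
        h3 i hip (hTx x hx i hi) (hTx y hy i hi)]; rfl
  obtain ⟨a1, a2⟩ := act p0 x1 y1 c1 hp0 hx1 hy1 c1p c1x c1z
  obtain ⟨b1, b2⟩ := act p1 x2 y2 c2 hp1 hx2 hy2 c2p c2x c2z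
  have A1 : ρ c1 u = U ρ T u (Function.update id p0 x1) := (U_eq hu a1).symm
  have A2 : ρ (c1 * c1) u = U ρ T u (Function.update id p0 y1) := (U_eq hu a2).symm
  have B1 : ρ c2 u = U ρ T u (Function.update id p1 x2) := (U_eq hu b1).symm
  have B2 : ρ (c2 * c2) u = U ρ T u (Function.update id p1 y2) := (U_eq hu b2).symm
  have mix : ∀ (c : A N) (x z : Fin N), z ∉ T → c.1 z = z →
      (∀ i ∈ T, c.1 i = Function.update id p0 x i) →
      ρ c (U ρ T u (Function.update id p1 z))
        = U ρ T u (Function.update (Function.update id p0 x) p1 z) := by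
    intro c x z hz hcz hc
    refine rho_U hu hT2 (inj1 p1 z hz) c fun i hi => ?_
    by_cases hi1 : i = p1
    · rw [hi1, Function.update_self, Function.update_self, hcz]
    · rw [Function.update_of_ne hi1, Function.update_of_ne hi1]
      exact hc i hi
  have c1x2 : c1.1 x2 = x2 := c1z x2 (n0 x2 hx2).symm nxx.symm ny1x2.symm
  have c1y2 : c1.1 y2 = y2 := c1z y2 (n0 y2 hy2).symm nx1y2.symm nyy.symm
  have c1c1x2 : (c1 * c1).1 x2 = x2 := by
    show c1.1 (c1.1 x2) = x2
    rw [c1x2, c1x2]
  have c1c1y2 : (c1 * c1).1 y2 = y2 := by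
    show c1.1 (c1.1 y2) = y2
    rw [c1y2, c1y2]
  have C1 := mix c1 x1 x2 hx2 c1x2 a1
  have C2 := mix c1 x1 y2 hy2 c1y2 a1
  have C3 := mix (c1 * c1) y1 x2 hx2 c1c1x2 a2
  have C4 := mix (c1 * c1) y1 y2 hy2 c1c1y2 a2
  have hD : (9 : ℂ) • dev ρ c1 (dev ρ c2 u)
      = (4 : ℂ) • u - (2 : ℂ) • (U ρ T u (Function.update id p1 x2)
          + U ρ T u (Function.update id p1 y2))
        - (2 : ℂ) • (U ρ T u (Function.update id p0 x1) + U ρ T u (Function.update id p0 y1))
        + (U ρ T u (Function.update (Function.update id p0 x1) p1 x2)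
          + U ρ T u (Function.update (Function.update id p0 x1) p1 y2)
          + U ρ T u (Function.update (Function.update id p0 y1) p1 x2)
          + U ρ T u (Function.update (Function.update id p0 y1) p1 y2)) := by
    have e : ∀ (c : A N) (v : V),
        dev ρ c v = v - (1 / 3 : ℂ) • (v + ρ c v + ρ (c * c) v) := fun c v => rfl
    rw [e c2 u, B1, B2, e c1]
    simp only [map_sub, map_add, map_smul]
    rw [A1, A2, C1, C2, C3, C4]
    module
  rw [hdev, smul_zero] at hD
  have hED := congrArg E hD
  simp only [map_sub, map_add, map_smul, map_zero, hEu] at hED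
  have q1 := rel1 p1 hp1 x2 hx2
  have q2 := rel1 p1 hp1 y2 hy2
  have q3 := rel1 p0 hp0 x1 hx1
  have q4 := rel1 p0 hp0 y1 hy1
  have q5 := rel3 x1 x2 hx1 hx2 nxx
  have q6 := rel3 x1 y2 hx1 hy2 nx1y2
  have q7 := rel3 y1 x2 hy1 hx2 ny1x2
  have q8 := rel3 y1 y2 hy1 hy2 nyy
  have hfin : u' = (-((M : ℂ) ^ 2 + M - 1)) • u := by
    linear_combination (norm := module) (-(M : ℂ) * (M - 1) / 4) • hED
      + ((M - 1 : ℂ) / 2) • (q1 + q2 + q3 + q4) - (1 / 4 : ℂ) • (q5 + q6 + q7 + q8)
  -- contradiction
  obtain ⟨g, hg⟩ := ext T hT2 (Function.update sw p0 p1) (injsw p1 hp1e)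
  have hgu : ρ g u = (-((M : ℂ) ^ 2 + M - 1)) • u := by
    rw [← hfin, hu', U_eq hu hg]
  set lam : ℂ := -((M : ℂ) ^ 2 + M - 1) with hlam
  have hpow : ∀ n : ℕ, ρ (g ^ n) u = lam ^ n • u := by
    intro n
    induction n with
    | zero => simp
    | succ n ih =>
      rw [pow_succ, map_mul, Module.End.mul_apply, hgu, map_smul, ih, smul_smul, pow_succ,
        mul_comm]
  have h1 := hpow (orderOf g)
  rw [pow_orderOf_eq_one, map_one, Module.End.one_apply] at h1
  have h2 : (lam ^ orderOf g - 1) • u = 0 := by rw [sub_smul, one_smul, ← h1, sub_self]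
  have h3 : lam ^ orderOf g = 1 := by
    rcases smul_eq_zero.1 h2 with h | h
    · exact sub_eq_zero.1 h
    · exact absurd h hu0
  have h4 : ‖lam‖ ^ orderOf g = 1 := by rw [← norm_pow, h3, norm_one]
  have h5 : ‖lam‖ = 1 :=
    (pow_eq_one_iff_of_nonneg (norm_nonneg _) (orderOf_pos g).ne').1 h4
  have h6 : lam = ((-((M : ℝ) ^ 2 + M - 1) : ℝ) : ℂ) := by rw [hlam]; push_cast; ring
  rw [h6, Complex.norm_real, Real.norm_eq_abs, abs_neg] at h5
  have hMr : (4 : ℝ) ≤ M := by exact_mod_cast hM4
  rw [abs_of_pos (by nlinarith)] at h5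
  nlinarith

end Pool.Agent.R639.FZ
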