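import Pool.Agent.R639.FZ.FixCommon

set_option linter.unusedVariables false
set_option linter.unusedSectionVars false

namespace Pool.Agent.R639.FZ.FX

open Equiv Equiv.Perm

theorem conj_aux {N : ℕ} (i j : Fin (N / 3)) (hij : i ≠ j) (π : Perm (Fin N)) (c₁ c₂ : A N)
    (h1 : π * c₁.1 * π⁻¹ = cycP N i) (h2 : π * c₂.1 * π⁻¹ = cycP N j) :
    ∃ g : A N, (g * c₁ * g⁻¹ = cyc N i ∨ g * c₁ * g⁻¹ = (cyc N i)⁻¹) ∧
      (g * c₂ * g⁻¹ = cyc N j ∨ g * c₂ * g⁻¹ = (cyc N j)⁻¹) := by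
  rcases Int.units_eq_one_or (sign π) with hs | hs
  · refine ⟨⟨π, mem_alternatingGroup.2 hs⟩, Or.inl (Subtype.ext h1), Or.inl (Subtype.ext h2)⟩
  · have hne : blk N i 0 ≠ blk N i 1 := blk_ne i _ _ (by decide)
    have hs' : sign (swap (blk N i 0) (blk N i 1) * π) = 1 := by
      rw [map_mul, hs, sign_swap hne]
      rfl
    refine ⟨⟨swap (blk N i 0) (blk N i 1) * π, mem_alternatingGroup.2 hs'⟩,
      Or.inr (Subtype.ext ?_), Or.inl (Subtype.ext ?_)⟩
    · show (swap (blk N i 0) (blk N i 1) * π) * c₁.1 * (swap (blk N i 0) (blk N i 1) * π)⁻¹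
        = (cycP N i)⁻¹
      rw [← swap_cycP, ← h1]
      group
    · show (swap (blk N i 0) (blk N i 1) * π) * c₂.1 * (swap (blk N i 0) (blk N i 1) * π)⁻¹
        = cycP N j
      have hd : Perm.Disjoint (swap (blk N i 0) (blk N i 1)) (cycP N j) := by
        intro x
        by_cases hx : ∃ a, x = blk N j a
        · obtain ⟨a, rfl⟩ := hx
          left
          exact swap_apply_of_ne_of_ne (fun e => hij (blk_inj e).1.symm)
            (fun e => hij (blk_inj e).1.symm)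
        · right
          exact cycP_of_ne j _ fun a e => hx ⟨a, e⟩
      have h3 : (swap (blk N i 0) (blk N i 1) * π) * c₂.1 * (swap (blk N i 0) (blk N i 1) * π)⁻¹
          = swap (blk N i 0) (blk N i 1) * (π * c₂.1 * π⁻¹) * (swap (blk N i 0) (blk N i 1))⁻¹ := by
        group
      rw [h3, h2, hd.commute.eq, mul_inv_cancel_right]

theorem pair_conj {N : ℕ} (c₁ c₂ : A N) (h1 : c₁.1.IsThreeCycle) (h2 : c₂.1.IsThreeCycle)
    (hd : Perm.Disjoint c₁.1 c₂.1) :
    ∃ (i j : Fin (N / 3)) (g : A N), i ≠ j ∧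
      (g * c₁ * g⁻¹ = cyc N i ∨ g * c₁ * g⁻¹ = (cyc N i)⁻¹) ∧
      (g * c₂ * g⁻¹ = cyc N j ∨ g * c₂ * g⁻¹ = (cyc N j)⁻¹) := by
  have hN : 6 ≤ N := by
    have h3 : (c₁.1 * c₂.1).support.card = 6 := by
      rw [hd.card_support_mul, h1.card_support, h2.card_support]
    have h4 : (c₁.1 * c₂.1).support.card ≤ Fintype.card (Fin N) := Finset.card_le_univ _
    rw [h3, Fintype.card_fin] at h4
    exact h4
  have hN2 : 1 < N / 3 := by omega
  set i : Fin (N / 3) := ⟨0, by omega⟩ with hi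
  set j : Fin (N / 3) := ⟨1, hN2⟩ with hj
  have hij : i ≠ j := by
    intro h
    have := congrArg Fin.val h
    simp [hi, hj] at this
  have hconj : IsConj (c₁.1 * c₂.1) (cycP N i * cycP N j) := by
    rw [isConj_iff_cycleType_eq, hd.cycleType_mul, (cycP_disj i j hij).cycleType_mul, h1.cycleType,
      h2.cycleType, (cycP_three i).cycleType, (cycP_three j).cycleType]
  obtain ⟨π, hπ⟩ := isConj_iff.1 hconj
  have hf : (cycP N i * cycP N j).cycleFactorsFinset = {cycP N i, cycP N j} := by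
    rw [(cycP_disj i j hij).cycleFactorsFinset_mul_eq_union,
      (cycP_three i).isCycle.cycleFactorsFinset_eq_singleton,
      (cycP_three j).isCycle.cycleFactorsFinset_eq_singleton]
    rfl
  have hf' : (c₁.1 * c₂.1).cycleFactorsFinset = {c₁.1, c₂.1} := by
    rw [hd.cycleFactorsFinset_mul_eq_union,
      h1.isCycle.cycleFactorsFinset_eq_singleton,
      h2.isCycle.cycleFactorsFinset_eq_singleton]
    rfl
  have m1 : π * c₁.1 * π⁻¹ ∈ (π * (c₁.1 * c₂.1) * π⁻¹).cycleFactorsFinset := by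
    rw [mem_cycleFactorsFinset_conj, hf']
    simp
  have m2 : π * c₂.1 * π⁻¹ ∈ (π * (c₁.1 * c₂.1) * π⁻¹).cycleFactorsFinset := by
    rw [mem_cycleFactorsFinset_conj, hf']
    simp
  rw [hπ, hf, Finset.mem_insert, Finset.mem_singleton] at m1 m2
  have hne : π * c₁.1 * π⁻¹ ≠ π * c₂.1 * π⁻¹ := by
    intro h
    have h3 : c₁.1 = c₂.1 := by
      have := mul_right_cancel h
      exact mul_left_cancel this
    rw [h3] at hd
    have h4 := (Perm.disjoint_refl_iff).1 hd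
    exact h2.ne_one h4
  rcases m1 with m1 | m1 <;> rcases m2 with m2 | m2
  · exact absurd (m1.trans m2.symm) hne
  · obtain ⟨g, hg⟩ := conj_aux i j hij π c₁ c₂ m1 m2
    exact ⟨i, j, g, hij, hg⟩
  · obtain ⟨g, hg⟩ := conj_aux j i hij.symm π c₁ c₂ m1 m2
    exact ⟨j, i, g, hij.symm, hg⟩
  · exact absurd (m1.trans m2.symm) hne

end Pool.Agent.R639.FZ.FX

namespace Pool.Agent.R639.FZ

open FX

theorem t_PAIRT (h : S_OCC1) : S_PAIRT := by
  intro N V _ _ ρ c₁ c₂ u h1 h2 hd hne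
  obtain ⟨i, j, g, hij, hg1, hg2⟩ := pair_conj c₁ c₂ h1 h2 hd
  have e1 : dev ρ (g * c₁ * g⁻¹) = dev ρ (cyc N i) := by
    rcases hg1 with hg1 | hg1
    · rw [hg1]
    · rw [hg1, dev_inv ρ _ (cyc_cube i)]
  have e2 : dev ρ (g * c₂ * g⁻¹) = dev ρ (cyc N j) := by
    rcases hg2 with hg2 | hg2
    · rw [hg2]
    · rw [hg2, dev_inv ρ _ (cyc_cube j)]
  have key : ρ g (dev ρ c₁ (dev ρ c₂ u)) = dev ρ (cyc N i) (dev ρ (cyc N j) (ρ g u)) := by
    rw [rho_dev_conj, rho_dev_conj, e1, e2]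
  have hv : dev ρ (cyc N i) (dev ρ (cyc N j) (ρ g u)) ≠ 0 := by
    rw [← key]
    intro h0
    apply hne
    have : ρ g⁻¹ (ρ g (dev ρ c₁ (dev ρ c₂ u))) = 0 := by rw [h0, map_zero]
    rwa [← rho_mul, inv_mul_cancel, map_one] at this
  obtain ⟨χ, hχ, hp⟩ := h N V ρ _ hv
  have hi : χ i ≠ 0 := by
    intro h0
    apply hp i
    rw [h0, pj_zero, avg_dev ρ _ (cyc_cube i)]
  have hj : χ j ≠ 0 := by
    intro h0
    apply hp j
    rw [h0, pj_zero, dev_comm ρ _ _ (cyc_comm j i), avg_dev ρ _ (cyc_cube j), map_zero]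
  refine ⟨χ, hχ, ?_⟩
  have hsub : ({i, j} : Finset (Fin (N / 3))) ⊆ Finset.univ.filter fun i => χ i ≠ 0 := by
    intro x hx
    rw [Finset.mem_insert, Finset.mem_singleton] at hx
    rw [Finset.mem_filter]
    refine ⟨Finset.mem_univ _, ?_⟩
    rcases hx with rfl | rfl
    · exact hi
    · exact hj
  have := Finset.card_le_card hsub
  rwa [Finset.card_pair hij] at this

end Pool.Agent.R639.FZ
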