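import Pool.Agent.R639.FZ.Defs

/-!
# Project FZ: pieces WED and PRODT (helper359)
-/

set_option linter.unusedVariables false

namespace Pool.Agent.R639.FZ

theorem t_WED : S_WED := by
  intro G _ _
  have : NeZero (Nat.card G : ℂ) := ⟨by
    have h : 0 < Nat.card G := Nat.card_pos
    exact_mod_cast h.ne'⟩
  obtain ⟨t, d, hd, ⟨e⟩⟩ :=
    IsSemisimpleRing.exists_algEquiv_pi_matrix_of_isAlgClosed ℂ (MonoidAlgebra ℂ G)
  exact ⟨t, d, fun j => Nat.pos_of_ne_zero (hd j).out, ⟨e⟩⟩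

theorem t_PRODT (h1 : S_WED) (h2 : S_BLK) (h3 : S_TEN) : S_PRODT := by
  classical
  intro G H _ _ _ _ m hm
  obtain ⟨s, d, hd⟩ := h1 G
  obtain ⟨t, e, he⟩ := h1 H
  have hde := h3 G H (Fin s) (Fin t) d e hd he
  rw [(h2 (G × H) (Fin s × Fin t) _ hde m).2]
  have hG : ∀ a, ra G a = (Finset.univ.filter fun j => d j = a).card := by
    intro a
    rw [(h2 G (Fin s) d hd a).2, Nat.card_eq_fintype_card, Fintype.card_subtype]
  have hH : ∀ a, ra H a = (Finset.univ.filter fun j => e j = a).card := by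
    intro a
    rw [(h2 H (Fin t) e he a).2, Nat.card_eq_fintype_card, Fintype.card_subtype]
  rw [Nat.card_eq_fintype_card, Fintype.card_subtype]
  have hmaps : ∀ p ∈ (Finset.univ.filter fun p : Fin s × Fin t => d p.1 * e p.2 = m),
      ((d p.1, e p.2) : ℕ × ℕ) ∈ m.divisorsAntidiagonal := by
    intro p hp
    rw [Finset.mem_filter] at hp
    rw [Nat.mem_divisorsAntidiagonal]
    exact ⟨hp.2, hm.ne'⟩
  rw [Finset.card_eq_sum_card_fiberwise hmaps]
  refine Finset.sum_congr rfl fun p hp => ?_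
  rw [hG, hH, ← Finset.card_product]
  congr 1
  ext q
  rw [Nat.mem_divisorsAntidiagonal] at hp
  simp only [Finset.mem_filter, Finset.mem_univ, true_and, Finset.mem_product, Prod.ext_iff]
  constructor
  · rintro ⟨_, h⟩
    exact h
  · rintro ⟨h1, h2⟩
    exact ⟨by rw [h1, h2]; exact hp.1, h1, h2⟩

end Pool.Agent.R639.FZ

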