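import Pool.Agent.R639.FZ.Defs

/-!
# Piece STD of project FZ: the standard representation of the alternating group
-/

namespace Pool.Agent.R639.FZ

namespace STDaux

open Equiv

variable {N : ℕ}

/-- the permutation representation -/
noncomputable def pr (N : ℕ) : A N →* Module.End ℂ (Fin N → ℂ) where
  toFun g := LinearMap.funLeft ℂ ℂ (fun i => g.1⁻¹ i)
  map_one' := by
    ext f i
    simp [LinearMap.funLeft]
  map_mul' g h := by
    ext f i
    simp [LinearMap.funLeft]

theorem pr_apply (g : A N) (x : Fin N → ℂ) (i : Fin N) : pr N g x i = x (g.1⁻¹ i) := rfl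

theorem pr_single (g : A N) (i : Fin N) (c : ℂ) :
    pr N g (Pi.single i c) = Pi.single (g.1 i) c := by
  ext j
  rw [pr_apply, Pi.single_apply, Pi.single_apply]
  have : g.1⁻¹ j = i ↔ j = g.1 i := by
    rw [Equiv.Perm.inv_eq_iff_eq]
  simp only [this]

/-- the sum functional -/
noncomputable def sm (N : ℕ) : (Fin N → ℂ) →ₗ[ℂ] ℂ where
  toFun x := ∑ i, x i
  map_add' x y := by simp [Finset.sum_add_distrib]
  map_smul' c x := by simp [Finset.mul_sum]

theorem sm_apply (x : Fin N → ℂ) : sm N x = ∑ i, x i := rfl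

theorem sm_pr (g : A N) (x : Fin N → ℂ) : sm N (pr N g x) = sm N x := by
  rw [sm_apply, sm_apply]
  exact Equiv.sum_comp (g.1⁻¹) x

/-- vectors with sum zero -/
noncomputable abbrev V0 (N : ℕ) : Submodule ℂ (Fin N → ℂ) := LinearMap.ker (sm N)

theorem mem_V0 {x : Fin N → ℂ} : x ∈ V0 N ↔ ∑ i, x i = 0 := LinearMap.mem_ker

/-- the standard representation -/
noncomputable def st (N : ℕ) : A N →* Module.End ℂ (V0 N) where
  toFun g := (pr N g).restrict (p := V0 N) (q := V0 N) (fun x hx => by
    rw [LinearMap.mem_ker, sm_pr]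
    exact hx)
  map_one' := by
    ext x : 1
    apply Subtype.ext
    simp [LinearMap.restrict_apply]
  map_mul' g h := by
    ext x : 1
    apply Subtype.ext
    simp [LinearMap.restrict_apply]

theorem st_coe (g : A N) (x : V0 N) : ((st N g x : V0 N) : Fin N → ℂ) = pr N g x := rfl

theorem finrank_V0 (hN : 1 ≤ N) : Module.finrank ℂ (V0 N) = N - 1 := by
  have h := LinearMap.finrank_range_add_finrank_ker (sm N)
  have h1 : LinearMap.range (sm N) = ⊤ := by
    rw [LinearMap.range_eq_top]
    intro c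
    refine ⟨Pi.single ⟨0, hN⟩ c, ?_⟩
    rw [sm_apply, Finset.sum_pi_single']
    simp
  rw [h1, finrank_top, Module.finrank_self, Module.finrank_fin_fun] at h
  show Module.finrank ℂ (LinearMap.ker (sm N)) = N - 1
  omega

theorem exists_even {a b i j c d : Fin N} (hab : a ≠ b) (hij : i ≠ j) (hcd : c ≠ d)
    (hca : c ≠ a) (hcb : c ≠ b) (hda : d ≠ a) (hdb : d ≠ b) :
    ∃ g : A N, g.1 a = i ∧ g.1 b = j := by
  have h0 : swap a i b ≠ i := by
    intro h
    have := (swap a i).injective (h.trans (swap_apply_left a i).symm)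
    exact hab this.symm
  obtain ⟨p, hp1, hp2⟩ : ∃ p : Perm (Fin N), p a = i ∧ p b = j := by
    refine ⟨swap (swap a i b) j * swap a i, ?_, ?_⟩
    · rw [Perm.mul_apply, swap_apply_left, swap_apply_of_ne_of_ne h0.symm hij]
    · rw [Perm.mul_apply, swap_apply_left]
  rcases Int.units_eq_one_or (Perm.sign p) with h | h
  · exact ⟨⟨p, Perm.mem_alternatingGroup.2 h⟩, hp1, hp2⟩
  · refine ⟨⟨p * swap c d, Perm.mem_alternatingGroup.2 ?_⟩, ?_, ?_⟩
    · rw [map_mul, h, Perm.sign_swap hcd]
      rfl
    · show (p * swap c d) a = i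
      rw [Perm.mul_apply, swap_apply_of_ne_of_ne hca.symm hda.symm, hp1]
    · show (p * swap c d) b = j
      rw [Perm.mul_apply, swap_apply_of_ne_of_ne hcb.symm hdb.symm, hp2]

/-- three further points -/
theorem three_more (hN : 5 ≤ N) (a b : Fin N) : ∃ c d f : Fin N, c ≠ a ∧ c ≠ b ∧ d ≠ a ∧ d ≠ b ∧
    f ≠ a ∧ f ≠ b ∧ c ≠ d ∧ c ≠ f ∧ d ≠ f := by
  classical
  have hc : 2 < ((Finset.univ : Finset (Fin N)) \ {a, b}).card := by
    have h1 := Finset.le_card_sdiff ({a, b} : Finset (Fin N)) Finset.univ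
    have h2 : ({a, b} : Finset (Fin N)).card ≤ 2 := Finset.card_le_two
    rw [Finset.card_univ, Fintype.card_fin] at h1
    omega
  obtain ⟨c, hc, d, hd, f, hf, hcd, hcf, hdf⟩ := Finset.two_lt_card.1 hc
  simp only [Finset.mem_sdiff, Finset.mem_univ, true_and, Finset.mem_insert,
    Finset.mem_singleton, not_or] at hc hd hf
  exact ⟨c, d, f, hc.1, hc.2, hd.1, hd.2, hf.1, hf.2, hcd, hcf, hdf⟩

/-- an invariant subspace with a nonconstant vector contains a difference of unit vectors -/
theorem diff_mem (hN : 5 ≤ N) (U : Submodule ℂ (Fin N → ℂ))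
    (hU : ∀ g : A N, ∀ w ∈ U, pr N g w ∈ U) {w : Fin N → ℂ} (hw : w ∈ U) {a b : Fin N}
    (hab : w a ≠ w b) : Pi.single a (1 : ℂ) - Pi.single b 1 ∈ U := by
  have hne : a ≠ b := fun h => hab (by rw [h])
  obtain ⟨c, d, f, hca, hcb, hda, hdb, hfa, hfb, hcd, hcf, hdf⟩ := three_more hN a b
  let g : A N := ⟨swap a b * swap c d, Perm.mem_alternatingGroup.2 (by
    rw [map_mul, Perm.sign_swap hne, Perm.sign_swap hcd]; rfl)⟩
  let h : A N := ⟨swap c d * swap d f, Perm.mem_alternatingGroup.2 (by
    rw [map_mul, Perm.sign_swap hcd, Perm.sign_swap hdf]; rfl)⟩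
  have hx : w - pr N g w ∈ U := U.sub_mem hw (hU g w hw)
  have e1 : w - pr N g w = (w a - w b) • (Pi.single a (1 : ℂ) - Pi.single b 1) +
      (w c - w d) • (Pi.single c (1 : ℂ) - Pi.single d 1) := by
    ext i
    have hgi : g.1⁻¹ i = swap c d (swap a b i) := by
      show (swap a b * swap c d)⁻¹ i = _
      rw [mul_inv_rev, swap_inv, swap_inv, Perm.mul_apply]
    simp only [Pi.sub_apply, pr_apply, Pi.add_apply, Pi.smul_apply, smul_eq_mul, Pi.single_apply,
      hgi]
    by_cases h1 : i = a
    · subst h1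
      rw [swap_apply_left, swap_apply_of_ne_of_ne hcb.symm hdb.symm]
      simp [hne, hca.symm, hda.symm]
    by_cases h2 : i = b
    · subst h2
      rw [swap_apply_right, swap_apply_of_ne_of_ne hca.symm hda.symm]
      simp [hne.symm, hcb.symm, hdb.symm]
    rw [swap_apply_of_ne_of_ne h1 h2]
    by_cases h3 : i = c
    · subst h3
      rw [swap_apply_left]
      simp [hca, hcb, hcd]
    by_cases h4 : i = d
    · subst h4
      rw [swap_apply_right]
      simp [hda, hdb, hcd.symm]
    rw [swap_apply_of_ne_of_ne h3 h4]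
    simp [h1, h2, h3, h4]
  rw [e1] at hx
  set x : Fin N → ℂ := (w a - w b) • (Pi.single a (1 : ℂ) - Pi.single b 1) +
      (w c - w d) • (Pi.single c (1 : ℂ) - Pi.single d 1) with hxdef
  have ha : h.1 a = a := by
    show (swap c d * swap d f) a = a
    rw [Perm.mul_apply, swap_apply_of_ne_of_ne hda.symm hfa.symm,
      swap_apply_of_ne_of_ne hca.symm hda.symm]
  have hb : h.1 b = b := by
    show (swap c d * swap d f) b = b
    rw [Perm.mul_apply, swap_apply_of_ne_of_ne hdb.symm hfb.symm,
      swap_apply_of_ne_of_ne hcb.symm hdb.symm]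
  have hc' : h.1 c = d := by
    show (swap c d * swap d f) c = d
    rw [Perm.mul_apply, swap_apply_of_ne_of_ne hcd hcf, swap_apply_left]
  have hd' : h.1 d = f := by
    show (swap c d * swap d f) d = f
    rw [Perm.mul_apply, swap_apply_left, swap_apply_of_ne_of_ne hcf.symm hdf.symm]
  have hf' : h.1 f = c := by
    show (swap c d * swap d f) f = c
    rw [Perm.mul_apply, swap_apply_right, swap_apply_right]
  have e2 : pr N h x = (w a - w b) • (Pi.single a (1 : ℂ) - Pi.single b 1) +
      (w c - w d) • (Pi.single d (1 : ℂ) - Pi.single f 1) := by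
    rw [hxdef, map_add, map_smul, map_smul, map_sub, map_sub, pr_single, pr_single, pr_single,
      pr_single, ha, hb, hc', hd']
  have e3 : pr N h (pr N h x) = (w a - w b) • (Pi.single a (1 : ℂ) - Pi.single b 1) +
      (w c - w d) • (Pi.single f (1 : ℂ) - Pi.single c 1) := by
    rw [e2, map_add, map_smul, map_smul, map_sub, map_sub, pr_single, pr_single, pr_single,
      pr_single, ha, hb, hd', hf']
  have h1 := hU h x hx
  have h2 := hU h _ h1
  have h3 := U.add_mem (U.add_mem hx h1) h2
  have e4 : x + pr N h x + pr N h (pr N h x) =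
      (3 * (w a - w b)) • (Pi.single a (1 : ℂ) - Pi.single b 1) := by
    rw [e3, e2, hxdef]
    module
  rw [e4] at h3
  refine (U.smul_mem_iff ?_).1 h3
  exact mul_ne_zero (by norm_num) (sub_ne_zero.2 hab)

theorem all_diff (hN : 5 ≤ N) (U : Submodule ℂ (Fin N → ℂ))
    (hU : ∀ g : A N, ∀ w ∈ U, pr N g w ∈ U) {w : Fin N → ℂ} (hw : w ∈ U) {a b : Fin N}
    (hab : w a ≠ w b) (i j : Fin N) : Pi.single i (1 : ℂ) - Pi.single j 1 ∈ U := by
  by_cases hij : i = j
  · subst hij
    rw [sub_self]
    exact U.zero_mem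
  have hne : a ≠ b := fun h => hab (by rw [h])
  obtain ⟨c, d, f, hca, hcb, hda, hdb, hfa, hfb, hcd, hcf, hdf⟩ := three_more hN a b
  obtain ⟨g, h1, h2⟩ := exists_even hne hij hcd hca hcb hda hdb
  have h := hU g _ (diff_mem hN U hU hw hab)
  rwa [map_sub, pr_single, pr_single, h1, h2] at h

/-- irreducibility in the space of functions -/
theorem irr (hN : 5 ≤ N) (U : Submodule ℂ (Fin N → ℂ))
    (hU : ∀ g : A N, ∀ w ∈ U, pr N g w ∈ U) (hle : U ≤ V0 N) (hne : U ≠ ⊥) : U = V0 N := by
  refine le_antisymm hle ?_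
  obtain ⟨w, hw, hw0⟩ := Submodule.exists_mem_ne_zero_of_ne_bot hne
  have hws := mem_V0.1 (hle hw)
  obtain ⟨a, b, hab⟩ : ∃ a b : Fin N, w a ≠ w b := by
    by_contra hcon
    push Not at hcon
    apply hw0
    ext i
    have h1 : ∑ j, w j = N * w i := by
      rw [Finset.sum_congr rfl (fun j _ => hcon j i), Finset.sum_const, Finset.card_univ,
        Fintype.card_fin, nsmul_eq_mul]
    rw [hws] at h1
    have hN0 : (N : ℂ) ≠ 0 := by
      have : N ≠ 0 := by omega
      exact_mod_cast this
    rcases mul_eq_zero.1 h1.symm with h | h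
    · exact absurd h hN0
    · simpa using h
  intro x hx
  have hxs := mem_V0.1 hx
  have hx' : x = ∑ i, x i • (Pi.single i (1 : ℂ) - Pi.single a 1) := by
    simp only [smul_sub, Finset.sum_sub_distrib, ← Finset.sum_smul]
    rw [hxs, zero_smul, sub_zero]
    ext j
    simp [Finset.sum_apply, Pi.single_apply]
  rw [hx']
  exact U.sum_mem fun i _ => U.smul_mem _ (all_diff hN U hU hw hab i a)

end STDaux

open STDaux in
theorem t_STD : S_STD := by
  intro N hN
  have hN1 : 1 ≤ N := by omega
  let b : Module.Basis (Fin (N - 1)) ℂ (V0 N) :=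
    Module.finBasisOfFinrankEq ℂ (V0 N) (finrank_V0 hN1)
  let ρ : MRep (A N) (N - 1) :=
    (LinearMap.toMatrixAlgEquiv b).toAlgHom.toRingHom.toMonoidHom.comp (st N)
  have hρ : ∀ (g : A N) (x : V0 N), (ρ g).mulVec (b.equivFun x) = b.equivFun (st N g x) := by
    intro g x
    exact LinearMap.toMatrix_mulVec_repr b b (st N g) x
  refine ⟨ρ, ⟨by omega, ?_⟩, {⟨0, by omega⟩}, Finset.card_singleton _, ?_⟩
  · intro W hW
    let U : Submodule ℂ (Fin N → ℂ) := (W.comap b.equivFun.toLinearMap).map (V0 N).subtype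
    have hUi : ∀ g : A N, ∀ w ∈ U, pr N g w ∈ U := by
      rintro g w ⟨x, hx, rfl⟩
      refine ⟨st N g x, ?_, rfl⟩
      show b.equivFun (st N g x) ∈ W
      rw [← hρ]
      exact hW g _ hx
    have hUle : U ≤ V0 N := by
      rintro w ⟨x, hx, rfl⟩
      exact x.2
    by_cases hU0 : U = ⊥
    · left
      rw [eq_bot_iff]
      intro y hy
      have h1 : ((b.equivFun.symm y : V0 N) : Fin N → ℂ) ∈ U :=
        ⟨b.equivFun.symm y, by
          show b.equivFun (b.equivFun.symm y) ∈ W
          rw [LinearEquiv.apply_symm_apply]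
          exact hy, rfl⟩
      rw [hU0, Submodule.mem_bot] at h1
      have h2 : b.equivFun.symm y = 0 := Subtype.ext h1
      rw [Submodule.mem_bot]
      exact (LinearEquiv.map_eq_zero_iff _).1 h2
    · right
      have hUV := irr hN U hUi hUle hU0
      rw [eq_top_iff]
      intro y _
      have h1 : ((b.equivFun.symm y : V0 N) : Fin N → ℂ) ∈ U := by
        rw [hUV]
        exact (b.equivFun.symm y).2
      obtain ⟨x, hx, hxy⟩ := h1
      have h2 : x = b.equivFun.symm y := Subtype.ext hxy
      have h3 : b.equivFun x ∈ W := hx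
      rwa [h2, LinearEquiv.apply_symm_apply] at h3
  · intro hbot
    let z : Fin N := ⟨0, by omega⟩
    let v : Fin N → ℂ := fun i => (N : ℂ) * (if i = z then 1 else 0) - 1
    have hv : v ∈ V0 N := by
      rw [mem_V0]
      simp only [v]
      rw [Finset.sum_sub_distrib, ← Finset.mul_sum]
      simp
    have hfx : b.equivFun ⟨v, hv⟩ ∈ Fx (lin ρ) {z} := by
      intro g hg
      rw [lin_apply, hρ]
      congr 1
      apply Subtype.ext
      rw [st_coe]
      ext i
      rw [pr_apply]
      have hgz : g.1 z = z := hg z (Finset.mem_singleton_self z)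
      have h1 : (g.1⁻¹ i = z) ↔ i = z := by
        rw [Equiv.Perm.inv_eq_iff_eq, hgz]
      simp only [v, h1]
    have h0 : b.equivFun ⟨v, hv⟩ = 0 := by
      have := hfx
      rw [hbot] at this
      simpa using this
    have h1 : (⟨v, hv⟩ : V0 N) = 0 := by simpa using h0
    have h2 : v = 0 := congrArg Subtype.val h1
    have h3 := congrFun h2 ⟨1, by omega⟩
    have h4 : (⟨1, by omega⟩ : Fin N) ≠ z := by
      intro h
      have := congrArg Fin.val h
      simp [z] at this
    simp only [v, if_neg h4] at h3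
    norm_num at h3

end Pool.Agent.R639.FZ
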