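import Pool.Agent.R639.FZ.Defs

/-!
# Piece TEN of project FZ: Wedderburn blocks of a direct product
-/

namespace Pool.Agent.R639.FZ

namespace TEN

open TensorProduct

/-- the group algebra of a direct product as a tensor product -/
noncomputable def groupAlg (G H : Type) [Group G] [Group H] :
    MonoidAlgebra ℂ G ⊗[ℂ] MonoidAlgebra ℂ H ≃ₐ[ℂ] MonoidAlgebra ℂ (G × H) :=
  Algebra.TensorProduct.algEquivOfLinearEquivTensorProduct
    (MonoidAlgebra.tensorEquiv ℂ)
    (by
      intro a₁ a₂ b₁ b₂
      induction a₁ using MonoidAlgebra.induction_linear with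
      | zero => simp
      | add f g hf hg => simp only [add_mul, TensorProduct.add_tmul, map_add, hf, hg]
      | single g₁ r₁ =>
      induction a₂ using MonoidAlgebra.induction_linear with
      | zero => simp
      | add f g hf hg => simp only [mul_add, TensorProduct.add_tmul, map_add, hf, hg]
      | single g₂ r₂ =>
      induction b₁ using MonoidAlgebra.induction_linear with
      | zero => simp
      | add f g hf hg => simp only [add_mul, TensorProduct.tmul_add, map_add, hf, hg]
      | single h₁ s₁ =>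
      induction b₂ using MonoidAlgebra.induction_linear with
      | zero => simp
      | add f g hf hg => simp only [mul_add, TensorProduct.tmul_add, map_add, hf, hg]
      | single h₂ s₂ =>
      simp only [MonoidAlgebra.single_mul_single, MonoidAlgebra.tensorEquiv_single_tmul_single,
        Prod.mk_mul_mk]
      congr 1
      ring)
    (by
      simp only [MonoidAlgebra.one_def, MonoidAlgebra.tensorEquiv_single_tmul_single]
      simp [Prod.one_eq_mk])

/-- distributing the tensor product of two finite products -/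
noncomputable def distr {ι κ : Type} [Fintype ι] [Fintype κ] [DecidableEq ι] [DecidableEq κ]
    (A : ι → Type) (B : κ → Type)
    [∀ i, Ring (A i)] [∀ i, Algebra ℂ (A i)] [∀ k, Ring (B k)] [∀ k, Algebra ℂ (B k)] :
    (∀ i, A i) ⊗[ℂ] (∀ k, B k) ≃ₐ[ℂ] ∀ k : κ, ∀ i : ι, A i ⊗[ℂ] B k :=
  (Algebra.TensorProduct.piRight ℂ ℂ (∀ i, A i) B).trans
    (AlgEquiv.piCongrRight fun k =>
      (Algebra.TensorProduct.comm ℂ (∀ i, A i) (B k)).trans
        ((Algebra.TensorProduct.piRight ℂ ℂ (B k) A).trans
          (AlgEquiv.piCongrRight fun i => Algebra.TensorProduct.comm ℂ (B k) (A i))))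

/-- currying as an algebra equivalence -/
def curryA {ι κ : Type} (C : ι × κ → Type) [∀ p, Ring (C p)] [∀ p, Algebra ℂ (C p)] :
    (∀ k : κ, ∀ i : ι, C (i, k)) ≃ₐ[ℂ] ∀ p : ι × κ, C p where
  toFun f := fun p => f p.2 p.1
  invFun f := fun k i => f (i, k)
  left_inv _ := rfl
  right_inv _ := rfl
  map_mul' _ _ := rfl
  map_add' _ _ := rfl
  commutes' _ := rfl

/-- the tensor product of two matrix algebras -/
noncomputable def matT (a b : ℕ) :
    Matrix (Fin a) (Fin a) ℂ ⊗[ℂ] Matrix (Fin b) (Fin b) ℂ ≃ₐ[ℂ]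
      Matrix (Fin (a * b)) (Fin (a * b)) ℂ :=
  (Matrix.kroneckerAlgEquiv (Fin a) (Fin b) ℂ).trans
    (Matrix.reindexAlgEquiv ℂ ℂ finProdFinEquiv)

end TEN

theorem t_TEN : S_TEN := by
  intro G H _ _ _ _ ι κ _ _ d e hd he
  classical
  obtain ⟨hd0, ⟨φ⟩⟩ := hd
  obtain ⟨he0, ⟨ψ⟩⟩ := he
  refine ⟨fun p => Nat.mul_pos (hd0 p.1) (he0 p.2), ⟨?_⟩⟩
  exact (TEN.groupAlg G H).symm.trans
    ((Algebra.TensorProduct.congr φ ψ).trans
      ((TEN.distr (fun j : ι => Matrix (Fin (d j)) (Fin (d j)) ℂ)
          (fun k : κ => Matrix (Fin (e k)) (Fin (e k)) ℂ)).trans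
        ((AlgEquiv.piCongrRight fun k => AlgEquiv.piCongrRight fun j => TEN.matT (d j) (e k)).trans
          (TEN.curryA (fun p : ι × κ =>
            Matrix (Fin (d p.1 * e p.2)) (Fin (d p.1 * e p.2)) ℂ)))))

end Pool.Agent.R639.FZ
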