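import Pool.Agent.R639.FZ.Defs

set_option autoImplicit false

namespace Pool.Agent.R639.FZ

namespace TRIVp

open Matrix

variable {G : Type} [Group G] {n : ℕ}

lemma exists_min_inv (ρ : MRep G n) (U : Submodule ℂ (Fin n → ℂ)) (hU : Inv ρ U) (hne : U ≠ ⊥) :
    ∃ U' : Submodule ℂ (Fin n → ℂ), U' ≠ ⊥ ∧ Inv ρ U' ∧ U' ≤ U ∧
      ∀ U'' : Submodule ℂ (Fin n → ℂ), U'' ≠ ⊥ → Inv ρ U'' → U'' ≤ U' → U'' = U' := by
  have hwf : WellFounded
      ((· < ·) : Submodule ℂ (Fin n → ℂ) → Submodule ℂ (Fin n → ℂ) → Prop) := wellFounded_lt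
  obtain ⟨U', ⟨h1, h2, h3⟩, hmin⟩ :=
    hwf.has_min {U' | U' ≠ ⊥ ∧ Inv ρ U' ∧ U' ≤ U} ⟨U, hne, hU, le_rfl⟩
  refine ⟨U', h1, h2, h3, ?_⟩
  intro U'' g1 g2 g3
  by_contra hc
  exact hmin U'' ⟨g1, g2, g3.trans h3⟩ (lt_of_le_of_ne g3 hc)

/-- the restriction -/
noncomputable def rs (ρ : MRep G n) (U : Submodule ℂ (Fin n → ℂ)) (hU : Inv ρ U) (g : G) :
    U →ₗ[ℂ] U :=
  (Matrix.mulVecLin (ρ g)).restrict (fun w hw => hU g w hw)

lemma rs_apply (ρ : MRep G n) (U : Submodule ℂ (Fin n → ℂ)) (hU : Inv ρ U) (g : G) (u : U) :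
    ((rs ρ U hU g u : U) : Fin n → ℂ) = (ρ g).mulVec u := rfl

lemma rs_one (ρ : MRep G n) (U : Submodule ℂ (Fin n → ℂ)) (hU : Inv ρ U) :
    rs ρ U hU 1 = LinearMap.id := by
  apply LinearMap.ext
  intro u
  apply Subtype.ext
  rw [rs_apply, map_one, Matrix.one_mulVec]
  rfl

lemma rs_mul (ρ : MRep G n) (U : Submodule ℂ (Fin n → ℂ)) (hU : Inv ρ U) (g h : G) :
    rs ρ U hU (g * h) = rs ρ U hU g ∘ₗ rs ρ U hU h := by
  apply LinearMap.ext
  intro u
  apply Subtype.ext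
  rw [rs_apply, map_mul, LinearMap.comp_apply, rs_apply, rs_apply, Matrix.mulVec_mulVec]

/-- the restriction as a matrix representation -/
noncomputable def sg (ρ : MRep G n) (U : Submodule ℂ (Fin n → ℂ)) (hU : Inv ρ U) {k : ℕ}
    (e : U ≃ₗ[ℂ] (Fin k → ℂ)) : MRep G k where
  toFun g := LinearMap.toMatrix' (e.toLinearMap ∘ₗ rs ρ U hU g ∘ₗ e.symm.toLinearMap)
  map_one' := by
    rw [rs_one]
    have : e.toLinearMap ∘ₗ LinearMap.id ∘ₗ e.symm.toLinearMap = LinearMap.id := by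
      apply LinearMap.ext
      intro x
      simp
    rw [this, LinearMap.toMatrix'_id]
  map_mul' g h := by
    rw [← LinearMap.toMatrix'_comp, rs_mul]
    congr 1
    apply LinearMap.ext
    intro x
    simp

lemma sg_mulVec (ρ : MRep G n) (U : Submodule ℂ (Fin n → ℂ)) (hU : Inv ρ U) {k : ℕ}
    (e : U ≃ₗ[ℂ] (Fin k → ℂ)) (g : G) (w : Fin k → ℂ) :
    (sg ρ U hU e g).mulVec w = e (rs ρ U hU g (e.symm w)) := by
  change (LinearMap.toMatrix' _).mulVec w = _
  rw [LinearMap.toMatrix'_mulVec]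
  rfl

lemma sg_irred (ρ : MRep G n) (U : Submodule ℂ (Fin n → ℂ)) (hU : Inv ρ U) {k : ℕ}
    (e : U ≃ₗ[ℂ] (Fin k → ℂ)) (hne : U ≠ ⊥)
    (hmin : ∀ U'' : Submodule ℂ (Fin n → ℂ), U'' ≠ ⊥ → Inv ρ U'' → U'' ≤ U → U'' = U) :
    Irred (sg ρ U hU e) := by
  constructor
  · rcases Nat.eq_zero_or_pos k with h0 | hpos
    · exfalso
      apply hne
      subst h0
      rw [Submodule.eq_bot_iff]
      intro x hx
      have h1 : e ⟨x, hx⟩ = 0 := Subsingleton.elim _ _
      have h2 : (⟨x, hx⟩ : U) = 0 := (LinearEquiv.map_eq_zero_iff e).mp h1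
      exact congrArg Subtype.val h2
    · exact hpos
  · intro W hW
    set U'' : Submodule ℂ (Fin n → ℂ) := (W.comap e.toLinearMap).map U.subtype with hU''
    have hmem : ∀ x : Fin n → ℂ, x ∈ U'' ↔ ∃ hx : x ∈ U, e ⟨x, hx⟩ ∈ W := by
      intro x
      constructor
      · intro hx
        obtain ⟨y, hy, rfl⟩ := hx
        exact ⟨y.2, hy⟩
      · rintro ⟨hx, hW'⟩
        exact ⟨⟨x, hx⟩, hW', rfl⟩
    have hle : U'' ≤ U := fun x hx => ((hmem x).mp hx).1
    have hinv : Inv ρ U'' := by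
      intro g x hx
      obtain ⟨hxU, hxW⟩ := (hmem x).mp hx
      have h1 := hW g _ hxW
      rw [sg_mulVec, LinearEquiv.symm_apply_apply] at h1
      exact (hmem _).mpr ⟨hU g x hxU, h1⟩
    by_cases hbot : U'' = ⊥
    · left
      rw [Submodule.eq_bot_iff]
      intro w hw
      have h1 : ((e.symm w : U) : Fin n → ℂ) ∈ U'' := by
        refine (hmem _).mpr ⟨(e.symm w).2, ?_⟩
        have : (⟨((e.symm w : U) : Fin n → ℂ), (e.symm w).2⟩ : U) = e.symm w := rfl
        rw [this, LinearEquiv.apply_symm_apply]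
        exact hw
      rw [hbot, Submodule.mem_bot] at h1
      have h2 : e.symm w = 0 := Subtype.ext h1
      exact (LinearEquiv.map_eq_zero_iff e.symm).mp h2
    · right
      have htop := hmin U'' hbot hinv hle
      rw [Submodule.eq_top_iff']
      intro w
      have h1 : ((e.symm w : U) : Fin n → ℂ) ∈ U'' := by
        rw [htop]; exact (e.symm w).2
      obtain ⟨hx, hx'⟩ := (hmem _).mp h1
      have : (⟨((e.symm w : U) : Fin n → ℂ), hx⟩ : U) = e.symm w := rfl
      rw [this, LinearEquiv.apply_symm_apply] at hx'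
      exact hx'

end TRIVp

open TRIVp in
theorem t_TRIV : S_TRIV := by
  intro G _ _ m hirr ρ g0
  classical
  let _ := Fintype.ofFinite G
  have hc : (Fintype.card G : ℂ) ≠ 0 := by
    have : Fintype.card G ≠ 0 := Fintype.card_ne_zero
    exact_mod_cast this
  set S : (Fin m → ℂ) →ₗ[ℂ] (Fin m → ℂ) := ∑ g : G, Matrix.mulVecLin (ρ g) with hS
  have hSapp : ∀ v, S v = ∑ g : G, (ρ g).mulVec v := by
    intro v
    rw [hS, LinearMap.sum_apply]
    rfl
  have hgS : ∀ (g : G) v, (ρ g).mulVec (S v) = S v := by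
    intro g v
    rw [hSapp, Matrix.mulVec_sum]
    have : ∀ h : G, (ρ g).mulVec ((ρ h).mulVec v) = (ρ (g * h)).mulVec v := by
      intro h; rw [Matrix.mulVec_mulVec, map_mul]
    simp_rw [this]
    exact Fintype.sum_equiv (Equiv.mulLeft g) _ _ (fun h => rfl)
  have hSg : ∀ (g : G) v, S ((ρ g).mulVec v) = S v := by
    intro g v
    rw [hSapp, hSapp]
    have : ∀ h : G, (ρ h).mulVec ((ρ g).mulVec v) = (ρ (h * g)).mulVec v := by
      intro h; rw [Matrix.mulVec_mulVec, map_mul]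
    simp_rw [this]
    exact Fintype.sum_equiv (Equiv.mulRight g) _ _ (fun h => rfl)
  have hSfix : ∀ v : Fin m → ℂ, (∀ g : G, (ρ g).mulVec v = v) → S v = (Fintype.card G : ℂ) • v := by
    intro v hv
    rw [hSapp]
    simp_rw [hv]
    rw [Finset.sum_const, Finset.card_univ, Nat.cast_smul_eq_nsmul]
  have hSS : ∀ v, S (S v) = (Fintype.card G : ℂ) • S v := fun v => hSfix _ (fun g => hgS g v)
  -- the kernel
  have hKinv : Inv ρ (LinearMap.ker S) := by
    intro g w hw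
    rw [LinearMap.mem_ker] at hw ⊢
    rw [hSg, hw]
  have hK : LinearMap.ker S = ⊥ := by
    by_contra hne
    obtain ⟨U, h1, h2, h3, h4⟩ := exists_min_inv ρ _ hKinv hne
    let b := Module.finBasis ℂ U
    let e : U ≃ₗ[ℂ] (Fin (Module.finrank ℂ U) → ℂ) := b.equivFun
    have hle : Module.finrank ℂ U ≤ m := by
      have := Submodule.finrank_le U
      simpa using this
    have htriv := hirr _ hle (sg ρ U h2 e) (sg_irred ρ U h2 e h1 h4)
    have hfix : ∀ u : U, ∀ g : G, (ρ g).mulVec (u : Fin m → ℂ) = u := by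
      intro u g
      have e1 := sg_mulVec ρ U h2 e g (e u)
      rw [htriv g, Matrix.one_mulVec, LinearEquiv.symm_apply_apply] at e1
      have e2 := e.injective e1
      have e3 := congrArg Subtype.val e2
      rw [rs_apply] at e3
      exact e3.symm
    apply h1
    rw [Submodule.eq_bot_iff]
    intro x hx
    have hx1 := hSfix x (fun g => hfix ⟨x, hx⟩ g)
    have hx2 : S x = 0 := LinearMap.mem_ker.mp (h3 hx)
    rw [hx2] at hx1
    exact (smul_eq_zero.mp hx1.symm).resolve_left hc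
  have hinj : Function.Injective S := LinearMap.ker_eq_bot.mp hK
  have hall : ∀ v : Fin m → ℂ, (ρ g0).mulVec v = v := by
    intro v
    have h1 : S (S v) = S ((Fintype.card G : ℂ) • v) := by
      rw [hSS, map_smul]
    have h2 := hinj h1
    have h3 : v = (Fintype.card G : ℂ)⁻¹ • S v := by
      rw [h2, smul_smul, inv_mul_cancel₀ hc, one_smul]
    rw [h3, Matrix.mulVec_smul, hgS]
  apply Matrix.toLin'.injective
  apply LinearMap.ext
  intro v
  rw [Matrix.toLin'_apply, hall, Matrix.toLin'_one]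
  rfl

end Pool.Agent.R639.FZ
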