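import Pool.Agent.R639.FZ.Defs

/-!
# UNIV: the averaged action is a universal combination
-/

set_option autoImplicit false

namespace Pool.Agent.R639.FZ

namespace PU

open Equiv

variable {N : ℕ} {V : Type*} [AddCommGroup V] [Module ℂ V]

theorem mem_T0 {k : ℕ} {x : Fin N} : x ∈ T0 N k ↔ x.1 < k := by simp [T0]

theorem card_T0 {k : ℕ} (h : k ≤ N) : (T0 N k).card = k := by
  have h1 : (T0 N k) = (Finset.univ : Finset (Fin k)).map (Fin.castLEEmb h) := by
    ext x
    rw [mem_T0, Finset.mem_map]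
    constructor
    · intro hx
      exact ⟨⟨x.1, hx⟩, Finset.mem_univ _, by ext; simp⟩
    · rintro ⟨y, _, rfl⟩
      simp
  rw [h1, Finset.card_map, Finset.card_univ, Fintype.card_fin]

/-- elements which agree on `T` -/
theorem agree {ρ : A N →* Module.End ℂ V} {T : Finset (Fin N)} {u : V} (hu : u ∈ Fx ρ T)
    {g g' : A N} (h : ∀ x ∈ T, g.1 x = g'.1 x) : ρ g u = ρ g' u := by
  have h1 : ρ (g'⁻¹ * g) u = u := hu _ (fun i hi => by
    change g'.1⁻¹ (g.1 i) = i
    rw [h i hi]
    exact Equiv.symm_apply_apply g'.1 i)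
  have h2 : ρ g' (ρ (g'⁻¹ * g) u) = ρ g u := by
    rw [← Module.End.mul_apply, ← map_mul, mul_inv_cancel_left]
  rw [← h2, h1]

/-- two lifts of the same permutation agree -/
theorem agree_lift {k : ℕ} {g g' : A N} {σ : Perm (Fin k)} (h : Lifts g σ) (h' : Lifts g' σ) :
    ∀ x ∈ T0 N k, g.1 x = g'.1 x := by
  intro x hx
  rw [mem_T0] at hx
  ext
  rw [h ⟨x.1, hx⟩ x rfl, h' ⟨x.1, hx⟩ x rfl]

/-- a lift maps the first `k` points to the first `k` points -/
theorem lift_mem {k : ℕ} {g : A N} {σ : Perm (Fin k)} (h : Lifts g σ) {x : Fin N}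
    (hx : x ∈ T0 N k) : g.1 x ∈ T0 N k := by
  rw [mem_T0] at hx ⊢
  rw [h ⟨x.1, hx⟩ x rfl]
  exact (σ _).2

theorem lift_Fx {k : ℕ} {ρ : A N →* Module.End ℂ V} {g : A N} {σ : Perm (Fin k)} (h : Lifts g σ)
    {u : V} (hu : u ∈ Fx ρ (T0 N k)) : ρ g u ∈ Fx ρ (T0 N k) := by
  intro s hs
  rw [← Module.End.mul_apply, ← map_mul]
  refine agree hu fun x hx => ?_
  change s.1 (g.1 x) = g.1 x
  exact hs _ (lift_mem h hx)

/-- correcting the sign outside of `T` -/
theorem par (π : Perm (Fin N)) (T : Finset (Fin N)) (hT : T.card + 2 ≤ N) :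
    ∃ g : A N, ∀ x ∈ T, g.1 x = π x := by
  rcases Int.units_eq_one_or (Perm.sign π) with h | h
  · exact ⟨⟨π, Perm.mem_alternatingGroup.2 h⟩, fun x _ => rfl⟩
  · have h1 : 1 < (Tᶜ).card := by
      rw [Finset.card_compl, Fintype.card_fin]
      omega
    obtain ⟨a, ha, b, hb, hab⟩ := Finset.one_lt_card.1 h1
    rw [Finset.mem_compl] at ha hb
    refine ⟨⟨π * swap a b, ?_⟩, fun x hx => ?_⟩
    · rw [Perm.mem_alternatingGroup, map_mul, h, Perm.sign_swap hab]
      rfl
    · change π (swap a b x) = π x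
      rw [swap_apply_of_ne_of_ne]
      · rintro rfl
        exact ha hx
      · rintro rfl
        exact hb hx

theorem exists_lift {k : ℕ} (hk : k + 2 ≤ N) (σ : Perm (Fin k)) : ∃ g : A N, Lifts g σ := by
  have hkN : k ≤ N := by omega
  let f : Fin k ≃ {x : Fin N // x.1 < k} :=
    { toFun := fun i => ⟨⟨i.1, by have := i.2; omega⟩, i.2⟩
      invFun := fun x => ⟨x.1.1, x.2⟩
      left_inv := fun i => rfl
      right_inv := fun x => rfl }
  obtain ⟨g, hg⟩ := par (Perm.ofSubtype (f.permCongr σ)) (T0 N k) (by rw [card_T0 hkN]; exact hk)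
  refine ⟨g, fun i x hx => ?_⟩
  have hxk : x.1 < k := by rw [hx]; exact i.2
  rw [hg x (mem_T0.2 hxk), Perm.ofSubtype_apply_of_mem (p := fun x : Fin N => x.1 < k) _ hxk]
  have : f.symm ⟨x, hxk⟩ = i := by
    ext
    exact hx
  rw [Equiv.permCongr_apply, this]
  rfl

open Classical in
theorem prj_apply (ρ : A N →* Module.End ℂ V) (T : Finset (Fin N)) (v : V) :
    prj ρ T v = ((Finset.univ.filter fun g : A N => ∀ i ∈ T, g.1 i = i).card : ℂ)⁻¹ •
      ∑ g ∈ Finset.univ.filter (fun g : A N => ∀ i ∈ T, g.1 i = i), ρ g v := by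
  unfold prj
  rw [LinearMap.smul_apply, LinearMap.sum_apply]

open Classical in
theorem card_ne (T : Finset (Fin N)) :
    ((Finset.univ.filter fun g : A N => ∀ i ∈ T, g.1 i = i).card : ℂ) ≠ 0 := by
  have : (1 : A N) ∈ Finset.univ.filter fun g : A N => ∀ i ∈ T, g.1 i = i := by
    rw [Finset.mem_filter]
    exact ⟨Finset.mem_univ _, fun i _ => rfl⟩
  exact_mod_cast (Finset.card_pos.2 ⟨_, this⟩).ne'

theorem prj_fix {ρ : A N →* Module.End ℂ V} {T : Finset (Fin N)} {u : V} (hu : u ∈ Fx ρ T) :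
    prj ρ T u = u := by
  classical
  rw [prj_apply]
  have h1 : ∑ g ∈ Finset.univ.filter (fun g : A N => ∀ i ∈ T, g.1 i = i), ρ g u =
      ∑ _g ∈ Finset.univ.filter (fun g : A N => ∀ i ∈ T, g.1 i = i), u :=
    Finset.sum_congr rfl fun g hg => hu g (Finset.mem_filter.1 hg).2
  rw [h1, Finset.sum_const, ← Nat.cast_smul_eq_nsmul ℂ, smul_smul, inv_mul_cancel₀ (card_ne T),
    one_smul]

theorem prj_mul {ρ : A N →* Module.End ℂ V} {T : Finset (Fin N)} {s : A N}
    (hs : ∀ i ∈ T, s.1 i = i) (v : V) : prj ρ T (ρ s v) = prj ρ T v := by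
  classical
  rw [prj_apply, prj_apply]
  congr 1
  refine Finset.sum_equiv (Equiv.mulRight s) ?_ ?_
  · intro g
    simp only [Finset.mem_filter, Finset.mem_univ, true_and, Equiv.coe_mulRight]
    constructor
    · intro h i hi
      change g.1 (s.1 i) = i
      rw [hs i hi, h i hi]
    · intro h i hi
      have h1 : g.1 (s.1 i) = i := h i hi
      rwa [hs i hi] at h1
  · intro g _
    rw [Equiv.coe_mulRight, map_mul, Module.End.mul_apply]

open Classical in
/-- the sum over the pointwise stabiliser is fixed -/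
theorem sum_Fx (ρ : A N →* Module.End ℂ V) (T : Finset (Fin N)) (v : V) :
    ∑ g ∈ Finset.univ.filter (fun g : A N => ∀ i ∈ T, g.1 i = i), ρ g v ∈ Fx ρ T := by
  intro s hs
  rw [map_sum]
  refine Finset.sum_equiv (Equiv.mulLeft s) ?_ ?_
  · intro g
    simp only [Finset.mem_filter, Finset.mem_univ, true_and, Equiv.coe_mulLeft]
    constructor
    · intro h i hi
      change s.1 (g.1 i) = i
      rw [h i hi, hs i hi]
    · intro h i hi
      have h1 : s.1 (g.1 i) = i := h i hi
      have h2 := hs i hi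
      exact s.1.injective (h1.trans h2.symm)
  · intro g _
    rw [Equiv.coe_mulLeft, map_mul, Module.End.mul_apply]

/-- moving one point outside of the first `k` points does not change the average -/
theorem move {k : ℕ} (hN : 2 * k + 2 ≤ N) {ρ : A N →* Module.End ℂ V} {u : V}
    (hu : u ∈ Fx ρ (T0 N k)) (g h : A N) (i : Fin N) (hi : i.1 < k) (hgi : ¬ (g.1 i).1 < k)
    (hh : ∀ j ∈ ((T0 N k).erase i).image (fun x => g.1 x), h.1 j = j)
    (hz : ¬ (h.1 (g.1 i)).1 < k) :
    prj ρ (T0 N k) (ρ (h * g) u) = prj ρ (T0 N k) (ρ g u) := by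
  classical
  have hh' : ∀ j : Fin N, j.1 < k → j ≠ i → h.1 (g.1 j) = g.1 j := fun j hj hji =>
    hh _ (Finset.mem_image.2 ⟨j, Finset.mem_erase.2 ⟨hji, mem_T0.2 hj⟩, rfl⟩)
  set z := h.1 (g.1 i) with hzdef
  by_cases hzg : z = g.1 i
  · congr 1
    refine agree hu fun x hx => ?_
    rw [mem_T0] at hx
    change h.1 (g.1 x) = g.1 x
    by_cases hxi : x = i
    · rw [hxi, ← hzdef, hzg]
    · exact hh' x hx hxi
  -- a further point
  obtain ⟨y, hy⟩ : ∃ y : Fin N, y ∉ insert z (T0 N k ∪ (T0 N k).image fun x => g.1 x) := by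
    by_contra hcon
    push Not at hcon
    have h1 : (Finset.univ : Finset (Fin N)) ⊆ insert z (T0 N k ∪ (T0 N k).image fun x => g.1 x) :=
      fun y _ => hcon y
    have h2 := Finset.card_le_card h1
    have h3 := Finset.card_insert_le z (T0 N k ∪ (T0 N k).image fun x => g.1 x)
    have h4 := Finset.card_union_le (T0 N k) ((T0 N k).image fun x => g.1 x)
    have h5 : ((T0 N k).image fun x => g.1 x).card ≤ (T0 N k).card := Finset.card_image_le
    rw [card_T0 (by omega : k ≤ N)] at h4 h5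
    rw [Finset.card_univ, Fintype.card_fin] at h2
    omega
  rw [Finset.mem_insert, Finset.mem_union, not_or, not_or] at hy
  obtain ⟨hyz, hyT, hyg⟩ := hy
  have hyg' : ∀ x : Fin N, x.1 < k → g.1 x ≠ y := fun x hx hxy =>
    hyg (Finset.mem_image.2 ⟨x, mem_T0.2 hx, hxy⟩)
  have hyT' : ¬ y.1 < k := fun h => hyT (mem_T0.2 h)
  set s0 : Perm (Fin N) := swap z (g.1 i) * swap (g.1 i) y with hs0
  have hs0m : s0 ∈ alternatingGroup (Fin N) := by
    rw [Perm.mem_alternatingGroup, hs0, map_mul, Perm.sign_swap hzg,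
      Perm.sign_swap (hyg' i hi)]
    rfl
  have hs_fix : ∀ x, x ≠ z → x ≠ g.1 i → x ≠ y → s0 x = x := by
    intro x h1 h2 h3
    rw [hs0, Perm.mul_apply, swap_apply_of_ne_of_ne h2 h3, swap_apply_of_ne_of_ne h1 h2]
  have hs_z : s0 z = g.1 i := by
    rw [hs0, Perm.mul_apply, swap_apply_of_ne_of_ne hzg (Ne.symm hyz), swap_apply_left]
  set s : A N := ⟨s0, hs0m⟩ with hs
  have hsT : ∀ x ∈ T0 N k, s.1 x = x := by
    intro x hx
    rw [mem_T0] at hx
    refine hs_fix x ?_ ?_ ?_
    · rintro rfl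
      exact hz hx
    · rintro rfl
      exact hgi hx
    · rintro rfl
      exact hyT' hx
  have e : ρ s (ρ (h * g) u) = ρ (s * (h * g)) u := by
    rw [map_mul ρ s, Module.End.mul_apply]
  rw [← prj_mul hsT, e]
  congr 1
  refine agree hu fun x hx => ?_
  rw [mem_T0] at hx
  change s0 (h.1 (g.1 x)) = g.1 x
  by_cases hxi : x = i
  · rw [hxi, ← hzdef, hs_z]
  · rw [hh' x hx hxi]
    refine hs_fix _ ?_ ?_ (hyg' x hx)
    · intro h1
      -- `g x = z = h (g i)`, `h (g x) = g x`
      have h2 : h.1 (g.1 x) = h.1 (g.1 i) := by rw [hh' x hx hxi, h1]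
      exact hxi (g.1.injective (h.1.injective h2))
    · intro h1
      exact hxi (g.1.injective h1)

/-- number of the first `k` points which leave -/
def qq {N : ℕ} (k : ℕ) (g : A N) : ℕ :=
  (Finset.univ.filter fun x : Fin N => x.1 < k ∧ ¬ (g.1 x).1 < k).card

theorem main {k : ℕ} (hN : 2 * k + 2 ≤ N) (L : Perm (Fin k) → A N) (hL : ∀ σ, Lifts (L σ) σ)
    (n : ℕ) : ∀ g : A N, qq k g = n → ∃ c : Perm (Fin k) → ℂ,
      ∀ (V : Type) [AddCommGroup V] [Module ℂ V] (ρ : A N →* Module.End ℂ V),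
      (∀ T : Finset (Fin N), T.card < k → Fx ρ T = ⊥) →
      ∀ u ∈ Fx ρ (T0 N k), prj ρ (T0 N k) (ρ g u) = ∑ σ, c σ • ρ (L σ) u := by
  classical
  induction n using Nat.strong_induction_on with
  | _ n ih =>
    intro g hg
    by_cases hq : ∃ i : Fin N, i.1 < k ∧ ¬ (g.1 i).1 < k
    · obtain ⟨i, hi, hgi⟩ := hq
      set T' : Finset (Fin N) := ((T0 N k).erase i).image (fun x => g.1 x) with hT'
      have hT'c : T'.card < k := by
        have h1 : T'.card ≤ ((T0 N k).erase i).card := Finset.card_image_le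
        rw [Finset.card_erase_of_mem (mem_T0.2 hi), card_T0 (by omega : k ≤ N)] at h1
        omega
      set K : Finset (A N) := Finset.univ.filter (fun h : A N => ∀ j ∈ T', h.1 j = j) with hK
      have hKm : ∀ h : A N, h ∈ K ↔ ∀ j ∈ T', h.1 j = j := fun h => by simp [hK]
      have hC : ∀ h : A N, ∃ c : Perm (Fin k) → ℂ, (h ∈ K ∧ (h.1 (g.1 i)).1 < k) →
          ∀ (V : Type) [AddCommGroup V] [Module ℂ V] (ρ : A N →* Module.End ℂ V),
          (∀ T : Finset (Fin N), T.card < k → Fx ρ T = ⊥) →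
          ∀ u ∈ Fx ρ (T0 N k), prj ρ (T0 N k) (ρ (h * g) u) = ∑ σ, c σ • ρ (L σ) u := by
        intro h
        by_cases hh : h ∈ K ∧ (h.1 (g.1 i)).1 < k
        · have hlt : qq k (h * g) < n := by
            rw [← hg]
            refine Finset.card_lt_card ?_
            rw [Finset.ssubset_iff_of_subset]
            · refine ⟨i, ?_, ?_⟩
              · rw [Finset.mem_filter]
                exact ⟨Finset.mem_univ _, hi, hgi⟩
              · rw [Finset.mem_filter]
                rintro ⟨_, _, h1⟩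
                exact h1 hh.2
            · intro x hx
              rw [Finset.mem_filter] at hx ⊢
              obtain ⟨_, hx1, hx2⟩ := hx
              refine ⟨Finset.mem_univ _, hx1, ?_⟩
              have hx2' : ¬ (h.1 (g.1 x)).1 < k := hx2
              by_cases hxi : x = i
              · rw [hxi]
                exact hgi
              · rwa [(hKm h).1 hh.1 (g.1 x) (Finset.mem_image.2
                  ⟨x, Finset.mem_erase.2 ⟨hxi, mem_T0.2 hx1⟩, rfl⟩)] at hx2'
          obtain ⟨c, hc⟩ := ih _ hlt (h * g) rfl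
          exact ⟨c, fun _ => hc⟩
        · exact ⟨0, fun h' => absurd h' hh⟩
      choose C hC using hC
      set K1 := K.filter (fun h => ¬ (h.1 (g.1 i)).1 < k) with hK1
      set K2 := K.filter (fun h => (h.1 (g.1 i)).1 < k) with hK2
      have hK1c : (K1.card : ℂ) ≠ 0 := by
        have : (1 : A N) ∈ K1 := by
          rw [hK1, Finset.mem_filter, hKm]
          exact ⟨fun j _ => rfl, hgi⟩
        exact_mod_cast (Finset.card_pos.2 ⟨_, this⟩).ne'
      refine ⟨fun σ => -((K1.card : ℂ)⁻¹ * ∑ h ∈ K2, C h σ), ?_⟩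
      intro V _ _ ρ hρ u hu
      -- the sum over the stabiliser vanishes
      have h0 : ∑ h ∈ K, ρ h (ρ g u) = 0 := by
        have h1 := sum_Fx ρ T' (ρ g u)
        rw [hρ T' hT'c, Submodule.mem_bot] at h1
        exact h1
      have h1 : ∑ h ∈ K, prj ρ (T0 N k) (ρ (h * g) u) = 0 := by
        rw [← map_zero (prj ρ (T0 N k)), ← h0, map_sum]
        refine Finset.sum_congr rfl fun h _ => ?_
        rw [map_mul, Module.End.mul_apply]
      rw [← Finset.sum_filter_add_sum_filter_not K (fun h => (h.1 (g.1 i)).1 < k)] at h1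
      have h2 : ∑ h ∈ K1, prj ρ (T0 N k) (ρ (h * g) u) =
          (K1.card : ℂ) • prj ρ (T0 N k) (ρ g u) := by
        have h3 : ∀ h ∈ K1, prj ρ (T0 N k) (ρ (h * g) u) = prj ρ (T0 N k) (ρ g u) := by
          intro h hh
          rw [hK1, Finset.mem_filter, hKm] at hh
          exact move hN hu g h i hi hgi hh.1 hh.2
        rw [Finset.sum_congr rfl h3, Finset.sum_const, ← Nat.cast_smul_eq_nsmul ℂ]
      have h3 : ∑ h ∈ K2, prj ρ (T0 N k) (ρ (h * g) u) =
          ∑ σ, (∑ h ∈ K2, C h σ) • ρ (L σ) u := by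
        have h4 : ∀ h ∈ K2, prj ρ (T0 N k) (ρ (h * g) u) = ∑ σ, C h σ • ρ (L σ) u := by
          intro h hh
          rw [hK2, Finset.mem_filter] at hh
          exact hC h hh V ρ hρ u hu
        rw [Finset.sum_congr rfl h4, Finset.sum_comm]
        refine Finset.sum_congr rfl fun σ _ => ?_
        rw [Finset.sum_smul]
      rw [← hK1, ← hK2, h2, h3] at h1
      have h4 : prj ρ (T0 N k) (ρ g u) =
          -((K1.card : ℂ)⁻¹ • ∑ σ, (∑ h ∈ K2, C h σ) • ρ (L σ) u) := by
        have h5 : (K1.card : ℂ) • prj ρ (T0 N k) (ρ g u) =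
            -∑ σ, (∑ h ∈ K2, C h σ) • ρ (L σ) u := by
          rw [eq_neg_iff_add_eq_zero, add_comm]
          exact h1
        rw [← smul_neg, ← h5, smul_smul, inv_mul_cancel₀ hK1c, one_smul]
      rw [h4, Finset.smul_sum, ← Finset.sum_neg_distrib]
      refine Finset.sum_congr rfl fun σ _ => ?_
      rw [neg_smul, smul_smul]
    · push Not at hq
      -- `g` permutes the first `k` points
      have hkN : k ≤ N := by omega
      let f : Fin k → Fin k := fun j => ⟨(g.1 (Fin.castLE hkN j)).1, hq _ (by simp)⟩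
      have hf : Function.Injective f := by
        intro a b hab
        have h0 : (f a).1 = (f b).1 := by rw [hab]
        have h1 : (g.1 (Fin.castLE hkN a)).1 = (g.1 (Fin.castLE hkN b)).1 := h0
        have h2 := g.1.injective (Fin.ext h1)
        exact Fin.castLE_injective hkN h2
      let σ : Perm (Fin k) := Equiv.ofBijective f (Finite.injective_iff_bijective.1 hf)
      have hgσ : Lifts g σ := by
        intro j x hx
        have h1 : x = Fin.castLE hkN j := Fin.ext hx
        rw [h1]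
        rfl
      refine ⟨Pi.single σ 1, ?_⟩
      intro V _ _ ρ hρ u hu
      rw [prj_fix (lift_Fx hgσ hu), agree hu (agree_lift hgσ (hL σ))]
      rw [Finset.sum_eq_single σ]
      · rw [Pi.single_eq_same, one_smul]
      · intro τ _ hτ
        rw [Pi.single_eq_of_ne hτ, zero_smul]
      · intro h
        exact absurd (Finset.mem_univ _) h

end PU

theorem t_UNIV : S_UNIV := by
  intro N k hN g
  choose L hL using fun σ : Equiv.Perm (Fin k) => PU.exists_lift (N := N) (by omega) σ
  obtain ⟨c, hc⟩ := PU.main hN L hL _ g rfl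
  exact ⟨L, c, hL, hc⟩

end Pool.Agent.R639.FZ
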